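import Pool.Agent.HB.A.LocC
import Pool.Agent.HB.A.ChartB

/-!
# HB-D-Avoid: affine neighbourhoods avoiding finitely many curves

Plan.  `P.exists_chart` gives `l` in `{1, s, t}` with `A = S.chart l <= O_P`, and `P` is the
localisation of `A` at a maximal ideal `M` (`P.ofPrime_of_chart`).  For a curve `C` in the finite set
with `A <= O_C`, `C` is the localisation of `A` at a prime `p` (`C.ofPrime_of_chart`), and `p` is not
contained in `M` (otherwise `O_P <= O_C`: an element outside `M` is outside `p`): choose `a_C` in `p`,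
not in `M`.  Let `h` be the product of these `a_C`: it is in `A`, outside `M`, so
`h ≠ 0` and `h⁻¹` is in `O_P` (`mem_ofPrime`).  If `A <= O_Q` and `h⁻¹` is in `O_Q` and `Q` is on `C`, then
`A <= O_C`, and `h⁻¹` is in `O_C` although `h` is in the maximal ideal of `O_C` (its factor `a_C` is):
contradiction.
-/

set_option autoImplicit false

open IsLocalRing

namespace HB

universe u

namespace Surf

variable {k L : Type u} [Field k] [Field L] [Algebra k L] {S : Surf k L}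
  [CharZero k] [IsAlgClosed k]

private theorem exists_avoid_one (P : S.Pt) {l : L} (hl : l ∈ S.V) (h0 : l ≠ 0)
    (M : Ideal (S.chart l)) [M.IsPrime] (hPM : P.1 = LocalSubring.ofPrime (S.chart l) M)
    (C : S.PD) (hC : ¬ On P C) :
    ∃ a : S.chart l, a ∉ M ∧ (S.chart l ≤ C.1.toSubring → (a : L)⁻¹ ∉ C.1.toSubring) := by
  by_cases hAC : S.chart l ≤ C.1.toSubring
  · obtain ⟨p, hp, hh, hCp⟩ := C.ofPrime_of_chart hl h0 hAC
    have hn : ¬ p ≤ M := by
      intro hle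
      apply hC
      unfold On
      rw [hPM, hCp]
      intro x hx
      rw [mem_ofPrime] at hx ⊢
      obtain ⟨a, b, hb, hx⟩ := hx
      exact ⟨a, b, fun hb' => hb (hle hb'), hx⟩
    obtain ⟨a, hap, haM⟩ := Set.not_subset.1 hn
    refine ⟨a, haM, fun _ hinv => ?_⟩
    have ha0 : (a : L) ≠ 0 := ((notMem_iff_inv_mem (S.chart l) M a).1 haM).1
    rw [hCp] at hinv
    exact (notMem_iff_inv_mem (S.chart l) p a).2 ⟨ha0, hinv⟩ hap
  · exact ⟨1, (Ideal.ne_top_iff_one M).1 (Ideal.IsPrime.ne_top'), fun h => absurd h hAC⟩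

theorem exists_avoid (P : S.Pt) (T : Set S.PD) (hT : T.Finite) (hP : ∀ C ∈ T, ¬ On P C) :
    ∃ l h : L, l ∈ S.V ∧ l ≠ 0 ∧ h ∈ S.chart l ∧ h ≠ 0 ∧ S.chart l ≤ P.1.toSubring ∧
      h⁻¹ ∈ P.1.toSubring ∧
      ∀ Q : S.Pt, S.chart l ≤ Q.1.toSubring → h⁻¹ ∈ Q.1.toSubring → ∀ C ∈ T, ¬ On Q C := by
  classical
  obtain ⟨l, hl, hlP⟩ := P.exists_chart
  obtain ⟨hl1, hl0⟩ := ne_zero_of_mem hl
  obtain ⟨M, hM, hMm, hPM⟩ := P.ofPrime_of_chart hl1 hl0 hlP
  have hex : ∀ C : S.PD, ∃ a : S.chart l, C ∈ T → (a ∉ M ∧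
      (S.chart l ≤ C.1.toSubring → (a : L)⁻¹ ∉ C.1.toSubring)) := by
    intro C
    by_cases hC : C ∈ T
    · obtain ⟨a, ha⟩ := exists_avoid_one P hl1 hl0 M hPM C (hP C hC)
      exact ⟨a, fun _ => ha⟩
    · exact ⟨1, fun h => absurd h hC⟩
  choose a ha using hex
  set F := hT.toFinset with hF
  have hFT : ∀ C, C ∈ F ↔ C ∈ T := fun C => hT.mem_toFinset
  set H : S.chart l := ∏ C ∈ F, a C with hH
  have hHM : H ∉ M := by
    intro hmem
    obtain ⟨C, hC, hCM⟩ := (Ideal.IsPrime.prod_mem_iff (p := M)).1 hmem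
    exact (ha C ((hFT C).1 hC)).1 hCM
  obtain ⟨hH0, hHinv⟩ := (notMem_iff_inv_mem (S.chart l) M H).1 hHM
  refine ⟨l, H, hl1, hl0, H.2, hH0, hlP, by rw [hPM]; exact hHinv, ?_⟩
  intro Q hQ hQinv C hC hQC
  apply (ha C hC).2 (hQ.trans hQC)
  have hCF : C ∈ F := (hFT C).2 hC
  have hprod : (H : L) = (a C : L) * ((∏ D ∈ F.erase C, a D : S.chart l) : L) := by
    have := Finset.mul_prod_erase F a hCF
    rw [hH, ← this]
    push_cast
    rfl
  have haC : (a C : L) ≠ 0 := by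
    intro h
    apply hH0
    rw [hprod, h, zero_mul]
  have hr : ((∏ D ∈ F.erase C, a D : S.chart l) : L) ≠ 0 := by
    intro h
    apply hH0
    rw [hprod, h, mul_zero]
  have heq : (a C : L)⁻¹ = (H : L)⁻¹ * ((∏ D ∈ F.erase C, a D : S.chart l) : L) := by
    rw [hprod, mul_inv, mul_assoc, inv_mul_cancel₀ hr, mul_one]
  rw [heq]
  exact C.1.toSubring.mul_mem (hQC hQinv) (hQC (hQ (∏ D ∈ F.erase C, a D : S.chart l).2))

end Surf

end HB
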