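import Pool.Agent.HB.D.Latt
import Pool.Agent.HB.D.Avoid

/-!
# HB-D-MkVB: vector bundles from frames with prescribed lattices at the prime divisors

Plan.  At `P` take `l, h` from `exists_avoid` for the finite set `T` of the curves `C` with
`latt O_C (F P) ≠ Λ C` (none of them passes through `P` by `h1`), and `g = F P`.  For `Q` in the
neighbourhood, every `C` through `Q` is outside `T`, so `latt O_C (F P) = Λ C = latt O_C (F Q)`, and
`latt_eq_of_forall` gives `latt O_Q (F Q) = latt O_Q (F P)`.
-/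

set_option autoImplicit false

open IsLocalRing

namespace HB

universe u

namespace Surf

variable {k L : Type u} [Field k] [Field L] [Algebra k L] {S : Surf k L}
  [CharZero k] [IsAlgClosed k]

/-- The vector bundle with frames `F P`. -/
noncomputable def mkVB (hS : S.Smooth) {r : ℕ} (F : S.Pt → Matrix (Fin r) (Fin r) L)
    (hF : ∀ P, (F P).det ≠ 0) (Λ : S.PD → Set (Fin r → L))
    (h1 : ∀ (P : S.Pt) (C : S.PD), On P C → latt C.1.toSubring (F P) = Λ C)
    (h2 : ∀ P : S.Pt, {C : S.PD | latt C.1.toSubring (F P) ≠ Λ C}.Finite) : VB S r where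
  E := fun P => latt P.1.toSubring (F P)
  locFree := by
    intro P
    obtain ⟨l, h, hl, hl0, hh, hh0, hlP, hhP, hQ⟩ :=
      exists_avoid P {C : S.PD | latt C.1.toSubring (F P) ≠ Λ C} (h2 P)
        (fun C hC hPC => hC (h1 P C hPC))
    refine ⟨l, h, F P, hl, hl0, hh, hh0, hF P, hlP, hhP, ?_⟩
    intro Q hlQ hhQ
    refine latt_eq_of_forall hS Q (F Q) (F P) (hF Q) (hF P) ?_
    intro C hQC
    have h3 : ¬ (latt C.1.toSubring (F P) ≠ Λ C) := fun h4 => hQ Q hlQ hhQ C h4 hQC
    rw [h1 Q C hQC, not_not.mp h3]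

end Surf

end HB
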