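import Pool.Agent.HB.D.Fin
import Pool.Agent.HB.D.MkVB
import Pool.Agent.HB.E2.PolyLatt

/-!
# HB-D-Bundle: the bundle
-/

set_option autoImplicit false

open IsLocalRing
open scoped Matrix

namespace HB

variable {k K : Type} [Field k] [Field K] [Algebra k K] [CharZero k] [IsAlgClosed k] [CharZero K]
  {X : Surf k K}

/-- A choice of local data at every closed point. -/
structure Geo.LocData (G : Geo X) where
  u : X.Pt → Fin 5 → K
  d : X.Pt → K
  d' : X.Pt → K
  isLoc : ∀ P : X.Pt, G.IsLoc P (u P) (d P) (d' P)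

theorem Geo.exists_locData (hX : X.Smooth) (G : Geo X) : Nonempty G.LocData :=
  ⟨⟨fun P => (G.exists_isLoc hX P).choose, fun P => (G.exists_isLoc hX P).choose_spec.choose,
    fun P => (G.exists_isLoc hX P).choose_spec.choose_spec.choose,
    fun P => (G.exists_isLoc hX P).choose_spec.choose_spec.choose_spec⟩⟩

/-- The frame at `P`. -/
noncomputable def Geo.FF (G : Geo X) (Z : ZPair k) (W : G.LocData) (P : X.Pt) :
    Matrix (Fin 5) (Fin 5) K :=
  frame (W.u P) (G.nloc Z P.1.toSubring) (W.d P) (W.d' P)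

omit [CharZero K] in
theorem frame_det {u n : Fin 5 → K} {d d' : K} (hn : ∀ i, n i ≠ 0)
    (hu : ∀ i j, i ≠ j → u i ≠ u j) (hd : d ≠ 0) (hd' : d' ≠ 0) : (frame u n d d').det ≠ 0 := by
  intro h0
  obtain ⟨c, hc, h⟩ := Matrix.exists_mulVec_eq_zero_iff.2 h0
  have hs : ∀ i j, i ≠ j → u i - u j ≠ 0 := fun i j hij => sub_ne_zero.mpr (hu i j hij)
  have key : ∀ i, n i * (c 0 * ((u i - u 0) * (u i - u 1) * (u i - u 2) * (u i - u 4)) +
      c 1 * ((u i - u 0) * (u i - u 1) * (u i - u 2)) + c 2 * ((u i - u 0) * (u i - u 2)) +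
      c 3 * (d * (u i - u 2)) + c 4 * (d' * (u i - u 0))) = 0 := by
    intro i
    have := congrFun h i
    simp only [Matrix.mulVec, dotProduct, frame, Matrix.of_apply, Fin.sum_univ_five,
      Pi.zero_apply] at this
    simp only [Matrix.cons_val] at this
    linear_combination this
  have key' : ∀ i, c 0 * ((u i - u 0) * (u i - u 1) * (u i - u 2) * (u i - u 4)) +
      c 1 * ((u i - u 0) * (u i - u 1) * (u i - u 2)) + c 2 * ((u i - u 0) * (u i - u 2)) +
      c 3 * (d * (u i - u 2)) + c 4 * (d' * (u i - u 0)) = 0 :=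
    fun i => (mul_eq_zero.1 (key i)).resolve_left (hn i)
  have h4 : c 4 = 0 := by
    have e := key' 2
    simp only [sub_self, mul_zero, zero_mul, zero_add] at e
    exact (mul_eq_zero.1 e).resolve_right (mul_ne_zero hd' (hs 2 0 (by decide)))
  have h3 : c 3 = 0 := by
    have e := key' 0
    simp only [sub_self, mul_zero, zero_mul, zero_add, h4, add_zero] at e
    exact (mul_eq_zero.1 e).resolve_right (mul_ne_zero hd (hs 0 2 (by decide)))
  have h2 : c 2 = 0 := by
    have e := key' 1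
    simp only [sub_self, mul_zero, zero_mul, zero_add, h4, h3, add_zero] at e
    exact (mul_eq_zero.1 e).resolve_right (mul_ne_zero (hs 1 0 (by decide)) (hs 1 2 (by decide)))
  have h1 : c 1 = 0 := by
    have e := key' 4
    simp only [sub_self, mul_zero, zero_mul, zero_add, h4, h3, h2, add_zero] at e
    exact (mul_eq_zero.1 e).resolve_right (mul_ne_zero (mul_ne_zero (hs 4 0 (by decide))
      (hs 4 1 (by decide))) (hs 4 2 (by decide)))
  have h0 : c 0 = 0 := by
    have e := key' 3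
    simp only [zero_mul, h4, h3, h2, h1, add_zero] at e
    exact (mul_eq_zero.1 e).resolve_right (mul_ne_zero (mul_ne_zero (mul_ne_zero
      (hs 3 0 (by decide)) (hs 3 1 (by decide))) (hs 3 2 (by decide))) (hs 3 4 (by decide)))
  apply hc
  funext i
  fin_cases i <;> assumption

theorem Geo.FF_det (hX : X.Smooth) (G : Geo X) (Z : ZPair k) (W : G.LocData) (P : X.Pt) :
    (G.FF Z W P).det ≠ 0 :=
  frame_det (fun i => G.nloc_ne hX Z P i) (W.isLoc P).u_ne (W.isLoc P).d_ne (W.isLoc P).d'_ne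

theorem Geo.latt_FF (hX : X.Smooth) (G : Geo X) (Z : ZPair k) (W : G.LocData) {P : X.Pt}
    {C : X.PD} (h : Surf.On P C) : latt C.1.toSubring (G.FF Z W P) = G.Lam Z C :=
  G.latt_frame hX Z h (W.isLoc P)

theorem Geo.finite_FF (hX : X.Smooth) (G : Geo X) (Z : ZPair k) (W : G.LocData) (P : X.Pt) :
    {C : X.PD | latt C.1.toSubring (G.FF Z W P) ≠ G.Lam Z C}.Finite :=
  G.finite_latt hX Z (W.isLoc P)

/-- The bundle. -/
noncomputable def Geo.bundle (hX : X.Smooth) (G : Geo X) (Z : ZPair k) (W : G.LocData) :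
    VB X 5 :=
  Surf.mkVB hX (G.FF Z W) (G.FF_det hX Z W) (G.Lam Z) (fun _ _ h => G.latt_FF hX Z W h)
    (G.finite_FF hX Z W)

theorem Geo.bundle_E (hX : X.Smooth) (G : Geo X) (Z : ZPair k) (W : G.LocData) (P : X.Pt) :
    (G.bundle hX Z W).E P =
      latt P.1.toSubring (frame (W.u P) (G.nloc Z P.1.toSubring) (W.d P) (W.d' P)) := rfl

theorem Geo.bundle_glue (hX : X.Smooth) (G : Geo X) (Z : ZPair k) (W : G.LocData) (V : X.PD)
    (P P' : X.Pt) (h : Surf.On P V) (h' : Surf.On P' V) :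
    latt V.1.toSubring (frame (W.u P) (G.nloc Z P.1.toSubring) (W.d P) (W.d' P)) =
      latt V.1.toSubring (frame (W.u P') (G.nloc Z P'.1.toSubring) (W.d P') (W.d' P')) :=
  (G.latt_FF hX Z W h).trans (G.latt_FF hX Z W h').symm

end HB
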