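import Pool.Agent.HB.B.BB

/-!
# HB-D-Chart: the chart `w = 1/(x - c)`, `η = y/(x - c)³` of `B : y² = x⁶ + 1`

`η² = g(w)`, `g(w) = (1 + c w)⁶ + w⁶`.  At a point at infinity: `w = 0`, `η = e`.
If `w, η` are integral at both points, then `D.iB p q = D.dmin (w_p - w_q) (η_p - η_q)`.

Plan for `iB_chart`.  `x = c + 1/w`.  Cases:
* `p, q` both `IsFin`: (`aff`), `x - c ≠ 0` may fail: if `x_p = c` then `w_p = 1/0 = 0` - excluded by the
  hypothesis `x_p ≠ c`.  `x_p - c` is integral and `1/(x_p - c)` is integral: unit.  Then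
  `w_p - w_q = (x_q - x_p) w_p w_q` and `η_p - η_q = (y_p - y_q) w_p³ + y_q (w_p³ - w_q³)`;
  conversely `x_p - x_q = (w_q - w_p)/(w_p w_q)`, `y_p - y_q = (η_p - η_q)/w_p³ + η_q (w_p⁻³ - w_q⁻³)`.
  Prove `dmin = dmin` by `le_dmin` in both directions (`n ≤ dmin a b ↔ ge n a ∧ ge n b`; the
  pairs are not both zero: `coord_ne_fin`).
* none `IsFin`: `w = xh/(1 - c xh)`, `η = yh/(1 - c xh)³` (also for `inf`), `1 - c xh` is a unit.  Same
  computation: `w_p - w_q = (xh_p - xh_q)/((1 - c xh_p)(1 - c xh_q))`,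
  `η_p - η_q = (yh_p - yh_q) m_p³ + yh_q (m_p³ - m_q³)`, `m = (1 - c xh)⁻¹`, and
  `m_p - m_q = c (xh_p - xh_q) m_p m_q`; conversely with `xh = w/(1 + c w)`, `1 + c w = m`.
* `p` `IsFin`, `q` not: `w_p` is a unit (`v = 0`), `D.ge 1 w_q`: `v (w_p - w_q) = 0`, both sides `0`
  (`η_p - η_q` integral).
-/

set_option autoImplicit false

namespace HB

variable {k F : Type} [Field k] [Field F] [Algebra k F] [CharZero k] (D : DV k F)

/-- The coordinate `1/(x - c)`. -/
noncomputable def BPt.w (c : F) : BPt F → F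
  | .aff x _ _ => (x - c)⁻¹
  | .inf _ _ => 0

/-- The coordinate `y/(x - c)³`. -/
noncomputable def BPt.eta (c : F) : BPt F → F
  | .aff x y _ => y * ((x - c)⁻¹) ^ 3
  | .inf e _ => e

/-- The point is not on `x = c`. -/
def BPt.NotC (c : F) : BPt F → Prop
  | .aff x _ _ => x ≠ c
  | .inf _ _ => True

theorem BPt.eta_sq {c : F} {p : BPt F} (hp : p.NotC c) :
    p.eta c ^ 2 = (1 + c * p.w c) ^ 6 + p.w c ^ 6 := by
  match p, hp with
  | .aff x y hh, hp =>
    simp only [BPt.w, BPt.eta]
    have h0 : x - c ≠ 0 := sub_ne_zero.mpr hp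
    have h1 : y ^ 2 = x ^ 6 + 1 := hh
    have e1 : 1 + c * (x - c)⁻¹ = x * (x - c)⁻¹ := by
      field_simp
      ring
    rw [e1, mul_pow, h1, mul_pow]
    ring
  | .inf e hh, _ =>
    simp only [BPt.w, BPt.eta]
    rw [hh]
    ring

omit [CharZero k] in
theorem DV.chart_aux {u u' s s' a a' : F} (hs : s * u = 1) (hs' : s' * u' = 1) (hu : D.ge 0 u)
    (hu' : D.ge 0 u') (ha' : D.ge 0 a') (n : ℤ) (h : D.ge n (s - s') ∧ D.ge n (a - a')) :
    D.ge n (u - u') ∧ D.ge n (a * u ^ 3 - a' * u' ^ 3) := by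
  have e1 : u - u' = (s - s') * (-(u * u')) := by
    linear_combination u' * hs - u * hs'
  have h1 : D.ge n (u - u') := by
    rw [e1]
    have g : D.ge 0 (-(u * u')) := D.ge_neg (by simpa using D.ge_mul hu hu')
    simpa using D.ge_mul h.1 g
  refine ⟨h1, ?_⟩
  have e2 : a * u ^ 3 - a' * u' ^ 3 = (a - a') * u ^ 3 +
      (u - u') * (a' * (u ^ 2 + u * u' + u' ^ 2)) := by ring
  rw [e2]
  have g1 : D.ge n ((a - a') * u ^ 3) := by simpa using D.ge_mul h.2 (D.ge_pow hu 3)
  have g2 : D.ge 0 (u ^ 2 + u * u' + u' ^ 2) :=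
    D.ge_add (D.ge_add (D.ge_pow hu 2) (by simpa using D.ge_mul hu hu')) (D.ge_pow hu' 2)
  have g3 : D.ge 0 (a' * (u ^ 2 + u * u' + u' ^ 2)) := by simpa using D.ge_mul ha' g2
  exact D.ge_add g1 (by simpa using D.ge_mul h1 g3)

omit [CharZero k] in
theorem BPt.chart_ge_eta {c : k} {p : BPt F} (hp : p.NotC (algebraMap k F c))
    (hw : D.ge 0 (p.w (algebraMap k F c))) : D.ge 0 (p.eta (algebraMap k F c)) := by
  refine D.ge_of_pow (n := 2) (by norm_num) ?_
  rw [BPt.eta_sq hp]
  refine D.ge_add (D.ge_pow (D.ge_add D.ge_one ?_) 6) (D.ge_pow hw 6)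
  simpa using D.ge_mul (D.ge_const c) hw

omit [CharZero k] in
theorem BPt.chart_fin {c : k} {p : BPt F} (h : p.IsFin D) (hp : p.NotC (algebraMap k F c))
    (hw : D.ge 0 (p.w (algebraMap k F c))) :
    (p.x - algebraMap k F c) * p.w (algebraMap k F c) = 1 ∧
    D.ge 0 (p.x - algebraMap k F c) ∧ p.w (algebraMap k F c) ≠ 0 ∧
    D.v (p.w (algebraMap k F c)) = 0 ∧
    p.eta (algebraMap k F c) = p.y * p.w (algebraMap k F c) ^ 3 := by
  match p, h, hp, hw with
  | aff x y hh, h, hp, hw =>
    simp only [BPt.x, BPt.y, BPt.w, BPt.eta] at hw ⊢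
    have h0 : x - algebraMap k F c ≠ 0 := sub_ne_zero.mpr hp
    have h1 : D.ge 0 (x - algebraMap k F c) := D.ge_sub h (D.ge_const c)
    refine ⟨mul_inv_cancel₀ h0, h1, inv_ne_zero h0, ?_, trivial⟩
    have h2 := D.le_of_ge h0 h1
    have h3 := D.le_of_ge (inv_ne_zero h0) hw
    rw [D.inv h0] at h3 ⊢
    omega
  | inf e hh, h, _, _ => exact absurd h id

theorem BPt.chart_inf {c : k} {p : BPt F} (h : ¬ p.IsFin D) :
    ∃ m : F, (1 - algebraMap k F c * p.xh) * m = 1 ∧ D.ge 0 m ∧
      p.w (algebraMap k F c) = p.xh * m ∧ p.eta (algebraMap k F c) = p.yh * m ^ 3 := by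
  have hx1 : D.ge 1 (algebraMap k F c * p.xh) := by
    simpa using D.ge_mul (D.ge_const c) (p.xh_of_not_fin D h)
  have h2 := D.add_eq_left (x := (1 : F)) (y := -(algebraMap k F c * p.xh)) one_ne_zero
    (by rw [D.one]; exact D.ge_neg hx1)
  rw [← sub_eq_add_neg, D.one] at h2
  refine ⟨(1 - algebraMap k F c * p.xh)⁻¹, mul_inv_cancel₀ h2.1, ?_, ?_⟩
  · right
    rw [D.inv h2.1, h2.2, neg_zero]
  · match p, h, h2 with
    | aff x y hh, h, h2 =>
      obtain ⟨hx, -⟩ := aff_ne_zero_of_not_fin D h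
      simp only [BPt.xh, BPt.yh, BPt.w, BPt.eta] at h2 ⊢
      have h3 : x - algebraMap k F c ≠ 0 := by
        intro h0
        apply h2.1
        have : algebraMap k F c = x := (sub_eq_zero.mp h0).symm
        rw [this, mul_inv_cancel₀ hx, sub_self]
      have e : (x - algebraMap k F c)⁻¹ = x⁻¹ * (1 - algebraMap k F c * x⁻¹)⁻¹ := by
        rw [← mul_inv]
        congr 1
        rw [mul_sub, mul_one, mul_comm (algebraMap k F c), ← mul_assoc, mul_inv_cancel₀ hx, one_mul]
      refine ⟨e, ?_⟩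
      rw [e, mul_pow, div_eq_mul_inv, inv_pow, mul_assoc]
    | inf e hh, _, _ =>
      simp only [BPt.xh, BPt.yh, BPt.w, BPt.eta]
      simp

theorem DV.chart_mix {c : k} {p q : BPt F} (hp : p.NotC (algebraMap k F c))
    (hq : q.NotC (algebraMap k F c)) (hwp : D.ge 0 (p.w (algebraMap k F c)))
    (hwq : D.ge 0 (q.w (algebraMap k F c))) (h1 : p.IsFin D) (h2 : ¬ q.IsFin D) :
    D.dmin (p.w (algebraMap k F c) - q.w (algebraMap k F c))
      (p.eta (algebraMap k F c) - q.eta (algebraMap k F c)) = 0 := by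
  obtain ⟨-, -, hw0, hv, -⟩ := BPt.chart_fin D h1 hp hwp
  obtain ⟨m, -, hm, hwm, -⟩ := BPt.chart_inf (c := c) D h2
  have h3 : D.ge 1 (q.w (algebraMap k F c)) := by
    rw [hwm]
    simpa using D.ge_mul (q.xh_of_not_fin D h2) hm
  have h4 := D.add_eq_left (x := p.w (algebraMap k F c)) (y := -q.w (algebraMap k F c)) hw0
    (by rw [hv, zero_add]; exact D.ge_neg h3)
  rw [← sub_eq_add_neg, hv] at h4
  exact D.dmin_eq_zero h4.1 h4.2 (D.ge_sub (BPt.chart_ge_eta D hp hwp) (BPt.chart_ge_eta D hq hwq))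

theorem BPt.chart_ne {c : F} {p q : BPt F} (hpq : p ≠ q) (hp : p.NotC c) (hq : q.NotC c) :
    p.w c - q.w c ≠ 0 ∨ p.eta c - q.eta c ≠ 0 := by
  by_contra hc
  rw [not_or, not_not, not_not, sub_eq_zero, sub_eq_zero] at hc
  match p, q, hpq, hp, hq, hc with
  | aff x y hh, aff x' y' hh', hpq, hp, hq, hc =>
    simp only [BPt.w, BPt.eta] at hc
    obtain ⟨h1, h2⟩ := hc
    have e1 : x = x' := sub_left_injective (inv_injective h1)
    subst e1
    have h0 : x - c ≠ 0 := sub_ne_zero.mpr hp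
    have e2 : y = y' := mul_right_cancel₀ (pow_ne_zero 3 (inv_ne_zero h0)) h2
    subst e2
    exact hpq rfl
  | aff x y hh, inf e' hh', hpq, hp, _, hc =>
    simp only [BPt.w, BPt.eta] at hc
    exact inv_ne_zero (sub_ne_zero.mpr hp) hc.1
  | inf e hh, aff x' y' hh', _, _, hq, hc =>
    simp only [BPt.w, BPt.eta] at hc
    exact inv_ne_zero (sub_ne_zero.mpr hq) hc.1.symm
  | inf e hh, inf e' hh', hpq, _, _, hc =>
    simp only [BPt.w, BPt.eta] at hc
    obtain ⟨-, rfl⟩ := hc
    exact hpq rfl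

theorem DV.iB_chart (c : k) {p q : BPt F} (hpq : p ≠ q)
    (hp : p.NotC (algebraMap k F c)) (hq : q.NotC (algebraMap k F c))
    (hwp : D.ge 0 (p.w (algebraMap k F c))) (hwq : D.ge 0 (q.w (algebraMap k F c))) :
    (p.w (algebraMap k F c) - q.w (algebraMap k F c) ≠ 0 ∨
      p.eta (algebraMap k F c) - q.eta (algebraMap k F c) ≠ 0) ∧
    D.iB p q = D.dmin (p.w (algebraMap k F c) - q.w (algebraMap k F c))
      (p.eta (algebraMap k F c) - q.eta (algebraMap k F c)) := by
  have hne := BPt.chart_ne hpq hp hq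
  refine ⟨hne, ?_⟩
  by_cases h1 : p.IsFin D
  · by_cases h2 : q.IsFin D
    · obtain ⟨a1, a2, a3, a4, a5⟩ := BPt.chart_fin D h1 hp hwp
      obtain ⟨b1, b2, b3, b4, b5⟩ := BPt.chart_fin D h2 hq hwq
      rw [D.iB_fin h1 h2]
      refine D.dmin_congr (BPt.coord_ne_fin D hpq h1 h2) hne (fun n hn => ?_) (fun n hn => ?_)
      · rw [a5, b5]
        refine D.chart_aux a1 b1 hwp hwq (q.ge_y D h2) n ⟨?_, hn.2⟩
        have e : p.x - algebraMap k F c - (q.x - algebraMap k F c) = p.x - q.x := by ring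
        rw [e]
        exact hn.1
      · have h3 := D.chart_aux (a := p.eta (algebraMap k F c)) (a' := q.eta (algebraMap k F c))
          (by rw [mul_comm]; exact a1) (by rw [mul_comm]; exact b1) a2 b2
          (BPt.chart_ge_eta D hq hwq) n hn
        have e : p.x - algebraMap k F c - (q.x - algebraMap k F c) = p.x - q.x := by ring
        rw [e] at h3
        refine ⟨h3.1, ?_⟩
        have e2 : p.eta (algebraMap k F c) * (p.x - algebraMap k F c) ^ 3 = p.y := by
          rw [a5, mul_assoc, ← mul_pow, mul_comm (p.w _), a1, one_pow, mul_one]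
        have e3 : q.eta (algebraMap k F c) * (q.x - algebraMap k F c) ^ 3 = q.y := by
          rw [b5, mul_assoc, ← mul_pow, mul_comm (q.w _), b1, one_pow, mul_one]
        rw [e2, e3] at h3
        exact h3.2
    · rw [D.iB_mix1 h1 h2, D.chart_mix hp hq hwp hwq h1 h2]
  · by_cases h2 : q.IsFin D
    · rw [D.iB_mix2 h1 h2, ← neg_sub (q.w _), ← neg_sub (q.eta _), D.dmin_neg_left,
        D.dmin_neg_right, D.chart_mix hq hp hwq hwp h2 h1]
    · obtain ⟨m, a1, a2, a3, a4⟩ := BPt.chart_inf (c := c) D h1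
      obtain ⟨m', b1, b2, b3, b4⟩ := BPt.chart_inf (c := c) D h2
      rw [D.iB_inf h1 h2]
      have gc := D.ge_const c
      have gxh : D.ge 0 p.xh := D.ge_mono (by norm_num) (p.xh_of_not_fin D h1)
      have gxh' : D.ge 0 q.xh := D.ge_mono (by norm_num) (q.xh_of_not_fin D h2)
      have gs : D.ge 0 (1 - algebraMap k F c * p.xh) :=
        D.ge_sub D.ge_one (by simpa using D.ge_mul gc gxh)
      have gs' : D.ge 0 (1 - algebraMap k F c * q.xh) :=
        D.ge_sub D.ge_one (by simpa using D.ge_mul gc gxh')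
      refine D.dmin_congr (BPt.coord_ne_inf D hpq h1 h2) hne (fun n hn => ?_) (fun n hn => ?_)
      · have h3 := D.chart_aux (a := p.yh) (a' := q.yh) a1 b1 a2 b2
          (Or.inr (q.yh_of_not_fin D h2).2.ge) n ⟨?_, hn.2⟩
        · rw [a4, b4]
          refine ⟨?_, h3.2⟩
          rw [a3, b3]
          have e : p.xh * m - q.xh * m' = (p.xh - q.xh) * m + (m - m') * q.xh := by ring
          rw [e]
          exact D.ge_add (by simpa using D.ge_mul hn.1 a2) (by simpa using D.ge_mul h3.1 gxh')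
        · have e : 1 - algebraMap k F c * p.xh - (1 - algebraMap k F c * q.xh) =
              (p.xh - q.xh) * (-algebraMap k F c) := by ring
          rw [e]
          simpa using D.ge_mul hn.1 (D.ge_neg gc)
      · have m1 : m = 1 + algebraMap k F c * p.w (algebraMap k F c) := by
          rw [a3]
          linear_combination a1
        have m2 : m' = 1 + algebraMap k F c * q.w (algebraMap k F c) := by
          rw [b3]
          linear_combination b1
        have h3 := D.chart_aux (a := p.eta (algebraMap k F c)) (a' := q.eta (algebraMap k F c))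
          (s := m) (s' := m') (u := 1 - algebraMap k F c * p.xh)
          (u' := 1 - algebraMap k F c * q.xh)
          (by rw [mul_comm]; exact a1) (by rw [mul_comm]; exact b1) gs gs'
          (BPt.chart_ge_eta D hq hwq) n ⟨?_, hn.2⟩
        · constructor
          · have e : p.xh - q.xh = (p.w (algebraMap k F c) - q.w (algebraMap k F c)) *
                (1 - algebraMap k F c * p.xh) + ((1 - algebraMap k F c * p.xh) -
                (1 - algebraMap k F c * q.xh)) * q.w (algebraMap k F c) := by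
              have e1 : p.w (algebraMap k F c) * (1 - algebraMap k F c * p.xh) = p.xh := by
                rw [a3, mul_assoc, mul_comm m, a1, mul_one]
              have e2 : q.w (algebraMap k F c) * (1 - algebraMap k F c * q.xh) = q.xh := by
                rw [b3, mul_assoc, mul_comm m', b1, mul_one]
              linear_combination (-1 : F) * e1 + e2
            rw [e]
            exact D.ge_add (by simpa using D.ge_mul hn.1 gs) (by simpa using D.ge_mul h3.1 hwq)
          · have e1 : p.eta (algebraMap k F c) * (1 - algebraMap k F c * p.xh) ^ 3 = p.yh := by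
              rw [a4, mul_assoc, ← mul_pow, mul_comm m, a1, one_pow, mul_one]
            have e2 : q.eta (algebraMap k F c) * (1 - algebraMap k F c * q.xh) ^ 3 = q.yh := by
              rw [b4, mul_assoc, ← mul_pow, mul_comm m', b1, one_pow, mul_one]
            rw [e1, e2] at h3
            exact h3.2
        · rw [m1, m2]
          have e : 1 + algebraMap k F c * p.w (algebraMap k F c) -
              (1 + algebraMap k F c * q.w (algebraMap k F c)) =
              (p.w (algebraMap k F c) - q.w (algebraMap k F c)) * algebraMap k F c := by ring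
          rw [e]
          simpa using D.ge_mul hn.1 gc

end HB
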