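import Pool.Agent.HB.D.Defs
import Pool.Agent.HB.B.EIn
import Pool.Agent.HB.B.NdSelf
import Pool.Agent.HB.Z.Marks

/-!
# HB-D-NondegA: non-degeneracy of the marks (first part)

Plan.
(`G.indep`, `G.x_ne_zero`, `G.y_ne_zero` are in `HB/Z/Marks.lean`.)
* `indep`: `X.indep` : `s = x 0 + x 1`, `t = x 0 * x 1` algebraically independent; if `x 0, x 1` were
  dependent, the transcendence degree of `k(x 0, x 1) ⊇ k(s,t)` would be `≤ 1`.  (E.g. `K` is algebraic
  over `k(s,t)` (`X.fin`), hence over `k(x 0, x 1)`; `![s,t]` is a transcendence basis with two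
  elements; a subset of `{x 0, x 1}` is a transcendence basis; equal cardinality
  (`IsTranscendenceBasis` lemmas), so it is everything.  See also `Pool/Agent/HB/E2/Alg.lean`.)
* `trans`: `x a` transcendental over `k` (`x 2 = ζ x 0`).  `y a ≠ 0` (`x⁶ = -1` is algebraic).
* `s_ne`: `3 s_a = π y_a ≠ 0` (`mkE_ne_zero`), so `s_a ≠ 0`; `eY (s a) ≠ 0`: otherwise `2 s_a = 0`
  (`two_eq_zero_iff`), `3 s_a = s_a`, `X³ = -1` for `X = eX (s a) = x_a²`: algebraic.  Same for `s'`
  (`X = x_a⁻²`).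
* `x_ne`: `x a ≠ ± x b` for `a ≠ b` (`1 ± ζ ≠ 0`, independence).  `pi_ne`: `x_a² ≠ x_b²`.
* `pt_ne`: the marks are different (`x a ≠ x b`, `inf 1 ≠ inf (-1)`); `pt_ne_map`: a mark is never an affine
  constant point (`x a` transcendental; `inf` is not affine).
-/

set_option autoImplicit false

namespace HB

variable {k K : Type} [Field k] [Field K] [Algebra k K] [CharZero k] [IsAlgClosed k] [CharZero K]
  {X : Surf k K} (G : Geo X)

omit [CharZero k] [IsAlgClosed k] [CharZero K] in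
private theorem Geo.z_ne_zero : G.ζ ≠ 0 := by
  intro h
  have := G.hζ
  rw [h] at this
  norm_num at this

omit [CharZero k] [IsAlgClosed k] [CharZero K] in
theorem Geo.trans (a : Fin 3) : Transcendental k (G.x a) := by
  have h0 : Transcendental k (G.x 0) := G.indep.transcendental 0
  have h1 : Transcendental k (G.x 1) := G.indep.transcendental 1
  have h2 : Transcendental k (G.x 2) := by
    intro h
    apply h0
    have e : G.x 0 = algebraMap k K G.ζ⁻¹ * G.x 2 := by
      rw [G.x2, ← mul_assoc, ← map_mul, inv_mul_cancel₀ G.z_ne_zero, map_one, one_mul]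
    rw [e]
    exact (isAlgebraic_algebraMap _).mul h
  fin_cases a
  · exact h0
  · exact h1
  · exact h2

omit [CharZero k] [IsAlgClosed k] [CharZero K] in
private theorem Geo.x6_ne (a : Fin 3) : G.x a ^ 6 + 1 ≠ 0 := by
  intro h
  apply G.trans a
  refine ⟨Polynomial.X ^ 6 + 1, ?_, ?_⟩
  · intro h1
    have h2 := congrArg (Polynomial.eval 0) h1
    simp at h2
  · simpa using h

omit [CharZero k] [IsAlgClosed k] in
/-- `3 s_a = π y_a` in the form used in part B. -/
theorem Geo.s_eq' (a : Fin 3) : (3 : ℤ) • G.s a = BPt.pi (.aff (G.x a) (G.y a) (G.curve a)) := by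
  obtain ⟨h, e⟩ := G.s_eq a
  rw [e]; rfl

omit [CharZero k] [IsAlgClosed k] [CharZero K] in
private theorem Geo.curve' (a : Fin 3) : (G.y a / G.x a ^ 3) ^ 2 = (G.x a)⁻¹ ^ 6 + 1 := by
  have h := G.x_ne_zero a
  have h1 := G.curve a
  field_simp
  rw [h1]; ring

omit [CharZero k] [IsAlgClosed k] in
private theorem Geo.pi'_eq (a : Fin 3) : BPt.pi' (.aff (G.x a) (G.y a) (G.curve a)) =
    mkE ((G.x a)⁻¹ ^ 2) (G.y a / G.x a ^ 3) (by rw [G.curve' a]; ring) := by
  have h1 : BPt.swap (BPt.aff (G.x a) (G.y a) (G.curve a)) =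
      BPt.aff (G.x a)⁻¹ (G.y a / G.x a ^ 3) (G.curve' a) := dif_neg (G.x_ne_zero a)
  unfold BPt.pi'
  rw [h1]
  rfl

omit [CharZero k] [IsAlgClosed k] in
theorem Geo.s'_eq' (a : Fin 3) : (3 : ℤ) • G.s' a = BPt.pi' (.aff (G.x a) (G.y a) (G.curve a)) := by
  obtain ⟨h, e⟩ := G.s'_eq a
  rw [e, G.pi'_eq]
  unfold mkE
  congr 1
  rw [inv_pow]

omit [CharZero k] [IsAlgClosed k] in
theorem Geo.s_ne (a : Fin 3) : G.s a ≠ 0 ∧ G.s' a ≠ 0 ∧ eY (G.s a) ≠ 0 ∧ eY (G.s' a) ≠ 0 ∧
    (3 : ℤ) • G.s a ≠ 0 ∧ (3 : ℤ) • G.s' a ≠ 0 := by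
  have h3 : (3 : ℤ) • G.s a ≠ 0 := by
    rw [G.s_eq']
    exact mkE_ne_zero (G.x a ^ 2) (G.y a) (by rw [G.curve]; ring)
  have h3' : (3 : ℤ) • G.s' a ≠ 0 := by
    rw [G.s'_eq', G.pi'_eq]
    exact mkE_ne_zero _ _ _
  have h1 : G.s a ≠ 0 := by
    intro h
    apply h3
    rw [h, smul_zero]
  have h1' : G.s' a ≠ 0 := by
    intro h
    apply h3'
    rw [h, smul_zero]
  refine ⟨h1, h1', ?_, ?_, h3, h3'⟩
  · intro hY
    have h2 := (two_eq_zero_iff h1).2 hY
    have h4 : (3 : ℤ) • G.s a = G.s a := by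
      have : (3 : ℤ) = 2 + 1 := by norm_num
      rw [this, add_smul, h2, zero_add, one_smul]
    have h5 : eX (G.s a) = G.x a ^ 2 := by
      rw [← h4, G.s_eq']
      rfl
    have h6 := eY_sq h1
    rw [hY, h5] at h6
    apply G.x6_ne a
    linear_combination -h6
  · intro hY
    have h2 := (two_eq_zero_iff h1').2 hY
    have h4 : (3 : ℤ) • G.s' a = G.s' a := by
      have : (3 : ℤ) = 2 + 1 := by norm_num
      rw [this, add_smul, h2, zero_add, one_smul]
    have h5 : eX (G.s' a) = (G.x a)⁻¹ ^ 2 := by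
      rw [← h4, G.s'_eq', G.pi'_eq]
      rfl
    have h6 := eY_sq h1'
    rw [hY, h5] at h6
    apply G.x6_ne a
    have hx := G.x_ne_zero a
    field_simp at h6
    linear_combination -h6

omit [CharZero k] [IsAlgClosed k] [CharZero K] in
private theorem Geo.x1_ne (c : k) : G.x 1 ≠ algebraMap k K c * G.x 0 := by
  intro h
  have h1 := G.indep
  rw [algebraicIndependent_iff] at h1
  have h2 := h1 (MvPolynomial.X 1 - MvPolynomial.C c * MvPolynomial.X 0) (by
    simp only [map_sub, map_mul, MvPolynomial.aeval_X, MvPolynomial.aeval_C]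
    change G.x 1 - algebraMap k K c * G.x 0 = 0
    rw [h, sub_self])
  have h3 := congrArg (MvPolynomial.eval (![0, 1] : Fin 2 → k)) h2
  simp at h3

omit [IsAlgClosed k] [CharZero K] in
private theorem Geo.x02_ne : G.x 0 ≠ G.x 2 ∧ G.x 0 ≠ - G.x 2 := by
  have h0 := G.x_ne_zero 0
  constructor
  · intro h
    rw [G.x2] at h
    have h1 : algebraMap k K G.ζ = 1 := by
      have h2 : (algebraMap k K G.ζ - 1) * G.x 0 = 0 := by linear_combination -h
      have h3 := (mul_eq_zero.1 h2).resolve_right h0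
      linear_combination h3
    have h2 : G.ζ = 1 := by
      apply (algebraMap k K).injective
      rw [h1, map_one]
    have h3 := G.hζ
    rw [h2] at h3
    norm_num at h3
  · intro h
    rw [G.x2] at h
    have h1 : algebraMap k K G.ζ = -1 := by
      have h2 : (algebraMap k K G.ζ + 1) * G.x 0 = 0 := by linear_combination h
      have h3 := (mul_eq_zero.1 h2).resolve_right h0
      linear_combination h3
    have h2 : G.ζ = -1 := by
      apply (algebraMap k K).injective
      rw [h1, map_neg, map_one]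
    have h3 := G.hζ
    rw [h2] at h3
    norm_num at h3

omit [CharZero k] [IsAlgClosed k] [CharZero K] in
private theorem Geo.x01_ne : G.x 0 ≠ G.x 1 ∧ G.x 0 ≠ - G.x 1 := by
  constructor
  · intro h
    apply G.x1_ne 1
    rw [map_one, one_mul, h]
  · intro h
    apply G.x1_ne (-1)
    rw [map_neg, map_one, h]
    ring

omit [CharZero k] [IsAlgClosed k] [CharZero K] in
private theorem Geo.x12_ne : G.x 1 ≠ G.x 2 ∧ G.x 1 ≠ - G.x 2 := by
  constructor
  · intro h
    apply G.x1_ne G.ζ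
    rw [h, G.x2]
  · intro h
    apply G.x1_ne (-G.ζ)
    rw [h, G.x2, map_neg]
    ring

omit [IsAlgClosed k] [CharZero K] in
theorem Geo.x_ne_pm {a b : Fin 3} (h : a ≠ b) : G.x a ≠ G.x b ∧ G.x a ≠ - G.x b := by
  have sw : ∀ {u v : K}, (u ≠ v ∧ u ≠ -v) → (v ≠ u ∧ v ≠ -u) := by
    rintro u v ⟨h1, h2⟩
    refine ⟨h1.symm, fun h3 => h2 ?_⟩
    rw [h3, neg_neg]
  have key : ∀ a b : Fin 3, a ≠ b → G.x a ≠ G.x b ∧ G.x a ≠ - G.x b := by
    intro a b h
    fin_cases a <;> fin_cases b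
    · exact absurd rfl h
    · exact G.x01_ne
    · exact G.x02_ne
    · exact sw G.x01_ne
    · exact absurd rfl h
    · exact G.x12_ne
    · exact sw G.x02_ne
    · exact sw G.x12_ne
    · exact absurd rfl h
  exact key a b h

omit [IsAlgClosed k] in
theorem Geo.pi_ne {a b : Fin 3} (h : a ≠ b) :
    BPt.pi (.aff (G.x a) (G.y a) (G.curve a)) ≠ BPt.pi (.aff (G.x b) (G.y b) (G.curve b)) ∧
    BPt.pi' (.aff (G.x a) (G.y a) (G.curve a)) ≠ BPt.pi' (.aff (G.x b) (G.y b) (G.curve b)) := by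
  have key : G.x a ^ 2 ≠ G.x b ^ 2 := by
    intro h1
    rcases sq_eq_sq_iff_eq_or_eq_neg.mp h1 with h2 | h2
    · exact (G.x_ne_pm h).1 h2
    · exact (G.x_ne_pm h).2 h2
  constructor
  · intro h1
    exact key (congrArg eX h1)
  · intro h1
    rw [G.pi'_eq, G.pi'_eq] at h1
    have h2 : (G.x a)⁻¹ ^ 2 = (G.x b)⁻¹ ^ 2 := congrArg eX h1
    apply key
    rw [inv_pow, inv_pow] at h2
    exact inv_injective h2

omit [IsAlgClosed k] in
theorem Geo.pt_ne {i j : Fin 5} (h : i ≠ j) : G.pt i ≠ G.pt j := by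
  have aff_ne : ∀ {a b : Fin 3}, a ≠ b → (BPt.aff (G.x a) (G.y a) (G.curve a)) ≠
      (BPt.aff (G.x b) (G.y b) (G.curve b)) := by
    intro a b hab h1
    exact (G.x_ne_pm hab).1 (congrArg BPt.x h1)
  have inf_ne : (BPt.inf 1 (one_pow 2) : BPt K) ≠ .inf (-1) neg_one_sq := by
    intro h1
    have h2 := congrArg BPt.yh h1
    change (1 : K) = -1 at h2
    have h3 : (2 : K) = 0 := by linear_combination h2
    norm_num at h3
  have key : ∀ i j : Fin 5, i ≠ j → G.pt i ≠ G.pt j := by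
    intro i j h
    fin_cases i <;> fin_cases j
    all_goals first
      | exact absurd rfl h
      | exact aff_ne (a := 0) (b := 1) (by decide)
      | exact aff_ne (a := 0) (b := 2) (by decide)
      | exact aff_ne (a := 1) (b := 0) (by decide)
      | exact aff_ne (a := 1) (b := 2) (by decide)
      | exact aff_ne (a := 2) (b := 0) (by decide)
      | exact aff_ne (a := 2) (b := 1) (by decide)
      | exact inf_ne
      | exact inf_ne.symm
      | (intro h1; cases h1)
  exact key i j h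

omit [CharZero k] [IsAlgClosed k] [CharZero K] in
theorem Geo.pt_ne_map (i : Fin 5) {x y : k} (h : y ^ 2 = x ^ 6 + 1) :
    G.pt i ≠ (BPt.aff x y h).map K := by
  have aff_ne : ∀ a : Fin 3, (BPt.aff (G.x a) (G.y a) (G.curve a)) ≠ (BPt.aff x y h).map K := by
    intro a h1
    have h2 : G.x a = algebraMap k K x := congrArg BPt.x h1
    apply G.trans a
    rw [h2]
    exact isAlgebraic_algebraMap _
  fin_cases i
  · exact aff_ne 0
  · exact aff_ne 1
  · exact aff_ne 2
  · intro h1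
    change BPt.inf _ _ = BPt.aff _ _ _ at h1
    cases h1
  · intro h1
    change BPt.inf _ _ = BPt.aff _ _ _ at h1
    cases h1

end HB
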