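import Pool.Agent.HB.DV

/-!
# HB-D-Unit: a linear combination `w + λ η` separates points and tangent vectors (Mathlib only)

`O ⊆ F` a local ring with a homomorphism `ev : O → k` whose kernel consists of the nonunits
(`hev`).  Two points `(w, η)`, `(w', η')` in `O²` on the curve `η² = g(w)`,
`g(w) = (1 + c w)⁶ + w⁶`.  `λ ∈ k` is good for the two points if
* `ev w - ev w' + λ (ev η - ev η') ≠ 0` if `(ev w, ev η) ≠ (ev w', ev η')`;
* `2 ev η + λ g'(ev w) ≠ 0`, `g'(w) = 6 c (1 + c w)⁵ + 6 w⁵`.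
Then for every valuation `D` nonnegative on `O`:
`D.v ((w - w') + λ (η - η')) = D.dmin (w - w') (η - η')`, and `(w - w') + λ (η - η') ≠ 0`.

Plan.  Put `W = w - w'`, `H = η - η'`, `S = η + η'`, and `Γ ∈ O` with `g(w) - g(w') = W Γ`
(`Γ` explicit polynomial in `w, w', c`: `ring`), so `H S = W Γ`.
* residues different: `W + λ H` has nonzero `ev`, so it is a unit of `O`, `v = 0`; and one of
  `W`, `H` has nonzero `ev`, hence is a unit, so `dmin W H = 0` (the other one is integral).
* residues equal: `ev Γ = g'(ev w)`, `ev S = 2 ev η`; `U := S + λ Γ` is a unit of `O`.  (If `ev η = 0` then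
  `ev Γ ≠ 0` by the hypothesis.)
  - `ev S ≠ 0`: `S` unit, `H = W Γ / S`, `W + λ H = W U / S`, `v = v W`, `W ≠ 0` (else `H = 0`),
    `D.ge (v W) H`, `dmin W H = v W`.
  - `ev S = 0`: `ev Γ ≠ 0` since `ev U ≠ 0`.  `W = H S / Γ`, `W + λ H = H U / Γ`, `H ≠ 0`,
    `dmin W H = v H`.
Units of `O` have `v = 0`: `D` is nonnegative on `x` and on `x⁻¹`.
-/

set_option autoImplicit false

namespace HB

variable {k F : Type*} [Field k] [Field F] [Algebra k F] [CharZero k]

omit [CharZero k] in
private theorem uc_unit {O : Subring F} {ev : O →+* k}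
    (hev : ∀ x : O, ev x ≠ 0 → (x : F) ≠ 0 ∧ (x : F)⁻¹ ∈ O) (D : DV k F)
    (hD : ∀ x ∈ O, D.ge 0 x) {x : O} (hx : ev x ≠ 0) : D.v (x : F) = 0 := by
  obtain ⟨h1, h2⟩ := hev x hx
  have h3 := D.le_of_ge h1 (hD _ x.2)
  have h4 := D.le_of_ge (inv_ne_zero h1) (hD _ h2)
  rw [D.inv h1] at h4
  omega

omit [CharZero k] in
private theorem uc_aux (D : DV k F) {X Y S G T U : F} (hS : S ≠ 0) (hvS : D.v S = 0)
    (hU : U ≠ 0) (hvU : D.v U = 0) (hG : D.ge 0 G) (hX : X ≠ 0) (h1 : Y * S = X * G)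
    (h2 : T * S = X * U) : D.v T = D.dmin X Y := by
  have hT : T ≠ 0 := by
    rintro rfl
    rw [zero_mul] at h2
    exact mul_ne_zero hX hU h2.symm
  have hvT : D.v T = D.v X := by
    have h3 := D.mul hT hS
    rw [h2, D.mul hX hU, hvU, hvS] at h3
    omega
  rw [hvT]
  unfold DV.dmin
  rw [if_neg hX]
  split_ifs with hY
  · rfl
  · have hG0 : G ≠ 0 := by
      rintro rfl
      rw [mul_zero] at h1
      exact mul_ne_zero hY hS h1
    have h3 := D.mul hY hS
    rw [h1, D.mul hX hG0, hvS] at h3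
    have h4 := D.le_of_ge hG0 hG
    rw [min_eq_left (by omega)]

theorem unit_combination (O : Subring F) (ev : O →+* k)
    (hk : ∀ c : k, algebraMap k F c ∈ O) (hkev : ∀ c : k, ev ⟨algebraMap k F c, hk c⟩ = c)
    (hev : ∀ x : O, ev x ≠ 0 → (x : F) ≠ 0 ∧ (x : F)⁻¹ ∈ O)
    (c lam : k) (w η w' η' : O)
    (h : (η : F) ^ 2 = (1 + algebraMap k F c * w) ^ 6 + (w : F) ^ 6)
    (h' : (η' : F) ^ 2 = (1 + algebraMap k F c * w') ^ 6 + (w' : F) ^ 6)
    (hne : (w : F) - w' ≠ 0 ∨ (η : F) - η' ≠ 0)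
    (h1 : ¬ (ev w = ev w' ∧ ev η = ev η') → ev w - ev w' + lam * (ev η - ev η') ≠ 0)
    (h2 : 2 * ev η + lam * (6 * c * (1 + c * ev w) ^ 5 + 6 * ev w ^ 5) ≠ 0) :
    ((w : F) - w') + algebraMap k F lam * ((η : F) - η') ≠ 0 ∧
    ∀ D : DV k F, (∀ x ∈ O, D.ge 0 x) →
      D.v (((w : F) - w') + algebraMap k F lam * ((η : F) - η')) =
        D.dmin ((w : F) - w') ((η : F) - η') := by
  obtain ⟨C, hC, hCev⟩ : ∃ C : O, (C : F) = algebraMap k F c ∧ ev C = c :=
    ⟨⟨_, hk c⟩, rfl, hkev c⟩
  obtain ⟨Lm, hL, hLev⟩ : ∃ C : O, (C : F) = algebraMap k F lam ∧ ev C = lam :=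
    ⟨⟨_, hk lam⟩, rfl, hkev lam⟩
  rw [← hC] at h h'
  rw [← hL]
  by_cases hres : ev w = ev w' ∧ ev η = ev η'
  · obtain ⟨hw, hη⟩ := hres
    -- residues equal
    obtain ⟨S, hSdef⟩ : ∃ S : O, S = η + η' := ⟨_, rfl⟩
    obtain ⟨A, hA⟩ : ∃ A : O, A = 1 + C * w := ⟨_, rfl⟩
    obtain ⟨A', hA'⟩ : ∃ A' : O, A' = 1 + C * w' := ⟨_, rfl⟩
    obtain ⟨G, hG⟩ : ∃ G : O, G = C * (A ^ 5 + A ^ 4 * A' + A ^ 3 * A' ^ 2 + A ^ 2 * A' ^ 3 +
        A * A' ^ 4 + A' ^ 5) + (w ^ 5 + w ^ 4 * w' + w ^ 3 * w' ^ 2 + w ^ 2 * w' ^ 3 +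
        w * w' ^ 4 + w' ^ 5) := ⟨_, rfl⟩
    obtain ⟨U, hU⟩ : ∃ U : O, U = S + Lm * G := ⟨_, rfl⟩
    have hO : η ^ 2 = (1 + C * w) ^ 6 + w ^ 6 := by
      apply Subtype.ext
      push_cast
      exact h
    have hO' : η' ^ 2 = (1 + C * w') ^ 6 + w' ^ 6 := by
      apply Subtype.ext
      push_cast
      exact h'
    have hrel : (η - η') * S = (w - w') * G := by
      rw [hSdef, hG, hA, hA']
      linear_combination hO - hO'
    have hevS : ev S = 2 * ev η := by
      rw [hSdef, map_add, ← hη]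
      ring
    have hevA : ev A = 1 + c * ev w := by
      rw [hA, map_add, map_one, map_mul, hCev]
    have hevA' : ev A' = 1 + c * ev w := by
      rw [hA', map_add, map_one, map_mul, hCev, hw]
    have hevG : ev G = 6 * c * (1 + c * ev w) ^ 5 + 6 * ev w ^ 5 := by
      rw [hG]
      simp only [map_add, map_mul, map_pow, hevA, hevA', hCev, ← hw]
      ring
    have hevU : ev U ≠ 0 := by
      rw [hU, map_add, map_mul, hLev, hevS, hevG]
      exact h2
    have hT1 : ((w - w') + Lm * (η - η')) * S = (w - w') * U := by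
      rw [hU]
      linear_combination Lm * hrel
    have hT2 : ((w - w') + Lm * (η - η')) * G = (η - η') * U := by
      rw [hU]
      linear_combination -hrel
    have hrelF : ((η : F) - η') * (S : F) = ((w : F) - w') * (G : F) := by
      have := congrArg (Subtype.val) hrel
      push_cast at this
      exact this
    have hT1F : (((w : F) - w') + (Lm : F) * ((η : F) - η')) * (S : F) =
        ((w : F) - w') * (U : F) := by
      have := congrArg (Subtype.val) hT1
      push_cast at this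
      exact this
    have hT2F : (((w : F) - w') + (Lm : F) * ((η : F) - η')) * (G : F) =
        ((η : F) - η') * (U : F) := by
      have := congrArg (Subtype.val) hT2
      push_cast at this
      exact this
    have hU0 := (hev U hevU).1
    by_cases hS0 : ev S = 0
    · have hG0 : ev G ≠ 0 := by
        intro h3
        apply hevU
        rw [hU, map_add, map_mul, hS0, h3, mul_zero, add_zero]
      have hGF := (hev G hG0).1
      have hH : (η : F) - η' ≠ 0 := by
        intro h3
        rw [h3, zero_mul] at hrelF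
        rcases hne with h4 | h4
        · exact mul_ne_zero h4 hGF hrelF.symm
        · exact h4 h3
      refine ⟨?_, fun D hD => ?_⟩
      · intro h3
        rw [h3, zero_mul] at hT2F
        exact mul_ne_zero hH hU0 hT2F.symm
      · rw [D.dmin_comm]
        exact uc_aux D hGF (uc_unit hev D hD hG0) hU0 (uc_unit hev D hD hevU) (hD _ S.2) hH
          hrelF.symm hT2F
    · have hSF := (hev S hS0).1
      have hW : (w : F) - w' ≠ 0 := by
        intro h3
        rw [h3, zero_mul] at hrelF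
        rcases hne with h4 | h4
        · exact h4 h3
        · exact mul_ne_zero h4 hSF hrelF
      refine ⟨?_, fun D hD => ?_⟩
      · intro h3
        rw [h3, zero_mul] at hT1F
        exact mul_ne_zero hW hU0 hT1F.symm
      · exact uc_aux D hSF (uc_unit hev D hD hS0) hU0 (uc_unit hev D hD hevU) (hD _ G.2) hW
          hrelF hT1F
  · have h3 := h1 hres
    obtain ⟨T, hT⟩ : ∃ T : O, T = (w - w') + Lm * (η - η') := ⟨_, rfl⟩
    have hevT : ev T ≠ 0 := by
      rw [hT, map_add, map_mul, map_sub, map_sub, hLev]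
      exact h3
    have hTF : (T : F) = ((w : F) - w') + (Lm : F) * ((η : F) - η') := by
      rw [hT]
      push_cast
      rfl
    rw [← hTF]
    refine ⟨(hev T hevT).1, fun D hD => ?_⟩
    rw [uc_unit hev D hD hevT]
    have hge : 0 ≤ D.dmin ((w : F) - w') ((η : F) - η') := by
      rw [D.le_dmin hne]
      exact ⟨hD _ (O.sub_mem w.2 w'.2), hD _ (O.sub_mem η.2 η'.2)⟩
    have hle : ¬ 1 ≤ D.dmin ((w : F) - w') ((η : F) - η') := by
      rw [D.le_dmin hne]
      rintro ⟨h4, h5⟩
      have key : ∀ x : O, D.ge 1 (x : F) → ev x = 0 := by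
        intro x hx
        by_contra hx0
        have h6 := D.le_of_ge (hev x hx0).1 hx
        rw [uc_unit hev D hD hx0] at h6
        omega
      apply hres
      constructor
      · have h6 := key (w - w') (by push_cast; exact h4)
        rw [map_sub] at h6
        exact sub_eq_zero.1 h6
      · have h6 := key (η - η') (by push_cast; exact h5)
        rw [map_sub] at h6
        exact sub_eq_zero.1 h6
    omega

private theorem uc_fin {k : Type*} [Field k] {p q : k} (h : ¬ (p = 0 ∧ q = 0)) :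
    {l : k | p + l * q = 0}.Finite := by
  by_cases hq : q = 0
  · have hp : p ≠ 0 := fun hp => h ⟨hp, hq⟩
    have : {l : k | p + l * q = 0} = ∅ := by
      ext l
      simp [hq, hp]
    rw [this]
    exact Set.finite_empty
  · refine (Set.finite_singleton (-p / q)).subset ?_
    intro l hl
    have hl' : p + l * q = 0 := hl
    rw [Set.mem_singleton_iff, eq_div_iff hq]
    linear_combination hl'

/-- Existence of a good `λ` for finitely many points `(a i, b i)` on `η² = g(w)`. -/
theorem exists_good_lam [IsAlgClosed k] {ι : Type*} [Finite ι] (c : k) (a b : ι → k)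
    (h : ∀ i, b i ^ 2 = (1 + c * a i) ^ 6 + a i ^ 6) :
    ∃ lam : k, (∀ i j, ¬ (a i = a j ∧ b i = b j) → a i - a j + lam * (b i - b j) ≠ 0) ∧
      ∀ i, 2 * b i + lam * (6 * c * (1 + c * a i) ^ 5 + 6 * a i ^ 5) ≠ 0 := by
  -- each condition excludes at most one `lam` (`k` is infinite).  For the second one: if
  -- `b i = 0` and `g'(a i) = 0` then `(1 + c a)⁶ + a⁶ = 0` and `c (1 + c a)⁵ + a⁵ = 0` give
  -- `(1 + c a)⁵ = 0` (multiply: `(1 + c a)⁶ + a⁶ = (1+ca)⁵ (1 + c a) + a · a⁵ = (1+ca)⁵ (1 + ca - ca)`),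
  -- so `1 + c a = 0` and `a = 0`: contradiction.
  have hk : Infinite k := CharZero.infinite k
  have h1 : (⋃ i, ⋃ j, {l : k | ¬ (a i = a j ∧ b i = b j) ∧
      a i - a j + l * (b i - b j) = 0}).Finite := by
    refine Set.finite_iUnion fun i => Set.finite_iUnion fun j => ?_
    by_cases hij : a i = a j ∧ b i = b j
    · refine Set.finite_empty.subset ?_
      rintro l ⟨hl, _⟩
      exact hl hij
    · refine (uc_fin (p := a i - a j) (q := b i - b j) ?_).subset ?_
      · rintro ⟨hp, hq⟩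
        exact hij ⟨sub_eq_zero.1 hp, sub_eq_zero.1 hq⟩
      · rintro l ⟨_, hl⟩
        exact hl
  have h2 : (⋃ i, {l : k | 2 * b i + l * (6 * c * (1 + c * a i) ^ 5 + 6 * a i ^ 5) = 0}).Finite := by
    refine Set.finite_iUnion fun i => ?_
    refine uc_fin ?_
    rintro ⟨hp, hq⟩
    have hb : b i = 0 := (mul_eq_zero.1 hp).resolve_left two_ne_zero
    have hq' : c * (1 + c * a i) ^ 5 + a i ^ 5 = 0 := by
      have h6 : (6 : k) * (c * (1 + c * a i) ^ 5 + a i ^ 5) = 0 := by linear_combination hq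
      have h60 : (6 : k) ≠ 0 := by norm_num
      exact (mul_eq_zero.1 h6).resolve_left h60
    have hi := h i
    rw [hb] at hi
    have h5 : (1 + c * a i) ^ 5 = 0 := by linear_combination -hi - a i * hq'
    have h6 : 1 + c * a i = 0 := eq_zero_of_pow_eq_zero h5
    rw [h6] at hq'
    have h7 : a i = 0 := by
      have h8 : a i ^ 5 = 0 := by linear_combination hq'
      exact eq_zero_of_pow_eq_zero h8
    rw [h7] at h6
    simp at h6
  obtain ⟨lam, hlam⟩ := (h1.union h2).infinite_compl.nonempty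
  refine ⟨lam, fun i j hij h3 => ?_, fun i h3 => ?_⟩
  · apply hlam
    left
    simp only [Set.mem_iUnion]
    exact ⟨i, j, hij, h3⟩
  · apply hlam
    right
    simp only [Set.mem_iUnion]
    exact ⟨i, h3⟩

end HB
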