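import Pool.Agent.HB.D.Mor
import Pool.Agent.HB.D.NondegA
import Pool.Agent.HB.D.Chart
import Pool.Agent.HB.D.Unit
import Pool.Agent.HB.A.FacA

/-!
# HB-D-Coord: local coordinates `u_i = w_i + λ η_i` of the marks at a closed point

Plan.  `P.ev : O_P → k` (`A/LocB.lean`), kernel = nonunits (`Pt.isUnit_iff`).
1. Choose `c : k` with: for `a : Fin 3`, if `x a ∈ O_P` then `ev (x a) ≠ c` (`k` infinite, finitely many
   conditions: `Set.Finite.exists_notMem` or `Infinite`).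
2. `w_i := (pt i).w c'`, `η_i := (pt i).eta c'`, `c' = algebraMap k K c`.  `w_i ∈ O_P`: if `x a ∈ O_P`,
   `x a - c` has nonzero `ev`: unit.  If `x a ∉ O_P`: `(x a)⁻¹ ∈ O_P` (`x_mor`) is a nonunit,
   `(x a - c)⁻¹ = (x a)⁻¹ (1 - c (x a)⁻¹)⁻¹`.  `i = 3, 4`: `w = 0`, `η = ± 1`.  `η_i ∈ O_P`:
   `η² = (1 + c w)⁶ + w⁶ ∈ O_P` (`eta_sq`) and `goodP.int`.  `NotC`: `x a` is transcendental.
3. `a i := ev w_i`, `b i := ev η_i` satisfy `b² = (1 + c a)⁶ + a⁶` (apply `ev` to `eta_sq`);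
   `exists_good_lam` (index type `Fin 5`) gives `λ`.  `u_i := w_i + λ η_i`.
4. `unit_combination` for the pair `(i,j)` (`iB_chart` gives `hne` and `D.iB = D.dmin ..`; `pt_ne`).
   `D.ge 0 w_i` because `D` is nonnegative on `O_P`.
-/

set_option autoImplicit false

open IsLocalRing

namespace HB

variable {k K : Type} [Field k] [Field K] [Algebra k K] [CharZero k] [IsAlgClosed k] [CharZero K]
  {X : Surf k K} (G : Geo X)

open Surf

private theorem ev_alg (P : X.Pt) (c : k) :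
    P.ev ⟨algebraMap k K c, P.algebraMap_mem c⟩ = c := by
  have h : (⟨algebraMap k K c, P.algebraMap_mem c⟩ : P.1.toSubring) =
      algebraMap k P.1.toSubring c := rfl
  rw [h, AlgHom.commutes]
  rfl

private theorem ev_unit (P : X.Pt) (x : P.1.toSubring) (hx : P.ev x ≠ 0) :
    (x : K) ≠ 0 ∧ (x : K)⁻¹ ∈ P.1.toSubring := by
  have h1 := (P.isUnit_iff x).2 hx
  obtain ⟨b, hb⟩ := isUnit_iff_exists_inv.mp h1
  have hb' : (x : K) * (b : K) = 1 := congrArg Subtype.val hb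
  refine ⟨left_ne_zero_of_mul_eq_one hb', ?_⟩
  rw [← eq_inv_of_mul_eq_one_right hb']
  exact b.2

private theorem w_aff_mem (P : X.Pt) (c : k) (x : K)
    (hx : x ∈ P.1.toSubring ∨ x⁻¹ ∈ P.1.toSubring)
    (hc : ∀ h : x ∈ P.1.toSubring, P.ev ⟨x, h⟩ ≠ c) :
    (x - algebraMap k K c)⁻¹ ∈ P.1.toSubring := by
  by_cases hxO : x ∈ P.1.toSubring
  · have h1 := ev_unit P (⟨x, hxO⟩ - ⟨algebraMap k K c, P.algebraMap_mem c⟩) (by
      rw [map_sub, ev_alg P c]
      exact sub_ne_zero.2 (hc hxO))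
    exact h1.2
  · have hinv := hx.resolve_left hxO
    have hx0 : x ≠ 0 := fun h0 => hxO (h0 ▸ P.1.toSubring.zero_mem)
    have hev : P.ev ⟨x⁻¹, hinv⟩ = 0 := by
      by_contra h0
      have h1 := ev_unit P _ h0
      apply hxO
      have h2 : ((⟨x⁻¹, hinv⟩ : P.1.toSubring) : K)⁻¹ = x := inv_inv x
      rw [← h2]
      exact h1.2
    have h1 := ev_unit P (1 - ⟨algebraMap k K c, P.algebraMap_mem c⟩ * ⟨x⁻¹, hinv⟩) (by
      rw [map_sub, map_mul, hev, mul_zero, sub_zero, map_one]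
      exact one_ne_zero)
    have h2 : ((1 - ⟨algebraMap k K c, P.algebraMap_mem c⟩ * ⟨x⁻¹, hinv⟩ : P.1.toSubring) : K) =
        1 - algebraMap k K c * x⁻¹ := rfl
    rw [h2] at h1
    have h3 : (x - algebraMap k K c)⁻¹ = x⁻¹ * (1 - algebraMap k K c * x⁻¹)⁻¹ := by
      rw [← mul_inv]
      congr 1
      field_simp
    rw [h3]
    exact P.1.toSubring.mul_mem hinv h1.2

theorem Geo.exists_coord (P : X.Pt) : ∃ u : Fin 5 → K, (∀ i, u i ∈ P.1.toSubring) ∧
    ∀ i j, i ≠ j → u i ≠ u j ∧ ∀ D : DV k K, D.NonNeg P.1.toSubring →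
      D.v (u i - u j) = D.iB (G.pt i) (G.pt j) := by
  have hk : Infinite k := CharZero.infinite k
  -- the choice of `c`
  obtain ⟨c, hc⟩ : ∃ c : k, ∀ (a : Fin 3) (h : G.x a ∈ P.1.toSubring),
      P.ev ⟨G.x a, h⟩ ≠ c := by
    have hfin : (⋃ a : Fin 3, {c : k | ∃ h : G.x a ∈ P.1.toSubring,
        P.ev ⟨G.x a, h⟩ = c}).Finite := by
      refine Set.finite_iUnion fun a => Set.Subsingleton.finite ?_
      rintro c ⟨h, hc⟩ d ⟨h', hd⟩
      rw [← hc, ← hd]
    obtain ⟨c, hc⟩ := hfin.infinite_compl.nonempty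
    refine ⟨c, fun a h hh => hc ?_⟩
    rw [Set.mem_iUnion]
    exact ⟨a, h, hh⟩
  have hNotC : ∀ i, (G.pt i).NotC (algebraMap k K c) := by
    have aff : ∀ a : Fin 3, G.x a ≠ algebraMap k K c := by
      intro a h
      apply G.trans a
      rw [h]
      exact isAlgebraic_algebraMap c
    intro i
    fin_cases i
    · exact aff 0
    · exact aff 1
    · exact aff 2
    · exact trivial
    · exact trivial
  have hw : ∀ i, (G.pt i).w (algebraMap k K c) ∈ P.1.toSubring := by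
    intro i
    fin_cases i
    · exact w_aff_mem P c _ (G.x_mor 0 P) (hc 0)
    · exact w_aff_mem P c _ (G.x_mor 1 P) (hc 1)
    · exact w_aff_mem P c _ (G.x_mor 2 P) (hc 2)
    · exact P.1.toSubring.zero_mem
    · exact P.1.toSubring.zero_mem
  have hsq : ∀ i, (G.pt i).eta (algebraMap k K c) ^ 2 =
      (1 + algebraMap k K c * (G.pt i).w (algebraMap k K c)) ^ 6 +
        (G.pt i).w (algebraMap k K c) ^ 6 := fun i => BPt.eta_sq (hNotC i)
  have hη : ∀ i, (G.pt i).eta (algebraMap k K c) ∈ P.1.toSubring := by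
    intro i
    refine (goodP P).int _ ?_
    rw [hsq i]
    exact P.1.toSubring.add_mem (P.1.toSubring.pow_mem (P.1.toSubring.add_mem
      P.1.toSubring.one_mem (P.1.toSubring.mul_mem (P.algebraMap_mem c) (hw i))) 6)
      (P.1.toSubring.pow_mem (hw i) 6)
  -- the residues
  have hres : ∀ i, P.ev ⟨_, hη i⟩ ^ 2 = (1 + c * P.ev ⟨_, hw i⟩) ^ 6 + P.ev ⟨_, hw i⟩ ^ 6 := by
    intro i
    have h1 : (⟨_, hη i⟩ : P.1.toSubring) ^ 2 =
        (1 + ⟨algebraMap k K c, P.algebraMap_mem c⟩ * ⟨_, hw i⟩) ^ 6 + ⟨_, hw i⟩ ^ 6 := by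
      apply Subtype.ext
      exact hsq i
    have h2 := congrArg P.ev h1
    rw [map_pow, map_add, map_pow, map_pow, map_add, map_mul, map_one, ev_alg P c] at h2
    exact h2
  obtain ⟨lam, hl1, hl2⟩ := exists_good_lam c (fun i : Fin 5 => P.ev ⟨_, hw i⟩)
    (fun i : Fin 5 => P.ev ⟨_, hη i⟩) hres
  refine ⟨fun i => (G.pt i).w (algebraMap k K c) +
    algebraMap k K lam * (G.pt i).eta (algebraMap k K c), fun i => ?_, fun i j hij => ?_⟩
  · exact P.1.toSubring.add_mem (hw i) (P.1.toSubring.mul_mem (P.algebraMap_mem lam) (hη i))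
  · have hne := BPt.chart_ne (G.pt_ne hij) (hNotC i) (hNotC j)
    have hu := unit_combination P.1.toSubring (P.ev : P.1.toSubring →+* k)
      (fun c => P.algebraMap_mem c) (fun c => ev_alg P c) (fun x hx => ev_unit P x hx) c lam
      ⟨_, hw i⟩ ⟨_, hη i⟩ ⟨_, hw j⟩ ⟨_, hη j⟩ (hsq i) (hsq j) hne (hl1 i j) (hl2 i)
    have e : (G.pt i).w (algebraMap k K c) +
        algebraMap k K lam * (G.pt i).eta (algebraMap k K c) -
        ((G.pt j).w (algebraMap k K c) +
        algebraMap k K lam * (G.pt j).eta (algebraMap k K c)) =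
        ((G.pt i).w (algebraMap k K c) - (G.pt j).w (algebraMap k K c)) +
        algebraMap k K lam * ((G.pt i).eta (algebraMap k K c) -
          (G.pt j).eta (algebraMap k K c)) := by ring
    constructor
    · intro h0
      apply hu.1
      change (G.pt i).w (algebraMap k K c) - (G.pt j).w (algebraMap k K c) +
        algebraMap k K lam * ((G.pt i).eta (algebraMap k K c) -
          (G.pt j).eta (algebraMap k K c)) = 0
      rw [← e]
      exact sub_eq_zero.2 h0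
    · intro D hD
      rw [e, (D.iB_chart c (G.pt_ne hij) (hNotC i) (hNotC j) (hD _ (hw i)) (hD _ (hw j))).2]
      exact hu.2 D hD

end HB
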