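import Pool.Agent.HB.D.Coord
import Pool.Agent.HB.Z.Marks
import Pool.Agent.HB.B.Bridge
import Pool.Agent.HB.F.Gam

/-!
# HB-D-IsLoc: existence of the local data `u, d, d'` at a closed point

Plan.  `u` from `exists_coord`.
* `three01`, `three21` of `Geo` in the form `C.dv.iB (pt 0) (pt 1) = 3 n` by `iB_bridge`
  (`C.dv.v f = C.ord f = ordS ..`, `PD.dv_ge_zero`; the marks are different).
* `gam`: the divisor `X.gam (pt 0) (pt 1)` has coefficients `C.dv.iB ..` (`gam_apply`, `Mor` from `x_mor`); all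
  of them are divisible by 3, so `D01 := ` the divisor with coefficients `iB / 3`
  (`Finsupp.mapRange (· / 3)`).  `exists_isEq hX D01 P` gives `d` with `C.ord d = iB_C/3` for `C ∋ P`.
* `d ∈ O_P` by `Pt.mem_iff` (orders `≥ 0`: `iB_nonneg`).  `(u 0 - u 1)/d³` has order `0` along all `C ∋ P`
  (`u_val` for `C.dv`, `dv_nonneg`), so it is a unit of `O_P` (`Pt.unit_iff`), and `v_unit` gives
  `3 D.v d = D.v (u 0 - u 1) = D.iB (pt 0) (pt 1)` for every `D` nonnegative on `O_P`.  Same for `d'`.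
* `u02`, `u34`: `C.ord (u 0 - u 2) = C.dv.iB (pt 0) (pt 2) = 0` (`i02`), `Pt.unit_iff`.  Same with `i34`.
-/

set_option autoImplicit false

open IsLocalRing

namespace HB

variable {k K : Type} [Field k] [Field K] [Algebra k K] [CharZero k] [IsAlgClosed k] [CharZero K]
  {X : Surf k K} (G : Geo X)

open Surf

private theorem isloc_third (hX : X.Smooth) (hA : X.AFacts) (P : X.Pt) {p q : BPt K}
    (hp : X.Mor p) (hq : X.Mor q) (hpq : p ≠ q) (h3 : ∀ C : X.PD, ∃ n : ℤ, C.dv.iB p q = 3 * n)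
    {w : K} (hw : w ≠ 0)
    (hwv : ∀ D : DV k K, D.NonNeg P.1.toSubring → D.v w = D.iB p q) :
    ∃ d : K, d ≠ 0 ∧ d ∈ P.1.toSubring ∧
      ∀ D : DV k K, D.NonNeg P.1.toSubring → 3 * D.v d = D.iB p q := by
  obtain ⟨D01, hD⟩ : ∃ D01 : X.Div, ∀ C : X.PD, 3 * D01 C = C.dv.iB p q := by
    refine ⟨(X.gam p q).mapRange (fun n => n / 3) (by norm_num), fun C => ?_⟩
    obtain ⟨n, hn⟩ := h3 C
    rw [Finsupp.mapRange_apply, gam_apply hA hp hq hpq, hn]
    omega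
  obtain ⟨d, hd0, hd⟩ := exists_isEq hX D01 P
  have hmem : d ∈ P.1.toSubring := by
    refine (Pt.mem_iff hX P hd0).2 fun C hC => ?_
    rw [hd C hC]
    have h1 := C.dv.iB_nonneg hpq
    have h2 := hD C
    omega
  have hd3 : d ^ 3 ≠ 0 := pow_ne_zero 3 hd0
  have hu := (Pt.unit_iff hX P (div_ne_zero hw hd3)).2 fun C hC => by
    rw [← C.dv_v, C.dv.div hw hd3, C.dv.pow hd0, hwv C.dv (dv_nonneg hC), C.dv_v, hd C hC]
    have h2 := hD C
    push_cast
    omega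
  refine ⟨d, hd0, hmem, fun D hD' => ?_⟩
  have h5 := v_unit D hD' hu.1 hu.2
  rw [D.div hw hd3, D.pow hd0, hwv D hD'] at h5
  push_cast at h5
  omega

private theorem isloc_bridge (C : X.PD) {x y x' y' : K} (h : y ^ 2 = x ^ 6 + 1)
    (h' : y' ^ 2 = x' ^ 6 + 1) (hne : BPt.aff x y h ≠ BPt.aff x' y' h')
    (h3 : ∃ n : ℤ, iB C.1.toSubring (x, y) (x', y') = ((3 * n : ℤ) : WithTop ℤ)) :
    ∃ n : ℤ, C.dv.iB (.aff x y h) (.aff x' y' h') = 3 * n := by
  obtain ⟨n, hn⟩ := h3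
  refine ⟨n, ?_⟩
  rw [iB_bridge C.1.toSubring C.dv (fun f _ => rfl) (fun f => (C.dv_ge_zero f).symm) h h'] at hn
  · exact WithTop.coe_injective hn
  · rintro ⟨rfl, rfl⟩
    exact hne rfl

private theorem isloc_unit (hX : X.Smooth) (P : X.Pt) {w : K} (hw : w ≠ 0)
    (hwv : ∀ D : DV k K, D.NonNeg P.1.toSubring → D.v w = 0) : w⁻¹ ∈ P.1.toSubring :=
  ((Pt.unit_iff hX P hw).2 fun C hC => hwv C.dv (dv_nonneg hC)).2

theorem Geo.exists_isLoc0 (hX : X.Smooth) (hA : X.AFacts) (P : X.Pt) :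
    ∃ (u : Fin 5 → K) (d d' : K), G.IsLoc P u d d' := by
  obtain ⟨u, hu, hv⟩ := G.exists_coord P
  have hm0 : X.Mor (G.pt 0) := fun P => G.x_mor 0 P
  have hm1 : X.Mor (G.pt 1) := fun P => G.x_mor 1 P
  have hm2 : X.Mor (G.pt 2) := fun P => G.x_mor 2 P
  have hn01 : G.pt 0 ≠ G.pt 1 := G.pt_ne (by decide)
  have hn21 : G.pt 2 ≠ G.pt 1 := G.pt_ne (by decide)
  obtain ⟨d, hd0, hdm, hdv⟩ := isloc_third hX hA P hm0 hm1 hn01
    (fun C => isloc_bridge C (G.curve 0) (G.curve 1) hn01 (G.three01 C))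
    (sub_ne_zero.2 (hv 0 1 (by decide)).1) (hv 0 1 (by decide)).2
  obtain ⟨d', hd0', hdm', hdv'⟩ := isloc_third hX hA P hm2 hm1 hn21
    (fun C => isloc_bridge C (G.curve 2) (G.curve 1) hn21 (G.three21 C))
    (sub_ne_zero.2 (hv 2 1 (by decide)).1) (hv 2 1 (by decide)).2
  refine ⟨u, d, d', ?_⟩
  exact
    { u_mem := hu
      u_ne := fun i j hij => (hv i j hij).1
      d_mem := hdm
      d'_mem := hdm'
      d_ne := hd0
      d'_ne := hd0'
      u_val := fun D hD i j hij => (hv i j hij).2 D hD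
      d_val := hdv
      d'_val := hdv'
      u02 := isloc_unit hX P (sub_ne_zero.2 (hv 0 2 (by decide)).1) fun D hD => by
        rw [(hv 0 2 (by decide)).2 D hD, G.i02]
      u34 := isloc_unit hX P (sub_ne_zero.2 (hv 3 4 (by decide)).1) fun D hD => by
        rw [(hv 3 4 (by decide)).2 D hD, G.i34] }

end HB
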