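import Pool.Agent.HB.D.NondegA

/-!
# HB-D-Nondeg: non-degeneracy of the points `π y_i - s_a` (second part)

Plan.
* `f_ne`: `π (pt i) ≠ s_a`: `3 π(pt i) ≠ 3 s_a = π y_a` (`s_eq'`).
  `i = a` : `2 π y_a ≠ 0` (`two_eq_zero_iff`, `y_a ≠ 0`).
  `{i,a} = {0,2}`: `three_ne_self` with `c = ζ²` or `ζ` (`X(π y_2) = ζ² x_0²`, `X(π y_0) = x_0² = ζ (ζ²x_0²)`);
  for `π'`: `X(π' y_2) = ζ⁻² x_0⁻² = ζ x_0⁻²`.
  `{i,a}` = `{0,1}` or `{2,1}`: `EIn A` for `A` = elements of `K` algebraic over `k(x i)` (a subfield of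
  `K`, e.g. `(algebraicClosure (IntermediateField.adjoin k {x i}) K).toSubfield`): `π (pt i) ∈ E(A)`,
  if `= s_a` then `π y_a = 3 s_a ∈ E(A)` (`eIn_smul`), so `x_a ∈ A`: contradiction to `indep`.
  `i = 3, 4`: `π = 0 ≠ s_a`; `π' (pt i) = mkE 0 (±1)`, `3 • = 0` (`three_mkE`) but `3 s'_a = π' y_a ≠ 0`.
* `ne2`: `π y_a ≠ 2 s_b` for `a ≠ b`: same arguments (`eIn_of_two`; `three_ne_self` second part:
  `3 π y_a = 2 π y_b`).
Suggestion: first prove a lemma for two arbitrary points `p = aff x y`, `q = aff x' y'` with `x, x'`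
algebraically independent, used for `π`, `π'` and for `(0,1), (1,0), (1,2), (2,1)`.
-/

set_option autoImplicit false
set_option linter.unusedSectionVars false

namespace HB

variable {k K : Type} [Field k] [Field K] [Algebra k K] [CharZero k] [IsAlgClosed k] [CharZero K]
  {X : Surf k K} (G : Geo X)

/-- The elements of `K` algebraic over `k(u)`. -/
private noncomputable def ndA (k : Type) {K : Type} [Field k] [Field K] [Algebra k K] (u : K) :
    Subfield K :=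
  (algebraicClosure (IntermediateField.adjoin k {u}) K).toSubfield

omit [CharZero k] [IsAlgClosed k] [CharZero K] in
private theorem ndA_closed (u : K) (z : K) (hz : IsIntegral (ndA k u) z) : z ∈ ndA k u := by
  have h1 : IsIntegral (algebraicClosure (IntermediateField.adjoin k {u}) K) z := hz
  have h2 : IsIntegral (IntermediateField.adjoin k {u}) z := isIntegral_trans z h1
  exact (mem_algebraicClosure_iff.2 h2.isAlgebraic :
    z ∈ algebraicClosure (IntermediateField.adjoin k {u}) K)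

omit [CharZero k] [IsAlgClosed k] [CharZero K] in
private theorem mem_ndA {u z : K} : z ∈ ndA k u ↔ IsAlgebraic (Algebra.adjoin k {u}) z := by
  rw [← IntermediateField.isAlgebraic_adjoin_iff]
  exact (mem_algebraicClosure_iff :
    z ∈ algebraicClosure (IntermediateField.adjoin k {u}) K ↔ _)

omit [CharZero k] [IsAlgClosed k] [CharZero K] in
private theorem self_mem_ndA (u : K) : u ∈ ndA k u := by
  rw [mem_ndA]
  exact isAlgebraic_algebraMap (⟨u, Algebra.subset_adjoin rfl⟩ : Algebra.adjoin k {u})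

omit [CharZero k] [IsAlgClosed k] [CharZero K] in
private theorem mem_ndA_of_sq {u z : K} (h : z ^ 2 ∈ ndA k u) : z ∈ ndA k u := by
  apply ndA_closed
  have h1 : IsIntegral (ndA k u) (z ^ 2) :=
    isIntegral_algebraMap (R := ndA k u) (A := K) (x := ⟨z ^ 2, h⟩)
  exact IsIntegral.of_pow (by norm_num) h1

private theorem nd_core {u : K} {P S Q : EPt K} (hP : EIn (ndA k u) P) (hS : (3 : ℤ) • S = Q)
    (hQ : ¬ EIn (ndA k u) Q) : P ≠ S ∧ P ≠ (2 : ℤ) • S := by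
  constructor
  · rintro rfl
    apply hQ
    rw [← hS]
    exact eIn_smul (ndA_closed u) hP 3
  · intro h
    rw [h] at hP
    apply hQ
    rw [← hS]
    exact eIn_smul (ndA_closed u) (eIn_of_two (ndA_closed u) hP) 3

private theorem nd_self {P S Q : EPt K} (c : k) (hc : c ^ 3 = 1) (hP : Transcendental k (eX P))
    (h : eX Q = algebraMap k K c * eX P) (hS : (3 : ℤ) • S = Q) : P ≠ S ∧ P ≠ (2 : ℤ) • S := by
  obtain ⟨h1, h2⟩ := three_ne_self c hc hP h
  constructor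
  · rintro rfl
    exact h1 hS
  · intro h3
    apply h2
    rw [← hS, h3, smul_comm]

omit [CharZero k] [IsAlgClosed k] [Algebra k K] in
private theorem nd_pi' {x y : K} (h : y ^ 2 = x ^ 6 + 1) (hx : x ≠ 0) :
    BPt.pi' (.aff x y h) = mkE (x⁻¹ ^ 2) (y / x ^ 3) (by field_simp; rw [h]; ring) := by
  unfold BPt.pi'
  have h1 : (BPt.aff x y h).swap = BPt.aff x⁻¹ (y / x ^ 3) (by field_simp; rw [h]; ring) := by
    simp only [BPt.swap, dif_neg hx]
  rw [h1]
  rfl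

omit [CharZero k] [IsAlgClosed k] [Algebra k K] in
private theorem nd_pi {x y : K} (h : y ^ 2 = x ^ 6 + 1) :
    BPt.pi (.aff x y h) = mkE (x ^ 2) y (by rw [h]; ring) := rfl

private theorem Geo.nd_ind {a b : Fin 3} (h : G.x a ∉ ndA k (G.x b)) :
    (BPt.pi (.aff (G.x b) (G.y b) (G.curve b)) ≠ G.s a ∧
      BPt.pi (.aff (G.x b) (G.y b) (G.curve b)) ≠ (2 : ℤ) • G.s a) ∧
    (BPt.pi' (.aff (G.x b) (G.y b) (G.curve b)) ≠ G.s' a ∧
      BPt.pi' (.aff (G.x b) (G.y b) (G.curve b)) ≠ (2 : ℤ) • G.s' a) := by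
  have hb := self_mem_ndA (k := k) (G.x b)
  refine ⟨nd_core (u := G.x b) (k := k) ?_ (G.s_eq' a) ?_,
    nd_core (u := G.x b) (k := k) ?_ (G.s'_eq' a) ?_⟩
  · right
    exact pow_mem hb 2
  · rw [nd_pi]
    rintro (h1 | h1)
    · exact mkE_ne_zero _ _ _ h1
    · exact h (mem_ndA_of_sq h1)
  · right
    rw [nd_pi' _ (G.x_ne_zero b)]
    exact pow_mem (inv_mem hb) 2
  · rw [nd_pi' _ (G.x_ne_zero a)]
    rintro (h1 | h1)
    · exact mkE_ne_zero _ _ _ h1
    · apply h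
      have h2 := inv_mem (mem_ndA_of_sq h1)
      rwa [inv_inv] at h2

private theorem Geo.nd_dep {a b : Fin 3} (c : k) (hc : c ^ 3 = 1)
    (h : G.x a ^ 2 = algebraMap k K c * G.x b ^ 2) :
    (BPt.pi (.aff (G.x b) (G.y b) (G.curve b)) ≠ G.s a ∧
      BPt.pi (.aff (G.x b) (G.y b) (G.curve b)) ≠ (2 : ℤ) • G.s a) ∧
    (BPt.pi' (.aff (G.x b) (G.y b) (G.curve b)) ≠ G.s' a ∧
      BPt.pi' (.aff (G.x b) (G.y b) (G.curve b)) ≠ (2 : ℤ) • G.s' a) := by
  have hxa := G.x_ne_zero a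
  have hxb := G.x_ne_zero b
  have hcK : algebraMap k K c ^ 3 = 1 := by rw [← map_pow, hc, map_one]
  refine ⟨nd_self c hc ?_ ?_ (G.s_eq' a), nd_self (c ^ 2) ?_ ?_ ?_ (G.s'_eq' a)⟩
  · rw [nd_pi, eX_mkE]
    exact (G.trans b).pow (by norm_num)
  · rw [nd_pi, nd_pi, eX_mkE, eX_mkE]
    exact h
  · rw [← pow_mul, mul_comm, pow_mul, hc, one_pow]
  · rw [nd_pi' _ hxb, eX_mkE]
    refine Transcendental.pow ?_ (by norm_num)
    intro h1
    exact G.trans b (IsAlgebraic.inv_iff.1 h1)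
  · rw [nd_pi' _ hxb, nd_pi' _ hxa, eX_mkE, eX_mkE, map_pow]
    field_simp
    linear_combination (-(algebraMap k K c ^ 2)) * h + (-(G.x b ^ 2)) * hcK

omit [CharZero k] [IsAlgClosed k] [CharZero K] in
private theorem nd_alg {x0 x1 : K} (h : AlgebraicIndependent k ![x0, x1]) :
    x1 ∉ ndA k x0 ∧ x0 ∉ ndA k x1 := by
  constructor
  · rw [mem_ndA]
    have h1 := h.transcendental_adjoin (s := {0}) (i := 1) (by simp)
    rw [Set.image_singleton] at h1
    exact h1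
  · rw [mem_ndA]
    have h1 := h.transcendental_adjoin (s := {1}) (i := 0) (by simp)
    rw [Set.image_singleton] at h1
    exact h1

private theorem Geo.nd_two : G.x 2 ∉ ndA k (G.x 1) ∧ G.x 1 ∉ ndA k (G.x 2) := by
  obtain ⟨h1, h2⟩ := nd_alg G.indep
  have hz : G.ζ ≠ 0 := by
    intro h0
    have := G.hζ
    rw [h0] at this
    norm_num at this
  have hzK : algebraMap k K G.ζ ≠ 0 := by
    rwa [Ne, map_eq_zero]
  constructor
  · intro h
    apply h2
    have h3 : G.x 0 = algebraMap k K G.ζ⁻¹ * G.x 2 := by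
      rw [G.x2, map_inv₀, ← mul_assoc, inv_mul_cancel₀ hzK, one_mul]
    rw [h3]
    refine mul_mem ?_ h
    rw [mem_ndA]
    exact isAlgebraic_algebraMap (algebraMap k (Algebra.adjoin k {G.x 1}) G.ζ⁻¹)
  · intro h
    apply h1
    rw [mem_ndA] at h ⊢
    refine IsAlgebraic.adjoin_of_forall_isAlgebraic ?_ h
    rintro z ⟨hz1, -⟩
    rw [Set.mem_singleton_iff] at hz1
    rw [hz1, G.x2]
    exact isAlgebraic_algebraMap (A := K) ((algebraMap k (Algebra.adjoin k {G.x 0}) G.ζ *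
      ⟨G.x 0, Algebra.subset_adjoin rfl⟩ : Algebra.adjoin k {G.x 0}))

private theorem Geo.nd_all (a b : Fin 3) :
    (BPt.pi (.aff (G.x b) (G.y b) (G.curve b)) ≠ G.s a ∧
      BPt.pi (.aff (G.x b) (G.y b) (G.curve b)) ≠ (2 : ℤ) • G.s a) ∧
    (BPt.pi' (.aff (G.x b) (G.y b) (G.curve b)) ≠ G.s' a ∧
      BPt.pi' (.aff (G.x b) (G.y b) (G.curve b)) ≠ (2 : ℤ) • G.s' a) := by
  obtain ⟨h1, h2⟩ := nd_alg G.indep
  obtain ⟨h3, h4⟩ := G.nd_two
  have hz3 : G.ζ ^ 3 = 1 := by linear_combination (G.ζ - 1) * G.hζ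
  have hz3K : algebraMap k K G.ζ ^ 3 = 1 := by rw [← map_pow, hz3, map_one]
  by_cases hab : a = b
  · subst hab
    exact G.nd_dep 1 (one_pow 3) (by rw [map_one, one_mul])
  fin_cases a <;> fin_cases b
  · exact absurd rfl hab
  · exact G.nd_ind h2
  · refine G.nd_dep G.ζ hz3 ?_
    change G.x 0 ^ 2 = algebraMap k K G.ζ * G.x 2 ^ 2
    rw [G.x2]
    linear_combination (-(G.x 0 ^ 2)) * hz3K
  · exact G.nd_ind h1
  · exact absurd rfl hab
  · exact G.nd_ind h4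
  · refine G.nd_dep (G.ζ ^ 2) ?_ ?_
    · rw [← pow_mul, mul_comm, pow_mul, hz3, one_pow]
    · change G.x 2 ^ 2 = algebraMap k K (G.ζ ^ 2) * G.x 0 ^ 2
      rw [G.x2, map_pow, mul_pow]
  · exact G.nd_ind h3
  · exact absurd rfl hab

private theorem Geo.nd_inf (e : K) (he : e ^ 2 = 1) (a : Fin 3) :
    (BPt.inf e he).pi ≠ G.s a ∧ (BPt.inf e he).pi' ≠ G.s' a := by
  obtain ⟨h1, h2, -, -, h5, h6⟩ := G.s_ne a
  constructor
  · intro h
    exact h1 h.symm
  · intro h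
    apply h6
    rw [← h]
    have h7 : (BPt.inf e he).pi' = mkE 0 e (by rw [he]; ring) := by
      have h8 : (BPt.inf e he).pi' = BPt.pi (.aff 0 e (by rw [he]; ring)) := rfl
      rw [h8, nd_pi]
      simp only [ne_eq, OfNat.ofNat_ne_zero, not_false_eq_true, zero_pow]
    rw [h7]
    exact three_mkE e he

theorem Geo.ff_ne (i : Fin 5) (a : Fin 3) : G.f i a ≠ 0 ∧ G.f' i a ≠ 0 := by
  unfold Geo.f Geo.f'
  rw [sub_ne_zero, sub_ne_zero]
  fin_cases i
  · exact ⟨(G.nd_all a 0).1.1, (G.nd_all a 0).2.1⟩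
  · exact ⟨(G.nd_all a 1).1.1, (G.nd_all a 1).2.1⟩
  · exact ⟨(G.nd_all a 2).1.1, (G.nd_all a 2).2.1⟩
  · exact G.nd_inf 1 (one_pow 2) a
  · exact G.nd_inf (-1) neg_one_sq a

set_option linter.unusedVariables false in
theorem Geo.ne2 {a b : Fin 3} (h : a ≠ b) :
    BPt.pi (.aff (G.x a) (G.y a) (G.curve a)) ≠ (2 : ℤ) • G.s b ∧
    BPt.pi' (.aff (G.x a) (G.y a) (G.curve a)) ≠ (2 : ℤ) • G.s' b :=
  ⟨(G.nd_all b a).1.2, (G.nd_all b a).2.2⟩

end HB
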