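import Pool.Agent.HB.D.LocBE
import Pool.Agent.HB.D.Nondeg

/-!
# HB-D-Nloc: valuations of the local generators of `N`

Plan.  `nloc = (bloc p * (bloc q)⁻¹ * (zloc ^ 4)⁻¹ * ∏ a, eloc (f i a) * eloc (f' i a))⁻¹`; expand the
product over `Fin 3` (`Fin.prod_univ_three`, `Fin.sum_univ_three`), `DV.mul`, `DV.inv`, `DV.pow`, and
`v_bloc` (`pt_ne_map`, `Z.yp0`, `Z.yq0`), `v_zloc` (`x_ne_zero`), `v_eloc` (`ff_ne`, `eOn_f`).
`nloc_aux` is for a general `O`; `v_nloc` for `O = O_P`; `v_nloc_C` for `O = O_C` (a discrete valuation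
ring: `MorAt`, `EOn` hold for every point because `x ∈ O_C` or `x⁻¹ ∈ O_C`; `goodC`).
-/

set_option autoImplicit false

open IsLocalRing

namespace HB

variable {k K : Type} [Field k] [Field K] [Algebra k K] [CharZero k] [IsAlgClosed k] [CharZero K]
  {X : Surf k K} (G : Geo X) (Z : ZPair k)

open Surf

theorem goodC (C : X.PD) : GoodO k C.1.toSubring where
  base := C.algebraMap_mem
  loc := by
    intro x hx y hy h0 hxy
    have hu : IsUnit ((⟨x, hx⟩ : C.1.toSubring) + ⟨y, hy⟩) := by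
      rw [isUnit_iff_exists_inv]
      exact ⟨⟨(x + y)⁻¹, hxy⟩, Subtype.ext (mul_inv_cancel₀ h0)⟩
    rcases IsLocalRing.isUnit_or_isUnit_of_isUnit_add hu with h | h
    · left
      obtain ⟨b, hb⟩ := isUnit_iff_exists_inv.mp h
      have hb' : x * (b : K) = 1 := congrArg Subtype.val hb
      have hx0 : x ≠ 0 := by rintro rfl; simp at hb'
      exact ⟨hx0, by rw [← eq_inv_of_mul_eq_one_right hb']; exact b.2⟩
    · right
      obtain ⟨b, hb⟩ := isUnit_iff_exists_inv.mp h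
      have hb' : y * (b : K) = 1 := congrArg Subtype.val hb
      have hx0 : y ≠ 0 := by rintro rfl; simp at hb'
      exact ⟨hx0, by rw [← eq_inv_of_mul_eq_one_right hb']; exact b.2⟩
  int := by
    intro x hx
    refine C.int ⟨Polynomial.X ^ 2 - Polynomial.C ⟨x ^ 2, hx⟩, ?_, ?_⟩
    · exact Polynomial.monic_X_pow_sub_C _ (by norm_num)
    · simp only [Polynomial.eval₂_sub, Polynomial.eval₂_X_pow, Polynomial.eval₂_C]
      exact sub_self _

omit [CharZero k] [IsAlgClosed k] [CharZero K] in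
private theorem pt_x_ne (i : Fin 5) (x y : K) (h : y ^ 2 = x ^ 6 + 1)
    (e : G.pt i = .aff x y h) : x ≠ 0 := by
  have aff : ∀ a : Fin 3, (BPt.aff (G.x a) (G.y a) (G.curve a)) = .aff x y h → x ≠ 0 := by
    intro a h1
    have h2 : G.x a = x := congrArg BPt.x h1
    rw [← h2]
    exact G.x_ne_zero a
  fin_cases i
  · exact aff 0 e
  · exact aff 1 e
  · exact aff 2 e
  · exact absurd e (by rw [show G.pt ((fun i => i) ⟨3, by decide⟩) = .inf 1 (one_pow 2) from rfl]; simp)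
  · exact absurd e (by rw [show G.pt ((fun i => i) ⟨4, by decide⟩) = .inf (-1) neg_one_sq from rfl]; simp)

theorem Geo.nloc_aux {O : Subring K} (hO : GoodO k O) (D : DV k K) (hD : D.NonNeg O) (i : Fin 5)
    (hm : MorAt O (G.pt i)) (hf : ∀ a, EOn O (G.f i a)) (hf' : ∀ a, EOn O (G.f' i a)) :
    G.nloc Z O i ≠ 0 ∧ D.v (G.nloc Z O i) = - G.NN Z D i := by
  obtain ⟨p0, -, hp⟩ := v_bloc hO D hD hm Z.hp Z.yp0 (G.pt_ne_map i Z.hp)
  obtain ⟨q0, -, hq⟩ := v_bloc hO D hD hm Z.hq Z.yq0 (G.pt_ne_map i Z.hq)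
  obtain ⟨z0, -, hz⟩ := v_zloc hO D hD hm (fun x y h e => pt_x_ne G i x y h e)
  have he := fun a => v_eloc hO D hD (G.ff_ne i a).1 (hf a)
  have he' := fun a => v_eloc hO D hD (G.ff_ne i a).2 (hf' a)
  have hee : ∀ a, eloc O (G.f i a) * eloc O (G.f' i a) ≠ 0 ∧
      D.v (eloc O (G.f i a) * eloc O (G.f' i a)) = D.iE (G.f i a) + D.iE (G.f' i a) := by
    intro a
    refine ⟨mul_ne_zero (he a).1 (he' a).1, ?_⟩
    rw [D.mul (he a).1 (he' a).1, (he a).2.2, (he' a).2.2]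
  have hprod : (∏ a, (eloc O (G.f i a) * eloc O (G.f' i a))) ≠ 0 ∧
      D.v (∏ a, (eloc O (G.f i a) * eloc O (G.f' i a))) =
        ∑ a, (D.iE (G.f i a) + D.iE (G.f' i a)) := by
    rw [Fin.prod_univ_three, Fin.sum_univ_three]
    refine ⟨mul_ne_zero (mul_ne_zero (hee 0).1 (hee 1).1) (hee 2).1, ?_⟩
    rw [D.mul (mul_ne_zero (hee 0).1 (hee 1).1) (hee 2).1, D.mul (hee 0).1 (hee 1).1,
      (hee 0).2, (hee 1).2, (hee 2).2]
  change (bloc O (G.pt i) (Z.p.map K) * (bloc O (G.pt i) (Z.q.map K))⁻¹ *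
    ((zloc O (G.pt i)) ^ 4)⁻¹ * ∏ a, (eloc O (G.f i a) * eloc O (G.f' i a)))⁻¹ ≠ 0 ∧
    D.v (bloc O (G.pt i) (Z.p.map K) * (bloc O (G.pt i) (Z.q.map K))⁻¹ *
    ((zloc O (G.pt i)) ^ 4)⁻¹ * ∏ a, (eloc O (G.f i a) * eloc O (G.f' i a)))⁻¹ =
    -(D.iB (G.pt i) (Z.p.map K) - D.iB (G.pt i) (Z.q.map K) - 4 * D.iZero (G.pt i) +
    ∑ a, (D.iE (G.f i a) + D.iE (G.f' i a)))
  change bloc O (G.pt i) (Z.p.map K) ≠ 0 at p0
  change bloc O (G.pt i) (Z.q.map K) ≠ 0 at q0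
  change D.v (bloc O (G.pt i) (Z.p.map K)) = D.iB (G.pt i) (Z.p.map K) at hp
  change D.v (bloc O (G.pt i) (Z.q.map K)) = D.iB (G.pt i) (Z.q.map K) at hq
  have z4 : (zloc O (G.pt i)) ^ 4 ≠ 0 := pow_ne_zero 4 z0
  have hv4 : D.v ((zloc O (G.pt i)) ^ 4) = 4 * D.iZero (G.pt i) := by
    rw [D.pow z0, hz]; norm_num
  have h1 := mul_ne_zero p0 (inv_ne_zero q0)
  have h2 := mul_ne_zero h1 (inv_ne_zero z4)
  have h3 := mul_ne_zero h2 hprod.1
  refine ⟨inv_ne_zero h3, ?_⟩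
  rw [D.inv h3, D.mul h2 hprod.1, D.mul h1 (inv_ne_zero z4), D.mul p0 (inv_ne_zero q0),
    D.inv q0, D.inv z4, hp, hq, hv4, hprod.2]
  ring

theorem Geo.nloc_ne0 (P : X.Pt) (i : Fin 5) : G.nloc Z P.1.toSubring i ≠ 0 := by
  have hD : (⟨fun _ => 0, rfl, fun _ _ => rfl, fun _ _ _ => (min_self _).le, fun _ => rfl⟩ :
      DV k K).NonNeg P.1.toSubring := fun f _ => Or.inr le_rfl
  exact (G.nloc_aux Z (goodP P) _ hD i (G.mor_pt i P) (fun a => (G.eOn_f i a P).1)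
    (fun a => (G.eOn_f i a P).2)).1

theorem Geo.v_nloc0 (P : X.Pt) (D : DV k K) (hD : D.NonNeg P.1.toSubring) (i : Fin 5) :
    D.v (G.nloc Z P.1.toSubring i) = - G.NN Z D i :=
  (G.nloc_aux Z (goodP P) D hD i (G.mor_pt i P) (fun a => (G.eOn_f i a P).1)
    (fun a => (G.eOn_f i a P).2)).2

theorem Geo.v_nloc_C (C : X.PD) (i : Fin 5) :
    G.nloc Z C.1.toSubring i ≠ 0 ∧ C.dv.v (G.nloc Z C.1.toSubring i) = - G.NN Z C.dv i := by
  have hD : C.dv.NonNeg C.1.toSubring := fun f hf => (C.dv_ge_zero f).2 hf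
  have hor : ∀ f : K, f ∈ C.1.toSubring ∨ f⁻¹ ∈ C.1.toSubring := by
    intro f
    rw [← C.dv_ge_zero, ← C.dv_ge_zero]
    exact C.dv.ring.mem_or_inv_mem' f
  refine G.nloc_aux Z (goodC C) C.dv hD i ?_ (fun a => hor _) (fun a => hor _)
  match G.pt i with
  | .aff x y h => exact hor x
  | .inf e h => exact trivial

end HB
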