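import Pool.Agent.HB.D.I02
import Pool.Agent.HB.D.IsLoc
import Pool.Agent.HB.D.Nloc
import Pool.Agent.HB.F.AF

/-!
# HB-D-CoreS: the core facts on the local data (names used by the gluing, flag and Higgs files)
-/

set_option autoImplicit false

open IsLocalRing
open scoped Matrix

namespace HB

variable {k K : Type} [Field k] [Field K] [Algebra k K] [CharZero k] [IsAlgClosed k] [CharZero K]
  {X : Surf k K}

theorem Geo.exists_isLoc (hX : X.Smooth) (G : Geo X) (P : X.Pt) :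
    ∃ (u : Fin 5 → K) (d d' : K), G.IsLoc P u d d' :=
  G.exists_isLoc0 hX (Surf.afacts hX) P

theorem Geo.nloc_ne (_hX : X.Smooth) (G : Geo X) (Z : ZPair k) (P : X.Pt) (i : Fin 5) :
    G.nloc Z P.1.toSubring i ≠ 0 :=
  G.nloc_ne0 Z P i

theorem Geo.v_nloc (_hX : X.Smooth) (G : Geo X) (Z : ZPair k) (P : X.Pt) (D : DV k K)
    (hD : D.NonNeg P.1.toSubring) (i : Fin 5) :
    D.v (G.nloc Z P.1.toSubring i) = - G.NN Z D i :=
  G.v_nloc0 Z P D hD i

theorem Geo.nlocC_ne (G : Geo X) (Z : ZPair k) (C : X.PD) (i : Fin 5) :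
    G.nloc Z C.1.toSubring i ≠ 0 :=
  (G.v_nloc_C Z C i).1

theorem Geo.v_nlocC (G : Geo X) (Z : ZPair k) (C : X.PD) (i : Fin 5) :
    C.dv.v (G.nloc Z C.1.toSubring i) = - G.NN Z C.dv i :=
  (G.v_nloc_C Z C i).2

theorem Geo.pt_mor (G : Geo X) (i : Fin 5) : X.Mor (G.pt i) := by
  intro P
  fin_cases i
  · exact G.x_mor 0 P
  · exact G.x_mor 1 P
  · exact G.x_mor 2 P
  · exact Or.inl P.1.toSubring.zero_mem
  · exact Or.inl P.1.toSubring.zero_mem

/-- the marks `0, 1, 2` are not constant and the others are at infinity -/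
theorem Geo.pt_const (G : Geo X) (i : Fin 5) {x' y' : k} (hb : y' ^ 2 = x' ^ 6 + 1) :
    G.pt i ≠ (BPt.aff x' y' hb).map K :=
  G.pt_ne_map i hb

theorem Geo.x_ne (G : Geo X) (a : Fin 3) : G.x a ≠ 0 := G.x_ne_zero a

theorem Geo.f_ne (G : Geo X) (i : Fin 5) (a : Fin 3) : G.f i a ≠ 0 := (G.ff_ne i a).1

theorem Geo.f'_ne (G : Geo X) (i : Fin 5) (a : Fin 3) : G.f' i a ≠ 0 := (G.ff_ne i a).2

theorem Geo.f_on (_hX : X.Smooth) (G : Geo X) (P : X.Pt) (i : Fin 5) (a : Fin 3) :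
    EOn P.1.toSubring (G.f i a) :=
  (G.eOn_f i a P).1

theorem Geo.f'_on (_hX : X.Smooth) (G : Geo X) (P : X.Pt) (i : Fin 5) (a : Fin 3) :
    EOn P.1.toSubring (G.f' i a) :=
  (G.eOn_f i a P).2

/-- the clusters of the marks along a curve are pairs -/
theorem Geo.iB_pairs (hX : X.Smooth) (G : Geo X) (C : X.PD) {i j l : Fin 5} (hij : i ≠ j)
    (hjl : j ≠ l) (hil : i ≠ l) :
    C.dv.iB (G.pt i) (G.pt j) = 0 ∨ C.dv.iB (G.pt j) (G.pt l) = 0 :=
  G.pairs (Surf.afacts hX) (fun _ _ h => G.pt_ne h) C hij hjl hil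

theorem Geo.iB02 (G : Geo X) (D : DV k K) : D.iB (G.pt 0) (G.pt 2) = 0 := G.i02 D

theorem Geo.iB34 (G : Geo X) (D : DV k K) : D.iB (G.pt 3) (G.pt 4) = 0 := G.i34 D

end HB
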