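import Pool.Agent.HB.Curve

/-!
# Project HB, part D: the explicit bundle (definitions)

Marks `i : Fin 5`: `0, 1, 2` = the points `y_0, y_1, y_2` of `B(K)`, `3 = ∞₊`, `4 = ∞₋` (the zeros of
`ω = dx / y`).

* `Geo.NN Z D i` : the order at the valuation `D` of the line bundle `N` at the mark `i`,
  `N = O(p - q - 4 {x = 0} + Σ_a π^* s_a + π'^* s'_a)`.
* `Geo.nloc Z O i`: local generators at a local ring `O` (of a closed point).
* `frame u n d d'`: the frame of the bundle, columns in the order of the flag `∞₊, ∞₋, 1, 0, 2`.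
* `Geo.IsLoc`: local data at a closed point.
* `Geo.InL`: the lattice at a valuation.
-/

set_option autoImplicit false

namespace HB

variable {k K : Type} [Field k] [Field K] [Algebra k K]

/-- Two points `p = (xp, yp)` and `q = (xq, yq)` of `B(k)`, in general position. -/
structure ZPair (k : Type) [Field k] where
  xp : k
  yp : k
  xq : k
  yq : k
  hp : yp ^ 2 = xp ^ 6 + 1
  hq : yq ^ 2 = xq ^ 6 + 1
  xp0 : xp ≠ 0
  yp0 : yp ≠ 0
  xq0 : xq ≠ 0
  yq0 : yq ≠ 0
  ne : xp ≠ xq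

/-- The point `p`. -/
def ZPair.p (Z : ZPair k) : BPt k := .aff Z.xp Z.yp Z.hp

/-- The point `q`. -/
def ZPair.q (Z : ZPair k) : BPt k := .aff Z.xq Z.yq Z.hq

variable {X : Surf k K}

/-- The five marks. -/
def Geo.pt (G : Geo X) : Fin 5 → BPt K :=
  ![.aff (G.x 0) (G.y 0) (G.curve 0), .aff (G.x 1) (G.y 1) (G.curve 1),
    .aff (G.x 2) (G.y 2) (G.curve 2), .inf 1 (one_pow 2), .inf (-1) neg_one_sq]

theorem Geo.pt0 (G : Geo X) : G.pt 0 = .aff (G.x 0) (G.y 0) (G.curve 0) := rfl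
theorem Geo.pt1 (G : Geo X) : G.pt 1 = .aff (G.x 1) (G.y 1) (G.curve 1) := rfl
theorem Geo.pt2 (G : Geo X) : G.pt 2 = .aff (G.x 2) (G.y 2) (G.curve 2) := rfl
theorem Geo.pt3 (G : Geo X) : G.pt 3 = .inf 1 (one_pow 2) := rfl
theorem Geo.pt4 (G : Geo X) : G.pt 4 = .inf (-1) neg_one_sq := rfl

variable [CharZero K]

/-- The point `π(y_i) - s_a` of `E(K)`. -/
noncomputable def Geo.f (G : Geo X) (i : Fin 5) (a : Fin 3) : EPt K := (G.pt i).pi - G.s a

/-- The point `π'(y_i) - s'_a` of `E(K)`. -/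
noncomputable def Geo.f' (G : Geo X) (i : Fin 5) (a : Fin 3) : EPt K := (G.pt i).pi' - G.s' a

/-- The order at `D` of the line bundle `N` at the mark `i`. -/
noncomputable def Geo.NN (G : Geo X) (Z : ZPair k) (D : DV k K) (i : Fin 5) : ℤ :=
  D.iB (G.pt i) (Z.p.map K) - D.iB (G.pt i) (Z.q.map K) - 4 * D.iZero (G.pt i) +
    ∑ a, (D.iE (G.f i a) + D.iE (G.f' i a))

/-- The common part `V` of the class relations. -/
noncomputable def Geo.VV (G : Geo X) (D : DV k K) : ℤ :=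
  D.iInf (G.pt 0) + D.iInf (G.pt 1) + D.iInf (G.pt 2) -
    6 * ∑ b, (D.iE (G.s b) + D.iE (G.s' b))

omit [CharZero K] in
/-- `x` is a nonunit of the ring `O`. -/
def NonU (O : Subring K) (x : K) : Prop := x ∈ O ∧ (x = 0 ∨ x⁻¹ ∉ O)

open Classical in
/-- Local equation of `f^* (origin)` at the local ring `O`, for `f : EPt K` (`f ≠ 0`). -/
noncomputable def eloc (O : Subring K) (f : EPt K) : K :=
  if f = 0 ∨ eX f ∈ O then 1 else eT f

open Classical in
/-- Local equation of `b^* p` at the local ring `O`, for a point `b` of `B(K)` and a constant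
point `p` with `y(p) ≠ 0`. -/
noncomputable def bloc (O : Subring K) : BPt K → BPt K → K
  | .aff x y _, .aff x' y' _ => if NonU O (x - x') ∧ NonU O (y - y') then x - x' else 1
  | .inf _ _, _ => 1
  | _, .inf _ _ => 1

open Classical in
/-- Local equation of `b^* {x = 0}` at the local ring `O`. -/
noncomputable def zloc (O : Subring K) : BPt K → K
  | .aff x _ _ => if NonU O x then x else 1
  | .inf _ _ => 1

/-- The local generator of `N` at the mark `i`. -/
noncomputable def Geo.nloc (G : Geo X) (Z : ZPair k) (O : Subring K) (i : Fin 5) : K :=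
  (bloc O (G.pt i) (Z.p.map K) * (bloc O (G.pt i) (Z.q.map K))⁻¹ * ((zloc O (G.pt i)) ^ 4)⁻¹ *
    ∏ a, (eloc O (G.f i a) * eloc O (G.f' i a)))⁻¹

omit [CharZero K] in
/-- The frame of the bundle.  Rows: marks; columns: flag order `∞₊, ∞₋, 1, 0, 2`. -/
def frame (u n : Fin 5 → K) (d d' : K) : Matrix (Fin 5) (Fin 5) K := Matrix.of fun i j =>
  n i * (![(u i - u 0) * (u i - u 1) * (u i - u 2) * (u i - u 4),
    (u i - u 0) * (u i - u 1) * (u i - u 2), (u i - u 0) * (u i - u 2),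
    d * (u i - u 2), d' * (u i - u 0)] : Fin 5 → K) j

omit [CharZero K] in
/-- `D` is nonnegative on `O`. -/
def DV.NonNeg (D : DV k K) (O : Subring K) : Prop := ∀ f ∈ O, D.ge 0 f

omit [CharZero K] in
/-- Local data at a closed point `P`: `u i` are the values of a local coordinate of `B` at the
marks, `d` and `d'` are local equations of the divisors `D_01` and `D_21`. -/
structure Geo.IsLoc (G : Geo X) (P : X.Pt) (u : Fin 5 → K) (d d' : K) : Prop where
  u_mem : ∀ i, u i ∈ P.1.toSubring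
  u_ne : ∀ i j, i ≠ j → u i ≠ u j
  d_mem : d ∈ P.1.toSubring
  d'_mem : d' ∈ P.1.toSubring
  d_ne : d ≠ 0
  d'_ne : d' ≠ 0
  u_val : ∀ D : DV k K, D.NonNeg P.1.toSubring → ∀ i j, i ≠ j →
    D.v (u i - u j) = D.iB (G.pt i) (G.pt j)
  d_val : ∀ D : DV k K, D.NonNeg P.1.toSubring → 3 * D.v d = D.iB (G.pt 0) (G.pt 1)
  d'_val : ∀ D : DV k K, D.NonNeg P.1.toSubring → 3 * D.v d' = D.iB (G.pt 2) (G.pt 1)
  u02 : (u 0 - u 2)⁻¹ ∈ P.1.toSubring
  u34 : (u 3 - u 4)⁻¹ ∈ P.1.toSubring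

omit [CharZero K] in
/-- The lattice at the valuation `D`, with local generators `n`. -/
def Geo.InL (G : Geo X) (D : DV k K) (n : Fin 5 → K) (x : Fin 5 → K) : Prop :=
  (∀ i, D.ge 0 (x i / n i)) ∧
  (∀ i j, i ≠ j → D.ge (D.iB (G.pt i) (G.pt j)) (x i / n i - x j / n j)) ∧
  D.ge (D.iB (G.pt 0) (G.pt 1) / 3) (x 0 / n 0) ∧
  D.ge (D.iB (G.pt 2) (G.pt 1) / 3) (x 2 / n 2)

end HB
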