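import Pool.Agent.HB.B.Basic
import Pool.Agent.HB.B.EInt
import Pool.Agent.HB.B.EMix
import Pool.Agent.HB.B.EInf

/-!
# HB-D-ESub: points of `E` with values in a normal local ring `O ⊆ F`

`O : Subring F` contains `k`, is local (`hloc`: the sum of two nonunits is a nonunit) and normal
(`hint`).  `EOn O f`: `f` is a morphism to `E` at `O`.

Facts about nonunits: `NonU O x := x ∈ O ∧ (x = 0 ∨ x⁻¹ ∉ O)`.  They form an ideal of `O`
(`hloc`; a product with a nonunit is a nonunit), `1 + NonU` consists of units; constants `≠ 0` of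
`k` are units.

Plans.
* `near`: `f ≠ 0`, `X ∉ O`, `X⁻¹ ∈ O`.  Then `X⁻¹` is a nonunit.  `t = X/Y`, `t² = X²/(X³+1) =
  X⁻¹/(1 + X⁻³)` is a nonunit, so `t ∈ O` (`hint`: `t² ∈ O` implies `t` integral over `O`), and `t` is
  a nonunit.  `w = 1/Y`: `w² = X⁻³/(1 + X⁻³)`, same.  `X = t⁻² r⁻¹`, `r = w/t³ = Y²/X³ = 1 + X⁻³` is a unit.
* `v_near`: `v X = -2 v t`, `v t ≥ 0` (`D` nonneg on `O`), `iE = max 0 (2 v t) / 2`.
* `eOn_sub_aff`: `X₁, X₂ ∈ O` (then `Y₁, Y₂ ∈ O` by `hint`), `P ≠ Q`.  Put `a = X₁ - X₂`,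
  `b = Y₁ + Y₂`, `c = Y₁ - Y₂`, `d = X₁² + X₁X₂ + X₂²`, `b c = a d`.  If `a = 0`: `P = -Q`, `P - Q = 2P`,
  `X(2P) = s² - 2X`, `s = 3X²/(2Y)`; if `a ≠ 0`: `X(P-Q) = s² - X₁ - X₂`, `s = b/a`.
  Claim: `s ∈ O` or `s ≠ 0 ∧ NonU (s⁻¹)`.  Case `a ≠ 0`: if `a` is a unit, `s ∈ O`.  If `c` is a unit,
  `s = d/c ∈ O`.  Otherwise `a, c` nonunits: if `b` is a unit, `s⁻¹ = a/b`.  If `b` is a nonunit then
  `2 Y₁ = b + c` is a nonunit, so `X₁³ = Y₁² - 1` is a unit, so `X₁` is a unit,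
  `d = 3 X₁² - 3 X₁ a + a²` is a unit, `c = a d/b ≠ 0` and `s⁻¹ = c/d`.  Case `a = 0`: `Y` unit: `s ∈ O`.
  Otherwise `X` is a unit and `s⁻¹ = 2Y/(3X²)`.
  If `s ∈ O`: `X(P-Q) ∈ O`.  If `s⁻¹` is a nonunit: `X(P-Q)⁻¹ = s⁻² (1 - (X₁+X₂) s⁻²)⁻¹ ∈ O`.
* `eOn_sub_mix`: `X₁⁻¹` nonunit, `X₂ ∈ O`: `X(P∓Q) = N/D²`, `N = 2 ± 2Y₁Y₂ + X₁X₂(X₁+X₂)`, `D = X₁ - X₂`
  (`subE`, `addE`, `eY_sq`, `field_simp`): `N/X₁² = 2X₁⁻² ± 2Y₂ (Y₁/X₁²) + X₂(1 + X₂X₁⁻¹) ∈ O` with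
  `(Y₁/X₁²)² = X₁⁻¹ + X₁⁻⁴ ∈ O`, and `(D/X₁)² = (1 - X₂X₁⁻¹)²` is a unit: `X(P∓Q) ∈ O`.
* `eOn_sub`: if both are near the origin: let `T = mkE 0 1`; `P + T`, `Q + T` have `X ∈ O` by
  `eOn_sub_mix` (they are `≠ 0`), and `P - Q = (P + T) - (Q + T)`: `eOn_sub_aff`.
  `P = 0` or `Q = 0`: clear.
-/

set_option autoImplicit false

namespace HB

variable {k F : Type} [Field k] [Field F] [Algebra k F] [CharZero k] [CharZero F]

/-- `f` is a morphism to `E` at the local ring `O`. -/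
def EOn (O : Subring F) (f : EPt F) : Prop := eX f ∈ O ∨ (eX f)⁻¹ ∈ O

/-- Assumptions on the local ring `O`. -/
structure GoodO (k : Type) {F : Type} [Field k] [Field F] [Algebra k F] (O : Subring F) : Prop where
  base : ∀ c : k, algebraMap k F c ∈ O
  loc : ∀ x ∈ O, ∀ y ∈ O, x + y ≠ 0 → (x + y)⁻¹ ∈ O → (x ≠ 0 ∧ x⁻¹ ∈ O) ∨ (y ≠ 0 ∧ y⁻¹ ∈ O)
  int : ∀ x : F, x ^ 2 ∈ O → x ∈ O

/-- units of `O` -/
private def Uni (O : Subring F) (x : F) : Prop := x ∈ O ∧ x ≠ 0 ∧ x⁻¹ ∈ O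

/-- nonunits of `O` -/
private def NonU (O : Subring F) (x : F) : Prop := x ∈ O ∧ (x = 0 ∨ x⁻¹ ∉ O)

variable {O : Subring F} (hO : GoodO k O)

omit [CharZero F] in
private theorem uni_or {x : F} (hx : x ∈ O) : Uni O x ∨ NonU O x := by
  by_cases h : x = 0
  · exact Or.inr ⟨hx, Or.inl h⟩
  · by_cases h2 : x⁻¹ ∈ O
    · exact Or.inl ⟨hx, h, h2⟩
    · exact Or.inr ⟨hx, Or.inr h2⟩

omit [CharZero F] in
private theorem Uni.not_nonU {x : F} (h : Uni O x) (h' : NonU O x) : False :=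
  h'.2.elim h.2.1 (fun h2 => h2 h.2.2)

omit [CharZero F] in
private theorem uni_one : Uni O (1 : F) := ⟨O.one_mem, one_ne_zero, by simpa using O.one_mem⟩

omit [CharZero F] in
private theorem Uni.mul {x y : F} (hx : Uni O x) (hy : Uni O y) : Uni O (x * y) :=
  ⟨O.mul_mem hx.1 hy.1, mul_ne_zero hx.2.1 hy.2.1, by
    rw [mul_inv]; exact O.mul_mem hx.2.2 hy.2.2⟩

omit [CharZero F] in
private theorem Uni.inv {x : F} (hx : Uni O x) : Uni O x⁻¹ :=
  ⟨hx.2.2, inv_ne_zero hx.2.1, by rw [inv_inv]; exact hx.1⟩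

omit [CharZero F] in
private theorem Uni.pow {x : F} (hx : Uni O x) (n : ℕ) : Uni O (x ^ n) := by
  induction n with
  | zero => simpa using uni_one
  | succ n ih => rw [pow_succ]; exact ih.mul hx

omit [CharZero F] in
private theorem Uni.of_mul {x y : F} (hx : x ∈ O) (hy : y ∈ O) (h : Uni O (x * y)) :
    Uni O x := by
  have h0 := mul_ne_zero_iff.mp h.2.1
  refine ⟨hx, h0.1, ?_⟩
  have e : x⁻¹ = y * (x * y)⁻¹ := by
    have := h0.1; have := h0.2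
    field_simp
  rw [e]
  exact O.mul_mem hy h.2.2

omit [CharZero F] in
private theorem NonU.mul {x a : F} (hx : NonU O x) (ha : a ∈ O) : NonU O (x * a) := by
  rcases uni_or (O.mul_mem hx.1 ha) with h | h
  · exact ((h.of_mul hx.1 ha).not_nonU hx).elim
  · exact h

omit [CharZero F] in
private theorem NonU.neg {x : F} (hx : NonU O x) : NonU O (-x) := by
  have := hx.mul (O.neg_mem O.one_mem)
  simpa using this

omit [CharZero F] in
private theorem NonU.of_pow {x : F} {n : ℕ} (hx : x ∈ O) (h : NonU O (x ^ n)) : NonU O x := by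
  rcases uni_or hx with h1 | h1
  · exact ((h1.pow n).not_nonU h).elim
  · exact h1

omit [CharZero F] in
private theorem NonU.pow {x : F} (hx : NonU O x) {n : ℕ} (hn : n ≠ 0) : NonU O (x ^ n) := by
  obtain ⟨m, rfl⟩ := Nat.exists_eq_succ_of_ne_zero hn
  rw [pow_succ, mul_comm]
  exact hx.mul (O.pow_mem hx.1 m)

include hO in
omit [CharZero k] [CharZero F] in
private theorem NonU.add {x y : F} (hx : NonU O x) (hy : NonU O y) : NonU O (x + y) := by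
  rcases uni_or (O.add_mem hx.1 hy.1) with h | h
  · rcases hO.loc x hx.1 y hy.1 h.2.1 h.2.2 with h1 | h1
    · exact (Uni.not_nonU ⟨hx.1, h1⟩ hx).elim
    · exact (Uni.not_nonU ⟨hy.1, h1⟩ hy).elim
  · exact h

include hO in
omit [CharZero k] [CharZero F] in
private theorem Uni.add {x y : F} (hx : Uni O x) (hy : NonU O y) : Uni O (x + y) := by
  rcases uni_or (O.add_mem hx.1 hy.1) with h | h
  · exact h
  · have := NonU.add hO h hy.neg
    rw [add_neg_cancel_right] at this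
    exact (hx.not_nonU this).elim

include hO in
omit [CharZero F] in
private theorem uni_ofNat {n : ℕ} [n.AtLeastTwo] : Uni O (OfNat.ofNat n : F) := by
  have h0 : ((OfNat.ofNat n : k)) ≠ 0 := OfNat.ofNat_ne_zero n
  have h1 : (OfNat.ofNat n : F) = algebraMap k F (OfNat.ofNat n) := (map_ofNat _ n).symm
  rw [h1]
  refine ⟨hO.base _, ?_, ?_⟩
  · exact (map_ne_zero _).mpr h0
  · rw [← map_inv₀]; exact hO.base _

include hO in
omit [CharZero k] [CharZero F] in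
private theorem near_facts {f : EPt F} (hf : f ≠ 0) (h : eX f ∉ O) (h' : (eX f)⁻¹ ∈ O) :
    eX f ≠ 0 ∧ eY f ≠ 0 ∧ NonU O (eX f)⁻¹ ∧ Uni O (1 + (eX f)⁻¹ ^ 3) ∧
      eY f ^ 2 = eX f ^ 3 * (1 + (eX f)⁻¹ ^ 3) := by
  have hX : eX f ≠ 0 := fun h0 => h (h0 ▸ O.zero_mem)
  have hu : NonU O (eX f)⁻¹ := ⟨h', Or.inr (by rwa [inv_inv])⟩
  have hr : Uni O (1 + (eX f)⁻¹ ^ 3) := Uni.add hO uni_one (hu.pow (by norm_num))
  have hsq := eY_sq hf
  have he : eY f ^ 2 = eX f ^ 3 * (1 + (eX f)⁻¹ ^ 3) := by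
    rw [hsq]; field_simp
  refine ⟨hX, ?_, hu, hr, he⟩
  intro h0
  rw [h0] at he
  have h1 := mul_ne_zero (pow_ne_zero 3 hX) hr.2.1
  exact h1 (by rw [← he]; norm_num)

include hO in
/-- A point near the origin. -/
theorem near_aux {f : EPt F} (hf : f ≠ 0) (h : eX f ∉ O) (h' : (eX f)⁻¹ ∈ O) :
    eY f ≠ 0 ∧ eT f ∈ O ∧ eT f ≠ 0 ∧ (eT f)⁻¹ ∉ O ∧ eW f ∈ O ∧
      ∃ r ∈ O, r⁻¹ ∈ O ∧ r ≠ 0 ∧ eX f = ((eT f) ^ 2 * r)⁻¹ := by
  obtain ⟨hX, hY, hu, hr, he⟩ := near_facts hO hf h h'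
  have ht2 : eT f ^ 2 = (eX f)⁻¹ * (1 + (eX f)⁻¹ ^ 3)⁻¹ := by
    unfold eT
    rw [div_pow, he]
    have := hr.2.1
    rw [div_eq_iff (mul_ne_zero (pow_ne_zero 3 hX) hr.2.1)]
    generalize hR : 1 + (eX f)⁻¹ ^ 3 = R at *
    field_simp
  have hw2 : eW f ^ 2 = (eX f)⁻¹ ^ 3 * (1 + (eX f)⁻¹ ^ 3)⁻¹ := by
    unfold eW
    rw [inv_pow, he, mul_inv, inv_pow]
  have ht0 : eT f ≠ 0 := div_ne_zero hX hY
  have htO : eT f ∈ O := hO.int _ (by rw [ht2]; exact O.mul_mem h' hr.2.2)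
  have hXt : eX f = ((eT f) ^ 2 * (1 + (eX f)⁻¹ ^ 3))⁻¹ := by
    rw [ht2, inv_mul_cancel_right₀ hr.2.1, inv_inv]
  refine ⟨hY, htO, ht0, ?_, ?_, _, hr.1, hr.2.2, hr.2.1, hXt⟩
  · intro h1
    apply h
    rw [hXt, mul_inv, ← inv_pow]
    exact O.mul_mem (O.pow_mem h1 2) hr.2.2
  · refine hO.int _ ?_
    rw [hw2]
    exact O.mul_mem (O.pow_mem h' 3) hr.2.2

include hO in
theorem v_near {f : EPt F} (hf : f ≠ 0) (h : eX f ∉ O) (h' : (eX f)⁻¹ ∈ O) (D : DV k F)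
    (hD : ∀ x ∈ O, D.ge 0 x) : D.v (eT f) = D.iE f := by
  obtain ⟨-, htO, ht0, -, -, r, hr, hr', hr0, hX⟩ := near_aux hO hf h h'
  have h1 := D.le_of_ge ht0 (hD _ htO)
  have h2 := D.le_of_ge hr0 (hD _ hr)
  have h3 := D.le_of_ge (inv_ne_zero hr0) (hD _ hr')
  rw [D.inv hr0] at h3
  unfold DV.iE
  rw [hX, D.inv (mul_ne_zero (pow_ne_zero 2 ht0) hr0), D.mul (pow_ne_zero 2 ht0) hr0, D.pow ht0]
  push_cast
  omega

include hO in
omit [CharZero k] [CharZero F] in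
private theorem slope_aux {s z : F} (hs : s ∈ O ∨ (s ≠ 0 ∧ NonU O s⁻¹)) (hz : z ∈ O) :
    s ^ 2 - z ∈ O ∨ (s ^ 2 - z)⁻¹ ∈ O := by
  rcases hs with h | ⟨h0, h⟩
  · exact Or.inl (O.sub_mem (O.pow_mem h 2) hz)
  · right
    have h1 : Uni O (1 + -(s⁻¹ ^ 2 * z)) :=
      Uni.add hO uni_one ((h.pow (by norm_num)).mul hz).neg
    have e : (s ^ 2 - z)⁻¹ = s⁻¹ ^ 2 * (1 + -(s⁻¹ ^ 2 * z))⁻¹ := by
      rw [← inv_inv (s⁻¹ ^ 2), ← mul_inv]
      congr 1
      field_simp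
      ring
    rw [e]
    exact O.mul_mem (O.pow_mem h.1 2) h1.2.2

include hO in
omit [CharZero k] [CharZero F] in
private theorem eY_mem {f : EPt F} (hf : eX f ∈ O) : eY f ∈ O := by
  by_cases h0 : f = 0
  · subst h0; exact O.zero_mem
  · refine hO.int _ ?_
    rw [eY_sq h0]
    exact O.add_mem (O.pow_mem hf 3) O.one_mem

include hO in
omit [CharZero k] [CharZero F] in
/-- if `Y` is a nonunit then `X` is a unit -/
private theorem X_uni {f : EPt F} (h0 : f ≠ 0) (hf : eX f ∈ O) (hY : NonU O (eY f)) :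
    Uni O (eX f) := by
  rcases uni_or hf with h | h
  · exact h
  · have h1 : Uni O (1 + eX f ^ 3) := Uni.add hO uni_one (h.pow (by norm_num))
    have h2 : 1 + eX f ^ 3 = eY f ^ 2 := by rw [eY_sq h0]; ring
    rw [h2] at h1
    exact (h1.not_nonU (hY.pow (by norm_num))).elim

include hO in
private theorem eOn_sub_aff {f g : EPt F} (hf0 : f ≠ 0) (hg0 : g ≠ 0) (hf : eX f ∈ O)
    (hg : eX g ∈ O) : EOn O (f - g) := by
  unfold EOn
  have hYf := eY_mem hO hf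
  have hYg := eY_mem hO hg
  by_cases hfg : f = g
  · subst hfg
    rw [sub_self]
    exact Or.inl O.zero_mem
  have u2 : Uni O (2 : F) := uni_ofNat hO
  have u3 : Uni O (3 : F) := uni_ofNat hO
  by_cases hX : eX f = eX g
  · have hPQ' : f = -g := ((eX_eq_iff hf0 hg0).1 hX).resolve_left hfg
    have hY : eY g = - eY f := by rw [hPQ', eY_neg, neg_neg]
    have hYne : eY f ≠ 0 := by
      intro h0
      refine hfg (ptE_ext hf0 hg0 hX ?_)
      rw [hY, h0, neg_zero]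
    have hsub : f - g = f + f := by
      rw [sub_eq_add_neg]
      congr 1
      rw [hPQ']
    have hdb := (doubleE hf0 hYne).2.1
    rw [hsub, hdb]
    refine slope_aux hO ?_ (O.mul_mem u2.1 hf)
    rcases uni_or hYf with h1 | h1
    · left
      rw [div_eq_mul_inv]
      exact O.mul_mem (O.mul_mem u3.1 (O.pow_mem hf 2)) (u2.mul h1).2.2
    · right
      have h2 := X_uni hO hf0 hf h1
      refine ⟨div_ne_zero (mul_ne_zero u3.2.1 (pow_ne_zero 2 h2.2.1))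
        (mul_ne_zero u2.2.1 hYne), ?_⟩
      rw [inv_div, div_eq_mul_inv, mul_comm (2 : F)]
      exact (h1.mul u2.1).mul (u3.mul (h2.pow 2)).2.2
  · have hsb := (subE hf0 hg0 hX).2.1
    have ha0 : eX f - eX g ≠ 0 := sub_ne_zero.2 hX
    rw [hsb, sub_sub]
    refine slope_aux hO ?_ (O.add_mem hf hg)
    have haO : eX f - eX g ∈ O := O.sub_mem hf hg
    have hbO : eY f + eY g ∈ O := O.add_mem hYf hYg
    have hcO : eY f - eY g ∈ O := O.sub_mem hYf hYg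
    have hdO : eX f ^ 2 + eX f * eX g + eX g ^ 2 ∈ O :=
      O.add_mem (O.add_mem (O.pow_mem hf 2) (O.mul_mem hf hg)) (O.pow_mem hg 2)
    have hrel : (eY f + eY g) * (eY f - eY g) =
        (eX f - eX g) * (eX f ^ 2 + eX f * eX g + eX g ^ 2) := by
      linear_combination eY_sq hf0 - eY_sq hg0
    rcases uni_or haO with h1 | h1
    · left
      rw [div_eq_mul_inv]
      exact O.mul_mem hbO h1.2.2
    rcases uni_or hcO with h2 | h2
    · left
      have e : (eY f + eY g) / (eX f - eX g) =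
          (eX f ^ 2 + eX f * eX g + eX g ^ 2) * (eY f - eY g)⁻¹ := by
        rw [div_eq_iff ha0, mul_right_comm, eq_mul_inv_iff_mul_eq₀ h2.2.1, hrel]
        ring
      rw [e]
      exact O.mul_mem hdO h2.2.2
    rcases uni_or hbO with h3 | h3
    · right
      refine ⟨div_ne_zero h3.2.1 ha0, ?_⟩
      rw [inv_div, div_eq_mul_inv]
      exact h1.mul h3.2.2
    · right
      have h4 : NonU O (eY f) := by
        have h5 := (NonU.add hO h3 h2).mul u2.2.2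
        have e : (eY f + eY g + (eY f - eY g)) * (2 : F)⁻¹ = eY f := by
          have := u2.2.1
          field_simp
          ring
        rwa [e] at h5
      have h5 := X_uni hO hf0 hf h4
      have h6 : Uni O (eX f ^ 2 + eX f * eX g + eX g ^ 2) := by
        have h7 : Uni O (3 * eX f ^ 2 + (eX f - eX g) * ((eX f - eX g) - 3 * eX f)) :=
          Uni.add hO (u3.mul (h5.pow 2)) (h1.mul (O.sub_mem haO (O.mul_mem u3.1 hf)))
        have e : 3 * eX f ^ 2 + (eX f - eX g) * ((eX f - eX g) - 3 * eX f) =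
            eX f ^ 2 + eX f * eX g + eX g ^ 2 := by ring
        rwa [e] at h7
      have h7 : (eY f + eY g) * (eY f - eY g) ≠ 0 := by
        rw [hrel]; exact mul_ne_zero ha0 h6.2.1
      have hb0 := (mul_ne_zero_iff.mp h7).1
      have hc0 := (mul_ne_zero_iff.mp h7).2
      refine ⟨div_ne_zero hb0 ha0, ?_⟩
      have e : ((eY f + eY g) / (eX f - eX g))⁻¹ =
          (eY f - eY g) * (eX f ^ 2 + eX f * eX g + eX g ^ 2)⁻¹ := by
        rw [inv_div, div_eq_iff hb0, mul_right_comm, eq_mul_inv_iff_mul_eq₀ h6.2.1, ← hrel]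
        ring
      rw [e]
      exact h2.mul h6.2.2

include hO in
private theorem eOn_sub_mix {f g : EPt F} (hf0 : f ≠ 0) (hg0 : g ≠ 0) (hf : eX f ∉ O)
    (hf' : (eX f)⁻¹ ∈ O) (hg : eX g ∈ O) : eX (f - g) ∈ O := by
  obtain ⟨hX, hY, hu, hr, he⟩ := near_facts hO hf0 hf hf'
  have hYg := eY_mem hO hg
  have u2 : Uni O (2 : F) := uni_ofNat hO
  have hne : eX f ≠ eX g := fun h => hf (h ▸ hg)
  have hd0 : eX f - eX g ≠ 0 := sub_ne_zero.mpr hne
  obtain ⟨-, hx, -⟩ := subE hf0 hg0 hne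
  have hPs := eY_sq hf0
  have hQs := eY_sq hg0
  have hyx : eY f / eX f ^ 2 ∈ O := by
    refine hO.int _ ?_
    have e : (eY f / eX f ^ 2) ^ 2 = (eX f)⁻¹ * (1 + (eX f)⁻¹ ^ 3) := by
      rw [div_pow, he, div_eq_iff (pow_ne_zero 2 (pow_ne_zero 2 hX))]
      field_simp
    rw [e]
    exact O.mul_mem hf' hr.1
  have hD : Uni O (1 + -((eX f)⁻¹ * eX g)) := Uni.add hO uni_one (hu.mul hg).neg
  have e2 : eX (f - g) = (2 * (eX f)⁻¹ ^ 2 + 2 * eY g * (eY f / eX f ^ 2) +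
      eX g * (1 + eX g * (eX f)⁻¹)) * ((1 + -((eX f)⁻¹ * eX g)) ^ 2)⁻¹ := by
    rw [eq_mul_inv_iff_mul_eq₀ (pow_ne_zero 2 hD.2.1), hx]
    field_simp
    linear_combination (eX f - eX g) ^ 2 * (hPs + hQs)
  rw [e2]
  refine O.mul_mem (O.add_mem (O.add_mem (O.mul_mem u2.1 (O.pow_mem hf' 2))
    (O.mul_mem (O.mul_mem u2.1 hYg) hyx)) (O.mul_mem hg (O.add_mem O.one_mem
    (O.mul_mem hg hf')))) (hD.pow 2).2.2

include hO in
theorem eOn_sub {f g : EPt F} (hf : EOn O f) (hg : EOn O g) : EOn O (f - g) := by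
  by_cases hf0 : f = 0
  · subst hf0
    unfold EOn
    rwa [zero_sub, eX_neg]
  by_cases hg0 : g = 0
  · subst hg0
    rwa [sub_zero]
  by_cases h1 : eX f ∈ O
  · by_cases h2 : eX g ∈ O
    · exact eOn_sub_aff hO hf0 hg0 h1 h2
    · left
      have h3 := eOn_sub_mix hO hg0 hf0 h2 (hg.resolve_left h2) h1
      rwa [← neg_sub, eX_neg]
  · by_cases h2 : eX g ∈ O
    · exact Or.inl (eOn_sub_mix hO hf0 hg0 h1 (hf.resolve_left h1) h2)
    · have hT : ∃ T : EPt F, T ≠ 0 ∧ eX T = 0 :=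
        ⟨mkE 0 1 (by norm_num), mkE_ne_zero _ _ _, rfl⟩
      obtain ⟨T, hT0, hTX⟩ := hT
      have hTn : eX (-T) ∈ O := by rw [eX_neg, hTX]; exact O.zero_mem
      have h3 : ∀ x : EPt F, x ≠ 0 → eX x ∉ O → (eX x)⁻¹ ∈ O → x + T ≠ 0 ∧ eX (x + T) ∈ O := by
        intro x hx0 hx hx'
        refine ⟨?_, ?_⟩
        · intro h4
          have h5 : x = -T := eq_neg_of_add_eq_zero_left h4
          exact hx (h5 ▸ hTn)
        · have := eOn_sub_mix hO hx0 (neg_ne_zeroE hT0) hx hx' hTn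
          rwa [sub_neg_eq_add] at this
      obtain ⟨a1, a2⟩ := h3 f hf0 h1 (hf.resolve_left h1)
      obtain ⟨b1, b2⟩ := h3 g hg0 h2 (hg.resolve_left h2)
      have := eOn_sub_aff hO a1 b1 a2 b2
      rwa [add_sub_add_right_eq_sub] at this

include hO in
theorem eOn_neg {f : EPt F} (hf : EOn O f) : EOn O (-f) := by
  unfold EOn at *
  rwa [eX_neg]

include hO in
theorem eOn_add {f g : EPt F} (hf : EOn O f) (hg : EOn O g) : EOn O (f + g) := by
  have := eOn_sub hO hf (eOn_neg hO hg)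
  rwa [sub_neg_eq_add] at this

end HB
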