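import Pool.Agent.HB.D.Glue
import Pool.Agent.HB.A.FacB
import Pool.Agent.HB.B.B5

/-!
# HB-D-Fin: for almost all curves the frame at `P` spans the lattice `Lam`

Plan.
* `finite_iB`: `iB (pt i) (pt j) ≠ 0` implies (definition of `iB`, `dmin`; see also `iB_supp` in
  `HB/F/Gam.lean`) that one of `x_i - x_j`, `x_i`, `x_j`, `y_i - y_j`, `y_i`, `y_j` (if nonzero) has nonzero
  order at `C`; use `Surf.finite_ord_ne_zero`.  The same for arbitrary points `p ≠ q` of `B`.
* `finite_NN`: `NN Z C.dv i ≠ 0` implies `iB (pt i) p ≠ 0` or `iB (pt i) q ≠ 0` or `iZero (pt i) ≠ 0` or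
  `iE (f i a) ≠ 0` or `iE (f' i a) ≠ 0` for some `a`; `iE f ≠ 0` implies `C.ord (eX f) ≠ 0` and
  `eX f ≠ 0` (`C.ord 0 = 0`, `PD.dv` has `zero`).
* `finite_latt`: let `C` be outside the two finite sets above (for all `i, j`), outside the curves where
  some nonzero element of `{u i, u i - u j (i ≠ j), d, d', nloc O_P i}` has nonzero order.  Then, with
  `D = C.dv`, `R = O_C`: `u i ∈ R` (`PD.dv_ge_zero`), `D.v (u i - u j) = 0 = iB`, `D.v d = 0`, etc., so
  `mem_latt_frame_iff` gives `latt R (frame ..) = {x | InL D (nloc O_P) x}` (no assumption on `P`, `C`), and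
  `InL D (nloc O_P) x ↔ InL D (nloc O_C) x` by `InL_congr` (`hv`: both sides `0` by `v_nlocC`; `hr`: no `i, j`
  with `0 < iB`).
-/

set_option autoImplicit false

open IsLocalRing
open scoped Matrix

namespace HB

variable {k K : Type} [Field k] [Field K] [Algebra k K] [CharZero k] [IsAlgClosed k] [CharZero K]
  {X : Surf k K}

omit [CharZero K] in
private theorem fin_aux (f : K) : {C : X.PD | f ≠ 0 ∧ C.ord f ≠ 0}.Finite := by
  by_cases hf : f = 0
  · subst hf; simp
  · exact (Surf.finite_ord_ne_zero hf).subset fun C hC => hC.2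

omit [CharZero k] [IsAlgClosed k] [CharZero K] in
private theorem not_ge_aux (D : DV k K) {f : K} (h : ¬ D.ge 0 f) : f ≠ 0 ∧ D.v f ≠ 0 := by
  unfold DV.ge at h
  push Not at h
  exact ⟨h.1, by have := h.2; omega⟩

omit [IsAlgClosed k] in
private theorem iB_supp (D : DV k K) {p q : BPt K} (hpq : p ≠ q)
    (h : D.iB p q ≠ 0) :
    (p.x - q.x ≠ 0 ∧ D.v (p.x - q.x) ≠ 0) ∨ (p.x ≠ 0 ∧ D.v p.x ≠ 0) ∨ (q.x ≠ 0 ∧ D.v q.x ≠ 0) ∨
      (p.y ≠ 0 ∧ D.v p.y ≠ 0) := by
  have h2L : (2 : K) ≠ 0 := two_ne_zero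
  by_cases hp : p.IsFin D
  · by_cases hq : q.IsFin D
    · have hgy := p.ge_y D hp
      have hgy' := q.ge_y D hq
      have hs := p.y_sq D hp
      have hs' := q.y_sq D hq
      have hne := BPt.coord_ne_fin D hpq hp hq
      unfold DV.iB at h
      rw [if_pos ⟨hp, hq⟩] at h
      by_cases hx : p.x - q.x = 0
      · have hxx : p.x = q.x := sub_eq_zero.1 hx
        have hyy : p.y ^ 2 = q.y ^ 2 := by rw [hs, hs', hxx]
        have hy0 : p.y - q.y ≠ 0 := hne.resolve_left (fun h0 => h0 hx)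
        rcases sq_eq_sq_iff_eq_or_eq_neg.1 hyy with h1 | h1
        · exact absurd (sub_eq_zero.2 h1) hy0
        · have h3 : p.y - q.y = 2 * p.y := by rw [h1]; ring
          rw [h3] at hy0
          have hy1 : p.y ≠ 0 := (mul_ne_zero_iff.1 hy0).2
          rw [hx, DV.dmin_zero_left] at h
          rw [h3, D.mul h2L hy1, D.ofNat, zero_add] at h
          exact Or.inr (Or.inr (Or.inr ⟨hy1, h⟩))
      · by_cases hv : D.v (p.x - q.x) = 0
        · exact absurd (D.dmin_eq_zero hx hv (D.ge_sub hgy hgy')) h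
        · exact Or.inl ⟨hx, hv⟩
    · exfalso
      apply h
      unfold DV.iB
      rw [if_neg (fun hh => hq hh.2), if_neg (fun hh => hh.1 hp)]
  · by_cases hq : q.IsFin D
    · exfalso
      apply h
      unfold DV.iB
      rw [if_neg (fun hh => hp hh.1), if_neg (fun hh => hh.2 hq)]
    · cases p with
      | aff x y hxy => exact Or.inr (Or.inl (not_ge_aux D hp))
      | inf e he =>
      cases q with
      | aff x' y' hxy' => exact Or.inr (Or.inr (Or.inl (not_ge_aux D hq)))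
      | inf e' he' =>
      exfalso
      unfold DV.iB at h
      rw [if_neg (fun hh => hp hh.1), if_pos ⟨hp, hq⟩] at h
      simp only [BPt.xh, BPt.yh, sub_zero, DV.dmin_zero_left] at h
      apply h
      have hee : e ^ 2 = e' ^ 2 := by rw [he, he']
      rcases sq_eq_sq_iff_eq_or_eq_neg.1 hee with h1 | h1
      · exact absurd (by subst h1; rfl) hpq
      · have h3 : e - e' = 2 * e := by rw [h1]; ring
        have he0 : e ≠ 0 := by intro h0; rw [h0] at he; simp at he
        have hve : D.v e = 0 := by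
          have := D.pow he0 2
          rw [he, D.one] at this
          push_cast at this
          omega
        rw [h3, D.mul h2L he0, D.ofNat, hve, zero_add]

theorem Surf.finite_iB {p q : BPt K} (hpq : p ≠ q) : {C : X.PD | C.dv.iB p q ≠ 0}.Finite := by
  refine ((fin_aux (p.x - q.x)).union ((fin_aux p.x).union ((fin_aux q.x).union
    (fin_aux p.y)))).subset ?_
  intro C hC
  exact iB_supp C.dv hpq hC

omit [CharZero K] in
private theorem Surf.finite_max (f : K) : {C : X.PD | max 0 (C.dv.v f) ≠ 0}.Finite := by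
  refine (fin_aux f).subset ?_
  intro C hC
  have h1 : max 0 (C.dv.v f) ≠ 0 := hC
  have h2 : C.dv.v f ≠ 0 := fun h0 => h1 (by rw [h0, max_self])
  exact ⟨fun h0 => h2 (by rw [h0]; exact C.dv.zero), h2⟩

theorem Surf.finite_iE (f : EPt K) : {C : X.PD | C.dv.iE f ≠ 0}.Finite := by
  refine (fin_aux (eX f)).subset ?_
  intro C hC
  have h1 : C.dv.iE f ≠ 0 := hC
  have h2 : C.dv.v (eX f) ≠ 0 := fun h0 => h1 (by
    unfold DV.iE
    rw [h0]
    rfl)
  exact ⟨fun h0 => h2 (by rw [h0]; exact C.dv.zero), h2⟩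

theorem Geo.finite_NN (G : Geo X) (Z : ZPair k) (i : Fin 5) :
    {C : X.PD | G.NN Z C.dv i ≠ 0}.Finite := by
  have h1 : {C : X.PD | C.dv.iB (G.pt i) (Z.p.map K) ≠ 0}.Finite :=
    Surf.finite_iB (G.pt_const i Z.hp)
  have h2 : {C : X.PD | C.dv.iB (G.pt i) (Z.q.map K) ≠ 0}.Finite :=
    Surf.finite_iB (G.pt_const i Z.hq)
  have h3 : {C : X.PD | C.dv.iZero (G.pt i) ≠ 0}.Finite := Surf.finite_max (G.pt i).x
  have h4 : (⋃ a : Fin 3, ({C : X.PD | C.dv.iE (G.f i a) ≠ 0} ∪
      {C : X.PD | C.dv.iE (G.f' i a) ≠ 0})).Finite :=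
    Set.finite_iUnion fun a => (Surf.finite_iE _).union (Surf.finite_iE _)
  refine (h1.union (h2.union (h3.union h4))).subset ?_
  intro C hC
  by_contra hcon
  simp only [Set.mem_union, Set.mem_setOf_eq, Set.mem_iUnion, not_or, not_not, not_exists] at hcon
  obtain ⟨e1, e2, e3, e4⟩ := hcon
  apply hC
  unfold Geo.NN
  rw [e1, e2, e3, Finset.sum_eq_zero fun a _ => by rw [(e4 a).1, (e4 a).2, add_zero]]
  norm_num

theorem Geo.finite_latt (hX : X.Smooth) (G : Geo X) (Z : ZPair k) {P : X.Pt} {u : Fin 5 → K}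
    {d d' : K} (hl : G.IsLoc P u d d') :
    {C : X.PD | latt C.1.toSubring (frame u (G.nloc Z P.1.toSubring) d d') ≠ G.Lam Z C}.Finite := by
  have t1 : (⋃ i : Fin 5, {C : X.PD | G.NN Z C.dv i ≠ 0}).Finite :=
    Set.finite_iUnion fun i => G.finite_NN Z i
  have t2 : (⋃ i : Fin 5, ⋃ j : Fin 5,
      {C : X.PD | i ≠ j ∧ C.dv.iB (G.pt i) (G.pt j) ≠ 0}).Finite := by
    refine Set.finite_iUnion fun i => Set.finite_iUnion fun j => ?_
    by_cases hij : i = j
    · subst hij
      simp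
    · exact (Surf.finite_iB (G.pt_ne hij)).subset fun C hC => hC.2
  have t3 : (⋃ i : Fin 5, ({C : X.PD | u i ≠ 0 ∧ C.ord (u i) ≠ 0} ∪
      {C : X.PD | G.nloc Z P.1.toSubring i ≠ 0 ∧ C.ord (G.nloc Z P.1.toSubring i) ≠ 0})).Finite :=
    Set.finite_iUnion fun i => (fin_aux _).union (fin_aux _)
  have t4 : (⋃ i : Fin 5, ⋃ j : Fin 5,
      {C : X.PD | u i - u j ≠ 0 ∧ C.ord (u i - u j) ≠ 0}).Finite :=
    Set.finite_iUnion fun i => Set.finite_iUnion fun j => fin_aux _
  refine (t1.union (t2.union (t3.union (t4.union ((fin_aux d).union (fin_aux d')))))).subset ?_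
  intro C hC
  by_contra hcon
  simp only [Set.mem_union, Set.mem_setOf_eq, Set.mem_iUnion, not_or, not_exists, not_and,
    not_not] at hcon
  obtain ⟨e1, e2, e3, e4, e5, e6⟩ := hcon
  apply hC
  have hR : ∀ f : K, f ∈ C.1.toSubring ↔ C.dv.ge 0 f := fun f => (C.dv_ge_zero f).symm
  have hpt : ∀ i j, i ≠ j → G.pt i ≠ G.pt j := fun i j h => G.pt_ne h
  have hn : ∀ i, G.nloc Z P.1.toSubring i ≠ 0 := fun i => G.nloc_ne hX Z P i
  ext x
  rw [G.mem_latt_frame_iff C.dv C.1.toSubring hR hpt hn ?_ ?_ hl.d_ne ?_ hl.d'_ne ?_ (G.iB02 C.dv)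
    (fun i j l h1 h2 h3 => G.iB_pairs hX C h1 h2 h3) x]
  · refine G.InL_congr C.dv hpt hn (fun i => G.nlocC_ne Z C i) (fun i => ?_) (fun i j hij h => ?_) x
    · rw [G.v_nlocC Z C i, e1 i, neg_zero]
      exact (e3 i).2 (hn i)
    · rw [e2 i j hij] at h
      exact absurd h (lt_irrefl _)
  · intro i
    rw [hR]
    by_cases h0 : u i = 0
    · exact Or.inl h0
    · exact Or.inr ((e3 i).1 h0).ge
  · intro i j hij
    refine ⟨hl.u_ne i j hij, ?_⟩
    rw [e2 i j hij]
    exact e4 i j (sub_ne_zero.2 (hl.u_ne i j hij))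
  · have h1 : C.dv.v d = 0 := e5 hl.d_ne
    rw [h1, e2 0 1 (by decide)]
    norm_num
  · have h1 : C.dv.v d' = 0 := e6 hl.d'_ne
    rw [h1, e2 2 1 (by decide)]
    norm_num

end HB
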