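import Pool.Agent.HB.D.Bundle

/-!
# HB-D-Flag: the flag of the bundle

Plan.  `flagMat i j = 1` if `i = ![3, 4, 1, 0, 2] j`, else `0`: a permutation matrix (`det ≠ 0`: its product with
its transpose is `1`, or `decide`-like: `Matrix.det_ne_zero_of_left_inverse`).  At `P` take
`T i j = FF P (![3, 4, 1, 0, 2] i) j`: `flagMat * T = FF P`, it is upper triangular (25 entries, `fin_cases`,
`simp [frame]`), with diagonal entries `n_3 (u_3 - u_0)(u_3 - u_1)(u_3 - u_2)(u_3 - u_4)`,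
`n_4 (u_4 - u_0)(u_4 - u_1)(u_4 - u_2)`, `n_1 (u_1 - u_0)(u_1 - u_2)`, `n_0 d (u_0 - u_2)`,
`n_2 d' (u_2 - u_0)`; their orders at the curves `C` through `P` (`C.ord = C.dv.v`, `PD.dv_v`) are given by
`v_nloc`, `u_val`, `d_val`, `d'_val` with `nonNeg_of_on`, and `iB34 = 0`, `iB02 = 0` (`iB_comm`).
-/

set_option autoImplicit false
set_option linter.unusedSectionVars false

open IsLocalRing
open scoped Matrix

namespace HB

variable {k K : Type} [Field k] [Field K] [Algebra k K] [CharZero k] [IsAlgClosed k] [CharZero K]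
  {X : Surf k K}

/-- The permutation matrix of the flag order `∞₊, ∞₋, 1, 0, 2`. -/
def flagMat (K : Type) [Field K] : Matrix (Fin 5) (Fin 5) K :=
  Matrix.of fun i j => if i = ![3, 4, 1, 0, 2] j then 1 else 0

private theorem flagMat_mul (A : Matrix (Fin 5) (Fin 5) K) :
    flagMat K * Matrix.of (fun i j => A ((![3, 4, 1, 0, 2] : Fin 5 → Fin 5) i) j) = A := by
  ext i j
  rw [Matrix.mul_apply, Fin.sum_univ_five]
  simp only [flagMat, Matrix.of_apply]
  fin_cases i <;> simp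

private theorem flagMat_det : (flagMat K).det ≠ 0 := by
  have h := flagMat_mul (K := K) (1 : Matrix (Fin 5) (Fin 5) K)
  exact Matrix.det_ne_zero_of_right_inverse h

theorem Geo.isFlag (hX : X.Smooth) (G : Geo X) (Z : ZPair k) (W : G.LocData) (D : Fin 5 → X.Div)
    (h0 : ∀ C : X.PD, D 0 C = G.NN Z C.dv 3 - C.dv.iB (G.pt 0) (G.pt 3) -
      C.dv.iB (G.pt 1) (G.pt 3) - C.dv.iB (G.pt 2) (G.pt 3))
    (h1 : ∀ C : X.PD, D 1 C = G.NN Z C.dv 4 - C.dv.iB (G.pt 0) (G.pt 4) -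
      C.dv.iB (G.pt 1) (G.pt 4) - C.dv.iB (G.pt 2) (G.pt 4))
    (h2 : ∀ C : X.PD, D 2 C = G.NN Z C.dv 1 - C.dv.iB (G.pt 0) (G.pt 1) -
      C.dv.iB (G.pt 2) (G.pt 1))
    (h3 : ∀ C : X.PD, 3 * D 3 C = 3 * G.NN Z C.dv 0 - C.dv.iB (G.pt 0) (G.pt 1))
    (h4 : ∀ C : X.PD, 3 * D 4 C = 3 * G.NN Z C.dv 2 - C.dv.iB (G.pt 2) (G.pt 1)) :
    IsFlag (G.bundle hX Z W).E (flagMat K) D := by
  refine ⟨flagMat_det, fun P => ?_⟩
  refine ⟨Matrix.of (fun i j => G.FF Z W P ((![3, 4, 1, 0, 2] : Fin 5 → Fin 5) i) j), ?_, ?_, ?_⟩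
  · rw [flagMat_mul]
    rfl
  · intro i j hij
    simp only [Matrix.of_apply, Geo.FF, frame]
    fin_cases i <;> fin_cases j <;> first | (exfalso; revert hij; decide) | simp
  · have hW := W.isLoc P
    have hn : ∀ i, G.nloc Z P.1.toSubring i ≠ 0 := G.nloc_ne hX Z P
    have hu : ∀ i j, i ≠ j → W.u P i - W.u P j ≠ 0 := fun i j h => sub_ne_zero.2 (hW.u_ne i j h)
    have vu : ∀ C : X.PD, Surf.On P C → ∀ i j, i ≠ j →
        C.ord (W.u P i - W.u P j) = C.dv.iB (G.pt i) (G.pt j) := fun C hC i j h =>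
      hW.u_val C.dv (Surf.nonNeg_of_on hC) i j h
    have vn : ∀ C : X.PD, Surf.On P C → ∀ i,
        C.ord (G.nloc Z P.1.toSubring i) = - G.NN Z C.dv i := fun C hC i =>
      G.v_nloc hX Z P C.dv (Surf.nonNeg_of_on hC) i
    have vm : ∀ (C : X.PD) {x y : K}, x ≠ 0 → y ≠ 0 → C.ord (x * y) = C.ord x + C.ord y :=
      fun C x y hx hy => C.dv.mul hx hy
    intro i
    fin_cases i
    · change X.IsEq (- D 0) P (G.nloc Z P.1.toSubring 3 * ((W.u P 3 - W.u P 0) *
        (W.u P 3 - W.u P 1) * (W.u P 3 - W.u P 2) * (W.u P 3 - W.u P 4)))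
      have n0 := hu 3 0 (by decide)
      have n1 := hu 3 1 (by decide)
      have n2 := hu 3 2 (by decide)
      have n4 := hu 3 4 (by decide)
      refine ⟨mul_ne_zero (hn 3) (mul_ne_zero (mul_ne_zero (mul_ne_zero n0 n1) n2) n4), ?_⟩
      intro C hC
      rw [vm C (hn 3) (mul_ne_zero (mul_ne_zero (mul_ne_zero n0 n1) n2) n4),
        vm C (mul_ne_zero (mul_ne_zero n0 n1) n2) n4, vm C (mul_ne_zero n0 n1) n2, vm C n0 n1,
        vn C hC, vu C hC 3 0 (by decide), vu C hC 3 1 (by decide), vu C hC 3 2 (by decide),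
        vu C hC 3 4 (by decide), G.iB34, C.dv.iB_comm (G.pt 3) (G.pt 0),
        C.dv.iB_comm (G.pt 3) (G.pt 1), C.dv.iB_comm (G.pt 3) (G.pt 2), Finsupp.neg_apply, h0 C]
      ring
    · change X.IsEq (- D 1) P (G.nloc Z P.1.toSubring 4 * ((W.u P 4 - W.u P 0) *
        (W.u P 4 - W.u P 1) * (W.u P 4 - W.u P 2)))
      have n0 := hu 4 0 (by decide)
      have n1 := hu 4 1 (by decide)
      have n2 := hu 4 2 (by decide)
      refine ⟨mul_ne_zero (hn 4) (mul_ne_zero (mul_ne_zero n0 n1) n2), ?_⟩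
      intro C hC
      rw [vm C (hn 4) (mul_ne_zero (mul_ne_zero n0 n1) n2), vm C (mul_ne_zero n0 n1) n2,
        vm C n0 n1, vn C hC, vu C hC 4 0 (by decide), vu C hC 4 1 (by decide),
        vu C hC 4 2 (by decide), C.dv.iB_comm (G.pt 4) (G.pt 0),
        C.dv.iB_comm (G.pt 4) (G.pt 1), C.dv.iB_comm (G.pt 4) (G.pt 2), Finsupp.neg_apply, h1 C]
      ring
    · change X.IsEq (- D 2) P (G.nloc Z P.1.toSubring 1 * ((W.u P 1 - W.u P 0) *
        (W.u P 1 - W.u P 2)))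
      have n0 := hu 1 0 (by decide)
      have n2 := hu 1 2 (by decide)
      refine ⟨mul_ne_zero (hn 1) (mul_ne_zero n0 n2), ?_⟩
      intro C hC
      rw [vm C (hn 1) (mul_ne_zero n0 n2), vm C n0 n2, vn C hC, vu C hC 1 0 (by decide),
        vu C hC 1 2 (by decide), C.dv.iB_comm (G.pt 1) (G.pt 0),
        C.dv.iB_comm (G.pt 1) (G.pt 2), Finsupp.neg_apply, h2 C]
      ring
    · change X.IsEq (- D 3) P (G.nloc Z P.1.toSubring 0 * (W.d P * (W.u P 0 - W.u P 2)))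
      have n2 := hu 0 2 (by decide)
      have hd := hW.d_ne
      refine ⟨mul_ne_zero (hn 0) (mul_ne_zero hd n2), ?_⟩
      intro C hC
      have h5 := hW.d_val C.dv (Surf.nonNeg_of_on hC)
      rw [Surf.PD.dv_v] at h5
      have h6 := h3 C
      rw [vm C (hn 0) (mul_ne_zero hd n2), vm C hd n2, vn C hC, vu C hC 0 2 (by decide),
        G.iB02, Finsupp.neg_apply]
      omega
    · change X.IsEq (- D 4) P (G.nloc Z P.1.toSubring 2 * (W.d' P * (W.u P 2 - W.u P 0)))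
      have n0 := hu 2 0 (by decide)
      have hd := hW.d'_ne
      refine ⟨mul_ne_zero (hn 2) (mul_ne_zero hd n0), ?_⟩
      intro C hC
      have h5 := hW.d'_val C.dv (Surf.nonNeg_of_on hC)
      rw [Surf.PD.dv_v] at h5
      have h6 := h4 C
      rw [vm C (hn 2) (mul_ne_zero hd n0), vm C hd n0, vn C hC, vu C hC 2 0 (by decide),
        C.dv.iB_comm (G.pt 2) (G.pt 0), G.iB02, Finsupp.neg_apply]
      omega

end HB
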