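import Pool.Agent.HB.D.GlueB
import Pool.Agent.HB.B.EInt
import Pool.Agent.HB.B.EMix
import Pool.Agent.HB.B.EInf
import Pool.Agent.HB.B.Pi

/-!
# HB-D-GlueE: comparison of the local generators `eloc` at `O_P` and at `O_C`

Setting: `R` = valuation ring of `D` (`hR`), `O ≤ R` a local subring, integrally closed
(`hint`), such that an element of `O` which is not a unit of `R` is not a unit of `O` (`hOR`); `hloc`:
the nonunits of `O` are closed under addition.  (`O = O_P`, `R = O_C`, `C` through `P`.)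

Plan for `eloc_pair` (`f, g ≠ 0` points of `E(K)` with `f = g` or `D.iE (f - g) ≥ e ≥ 1`).
If `f = g`: the two ratios are equal, only the unit property is needed.
* at `D`: `eX f ∈ R` iff `eX g ∈ R` (`DV.iE_sub_mix`: otherwise `iE (f - g) = 0`).
* at `O`: `eX f ∈ O` iff `eX g ∈ O`.  Suppose `eX f ∈ O`, `eX g ∉ O`; then `(eX g)⁻¹` is a nonunit of `O`.
  `eX f ∈ R`, so `eX g ∈ R` and `D.iE (f - g) = dmin (eX f - eX g) (eY f - eY g)`
  (`DV.iE_sub_int`), so `eX f - eX g` is a nonunit of `R`, and so is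
  `(eX f) (eX g)⁻¹ - 1 ∈ O`, hence it is a nonunit of `O`, but `(eX f) (eX g)⁻¹` is a nonunit of `O` too,
  so `1` is: contradiction.
* cases: `eX f ∈ O`: then `∈ R`, both ratios are `1/1`.  `eX f ∉ R`: then `∉ O`, the ratios are
  `eT f / eT f = 1` (`eT f ≠ 0`: `DV.v_eT`).  `eX f ∉ O`, `eX f ∈ R`: the ratios are `eT f`, `eT g`.
  `(eX f)⁻¹` is a nonunit of `O`, in particular in `R`, so `D.v (eX f) = 0`.
  `(eT f)² = (eX f)² / ((eX f)³ + 1) = (eX f)⁻¹ / (1 + (eX f)⁻³)` is in `O` (`1 + nonunit` is a unit of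
  `O`), so `eT f ∈ O` (`hint`), `D.v (eX f) - D.v (eY f) ≥ 0`, and `eY f ∈ R`
  (`eY² = eX³ + 1`), so `D.v (eY f) = 0`, `D.v (eT f) = 0`.  The difference:
  `X/Y - X'/Y' = (X - X')/Y + X' (Y' - Y)/(Y Y')` with `D.ge e` of `X - X'`, `Y - Y'` (`iE_sub_int`,
  `le_dmin`).
`pi_close`, `pi'_close`: `D.iE (π p - π q) ≥ D.iB p q` from `HB/B/Pi.lean`
(`i(π p - π q) = i(p,q) + i(p, σ q)`; look there for the exact form; all terms are `≥ 0`).
-/

set_option autoImplicit false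

open IsLocalRing
open scoped Matrix

namespace HB

variable {k K : Type} [Field k] [CharZero k] [Field K] [Algebra k K]

omit [Field k] [CharZero k] [Algebra k K] in
private theorem nonU_mul {O : Subring K} {a b : K} (ha : NonU O a) (hb : b ∈ O) :
    NonU O (a * b) := by
  refine ⟨O.mul_mem ha.1 hb, ?_⟩
  by_cases h0 : a * b = 0
  · exact Or.inl h0
  · right
    intro h1
    have ha0 : a ≠ 0 := left_ne_zero_of_mul h0
    have hb0 : b ≠ 0 := right_ne_zero_of_mul h0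
    rcases ha.2 with h2 | h2
    · exact ha0 h2
    · apply h2
      have h3 : a⁻¹ = b * (a * b)⁻¹ := by
        field_simp
      rw [h3]
      exact O.mul_mem hb h1

omit [Field k] [CharZero k] [Algebra k K] in
private theorem nonU_neg {O : Subring K} {a : K} (ha : NonU O a) : NonU O (-a) := by
  have h := nonU_mul ha (b := -1) (O.neg_mem O.one_mem)
  have h1 : a * (-1) = -a := by ring
  rwa [h1] at h

omit [Field k] [CharZero k] [Algebra k K] in
private theorem not_nonU_one {O : Subring K} : ¬ NonU O (1 : K) := by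
  rintro ⟨-, h | h⟩
  · exact one_ne_zero h
  · rw [inv_one] at h
    exact h O.one_mem

omit [Field k] [CharZero k] [Algebra k K] in
private theorem nonU_inv {O : Subring K} {a : K} (ha : a ∉ O) (hb : a⁻¹ ∈ O) : NonU O a⁻¹ := by
  refine ⟨hb, Or.inr ?_⟩
  rwa [inv_inv]

omit [CharZero k] in
private theorem nonU_R {D : DV k K} {O R : Subring K} (h : Pair k D O R) {a : K}
    (ha : D.ge 1 a) : NonU R a := by
  refine ⟨(h.hR a).2 (D.ge_mono (by norm_num) ha), ?_⟩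
  by_cases h0 : a = 0
  · exact Or.inl h0
  · right
    intro h1
    have h2 := D.le_of_ge (inv_ne_zero h0) ((h.hR _).1 h1)
    rw [D.inv h0] at h2
    have h3 := D.le_of_ge h0 ha
    omega

omit [CharZero k] in
private theorem notR {D : DV k K} {O R : Subring K} (h : Pair k D O R) {f : EPt K}
    (hf : eX f ∉ R) : D.v (eX f) < 0 := by
  rcases D.ge_or_pole (P := f) with h1 | h1
  · exact absurd ((h.hR _).2 h1) hf
  · exact h1

omit [CharZero k] in
private theorem unit_of_mem {D : DV k K} {O R : Subring K} (h : Pair k D O R) {a : K}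
    (ha0 : a ≠ 0) (ha : a ∈ R) (hb : a⁻¹ ∈ R) : D.v a = 0 := by
  have h1 := D.le_of_ge ha0 ((h.hR _).1 ha)
  have h2 := D.le_of_ge (inv_ne_zero ha0) ((h.hR _).1 hb)
  rw [D.inv ha0] at h2
  omega

private theorem diffs {D : DV k K} {O R : Subring K} (h : Pair k D O R) {e : ℤ} (he : 1 ≤ e)
    {f g : EPt K} (hf : f ≠ 0) (hg : g ≠ 0) (hne : f ≠ g) (hfg : e ≤ D.iE (f - g))
    (hx : eX f ∈ R) : eX g ∈ R ∧ D.ge e (eX f - eX g) ∧ D.ge e (eY f - eY g) := by
  have hx0 : D.ge 0 (eX f) := (h.hR _).1 hx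
  have hy0 : D.ge 0 (eX g) := by
    rcases D.ge_or_pole (P := g) with h1 | h1
    · exact h1
    · have h2 := (D.iE_sub_mix hg hf h1 hx0).1
      rw [D.iE_sub_comm] at h2
      omega
  refine ⟨(h.hR _).2 hy0, ?_⟩
  have h3 := D.iE_sub_int hf hg hne hx0 hy0
  rw [h3] at hfg
  refine (D.le_dmin ?_ e).1 hfg
  by_contra hc
  rw [not_or, not_not, not_not] at hc
  exact hne (ptE_ext hf hg (sub_eq_zero.1 hc.1) (sub_eq_zero.1 hc.2))

private theorem transfer {D : DV k K} {O R : Subring K} (h : Pair k D O R) {e : ℤ} (he : 1 ≤ e)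
    {f g : EPt K} (hf : f ≠ 0) (hg : g ≠ 0) (hne : f ≠ g) (hfg : e ≤ D.iE (f - g))
    (hx : eX f ∈ O) (hg' : eX g ∈ O ∨ (eX g)⁻¹ ∈ O) : eX g ∈ O := by
  by_contra hc
  have hi : (eX g)⁻¹ ∈ O := hg'.resolve_left hc
  have hg0 : eX g ≠ 0 := fun h0 => hc (by rw [h0]; exact O.zero_mem)
  have hN := nonU_inv hc hi
  obtain ⟨-, hd, -⟩ := diffs h he hf hg hne hfg (h.le hx)
  have hi0 : D.ge 0 ((eX g)⁻¹) := (h.hR _).1 (h.le hi)
  have h1 : eX f * (eX g)⁻¹ - 1 = (eX f - eX g) * (eX g)⁻¹ := by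
    field_simp
  have h2 : D.ge 1 (eX f * (eX g)⁻¹ - 1) := by
    rw [h1]
    have := D.ge_mul (D.ge_mono he hd) hi0
    simpa using this
  have hmem : eX f * (eX g)⁻¹ - 1 ∈ O := O.sub_mem (O.mul_mem hx hi) O.one_mem
  have h3 : NonU O (eX f * (eX g)⁻¹ - 1) := h.hOR _ (nonU_R h h2) hmem
  have h4 : NonU O (eX f * (eX g)⁻¹) := by
    rw [mul_comm]
    exact nonU_mul hN hx
  have h5 := h.hloc _ _ h4 (nonU_neg h3)
  have h6 : eX f * (eX g)⁻¹ + -(eX f * (eX g)⁻¹ - 1) = 1 := by ring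
  rw [h6] at h5
  exact not_nonU_one h5

omit [CharZero k] in
private theorem midunit {D : DV k K} {O R : Subring K} (h : Pair k D O R)
    {f : EPt K} (hf : f ≠ 0) (hx : eX f ∉ O) (hi : (eX f)⁻¹ ∈ O) (hR : eX f ∈ R) :
    eX f ≠ 0 ∧ D.v (eX f) = 0 ∧ eY f ≠ 0 ∧ D.v (eY f) = 0 := by
  have hX0 : eX f ≠ 0 := fun h0 => hx (by rw [h0]; exact O.zero_mem)
  have hvX : D.v (eX f) = 0 := unit_of_mem h hX0 hR (h.le hi)
  have hN := nonU_inv hx hi
  have hN3 : NonU O (((eX f)⁻¹) ^ 3) := by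
    have h1 : ((eX f)⁻¹) ^ 3 = (eX f)⁻¹ * ((eX f)⁻¹ * (eX f)⁻¹) := by ring
    rw [h1]
    exact nonU_mul hN (O.mul_mem hi hi)
  have hmem : 1 + ((eX f)⁻¹) ^ 3 ∈ O := O.add_mem O.one_mem hN3.1
  have hnot : ¬ NonU O (1 + ((eX f)⁻¹) ^ 3) := by
    intro hc
    have h2 := h.hloc _ _ hc (nonU_neg hN3)
    have h3 : 1 + ((eX f)⁻¹) ^ 3 + -(((eX f)⁻¹) ^ 3) = 1 := by ring
    rw [h3] at h2
    exact not_nonU_one h2
  have hu0 : 1 + ((eX f)⁻¹) ^ 3 ≠ 0 := fun h0 => hnot ⟨hmem, Or.inl h0⟩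
  have huinv : (1 + ((eX f)⁻¹) ^ 3)⁻¹ ∈ O := by
    by_contra hc
    exact hnot ⟨hmem, Or.inr hc⟩
  have hvu : D.v (1 + ((eX f)⁻¹) ^ 3) = 0 :=
    unit_of_mem h hu0 (h.le hmem) (h.le huinv)
  have hsq : eY f ^ 2 = eX f ^ 3 * (1 + ((eX f)⁻¹) ^ 3) := by
    rw [eY_sq hf]
    field_simp
  have hne : eY f ^ 2 ≠ 0 := by
    rw [hsq]
    exact mul_ne_zero (pow_ne_zero 3 hX0) hu0
  have hY0 : eY f ≠ 0 := fun h0 => hne (by rw [h0]; ring)
  refine ⟨hX0, hvX, hY0, ?_⟩
  have hv : D.v (eY f ^ 2) = 0 := by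
    rw [hsq, D.mul (pow_ne_zero 3 hX0) hu0, D.pow hX0, hvX, hvu]
    norm_num
  rw [D.pow hY0] at hv
  push_cast at hv
  omega

omit [Field k] [CharZero k] [Algebra k K] in
private theorem eloc_mem {O : Subring K} {f : EPt K} (hx : eX f ∈ O) : eloc O f = 1 := by
  unfold eloc
  rw [if_pos (Or.inr hx)]

omit [Field k] [CharZero k] [Algebra k K] in
private theorem eloc_not {O : Subring K} {f : EPt K} (hf : f ≠ 0) (hx : eX f ∉ O) :
    eloc O f = eT f := by
  unfold eloc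
  rw [if_neg]
  rintro (h | h)
  · exact hf h
  · exact hx h

private theorem eloc_unit {D : DV k K} {O R : Subring K} (h : Pair k D O R)
    {f : EPt K} (hf : f ≠ 0) (hf' : eX f ∈ O ∨ (eX f)⁻¹ ∈ O) :
    eloc O f / eloc R f ≠ 0 ∧ D.v (eloc O f / eloc R f) = 0 := by
  by_cases hx : eX f ∈ O
  · rw [eloc_mem hx, eloc_mem (h.le hx), div_one]
    exact ⟨one_ne_zero, D.one⟩
  · by_cases hR : eX f ∈ R
    · obtain ⟨hX0, hvX, hY0, hvY⟩ := midunit h hf hx (hf'.resolve_left hx) hR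
      rw [eloc_not hf hx, eloc_mem hR, div_one]
      unfold eT
      refine ⟨div_ne_zero hX0 hY0, ?_⟩
      rw [D.div hX0 hY0, hvX, hvY, sub_zero]
    · rw [eloc_not hf hx, eloc_not hf hR]
      have h1 := (D.v_eT hf (notR h hR)).1
      rw [div_self h1]
      exact ⟨one_ne_zero, D.one⟩

omit [Field k] [CharZero k] [Algebra k K] in
private theorem mkE_congrG [CharZero K] {x y x' y' : K} {h : y ^ 2 = x ^ 3 + 1}
    {h' : y' ^ 2 = x' ^ 3 + 1} (hx : x = x') (hy : y = y') : mkE x y h = mkE x' y' h' := by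
  subst hx; subst hy; rfl

omit [Field k] [CharZero k] [Algebra k K] in
private theorem pi_sigG [CharZero K] (q : BPt K) : q.sig.pi = q.pi := by
  match q with
  | .aff x y h =>
    exact mkE_congrG (h := by rw [h]; ring) (h' := by rw [h]; ring) (neg_sq x) rfl
  | .inf e h => rfl

theorem eloc_pair {D : DV k K} {O R : Subring K} (h : Pair k D O R) {e : ℤ} (he : 1 ≤ e)
    {f g : EPt K} (hf : f ≠ 0) (hg : g ≠ 0) (hfg : f = g ∨ e ≤ D.iE (f - g))
    (hf' : eX f ∈ O ∨ (eX f)⁻¹ ∈ O) (hg' : eX g ∈ O ∨ (eX g)⁻¹ ∈ O) :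
    PairU D e (eloc O f / eloc R f) (eloc O g / eloc R g) := by
  obtain ⟨f0, fv⟩ := eloc_unit h hf hf'
  obtain ⟨g0, gv⟩ := eloc_unit h hg hg'
  refine ⟨f0, g0, fv, gv, ?_⟩
  by_cases hne : f = g
  · left
    rw [hne, sub_self]
  have hi : e ≤ D.iE (f - g) := hfg.resolve_left hne
  have hi' : e ≤ D.iE (g - f) := by rwa [D.iE_sub_comm]
  have hne' : g ≠ f := fun h' => hne h'.symm
  by_cases hx : eX f ∈ O
  · have hy := transfer h he hf hg hne hi hx hg'
    rw [eloc_mem hx, eloc_mem (h.le hx), eloc_mem hy, eloc_mem (h.le hy), sub_self]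
    exact Or.inl rfl
  · have hy : eX g ∉ O := fun hy => hx (transfer h he hg hf hne' hi' hy hf')
    by_cases hR : eX f ∈ R
    · obtain ⟨hR', hdX, hdY⟩ := diffs h he hf hg hne hi hR
      obtain ⟨hX0, hvX, hY0, hvY⟩ := midunit h hf hx (hf'.resolve_left hx) hR
      obtain ⟨hX0', hvX', hY0', hvY'⟩ := midunit h hg hy (hg'.resolve_left hy) hR'
      rw [eloc_not hf hx, eloc_mem hR, eloc_not hg hy, eloc_mem hR', div_one, div_one]
      unfold eT
      have h1 : eX f / eY f - eX g / eY g =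
          (eX f - eX g) * (eY f)⁻¹ + (-(eY f - eY g)) * (eX g * ((eY f)⁻¹ * (eY g)⁻¹)) := by
        field_simp
        ring
      rw [h1]
      have i1 : D.ge 0 ((eY f)⁻¹) := Or.inr (by rw [D.inv hY0, hvY]; norm_num)
      have i2 : D.ge 0 ((eY g)⁻¹) := Or.inr (by rw [D.inv hY0', hvY']; norm_num)
      have i3 : D.ge 0 (eX g) := Or.inr hvX'.ge
      have i4 : D.ge 0 (eX g * ((eY f)⁻¹ * (eY g)⁻¹)) := by
        have h2 := D.ge_mul i1 i2
        have h3 := D.ge_mul i3 h2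
        simpa using h3
      have i5 := D.ge_mul hdX i1
      have i6 := D.ge_mul (D.ge_neg hdY) i4
      rw [add_zero] at i5 i6
      exact D.ge_add i5 i6
    · have hR' : eX g ∉ R := fun hR' => hR (diffs h he hg hf hne' hi' hR').1
      rw [eloc_not hf hx, eloc_not hf hR, eloc_not hg hy, eloc_not hg hR',
        div_self (D.v_eT hf (notR h hR)).1, div_self (D.v_eT hg (notR h hR')).1, sub_self]
      exact Or.inl rfl

theorem pi_close [CharZero K] (D : DV k K) {p q : BPt K} (hpq : p ≠ q) :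
    p.pi = q.pi ∨ D.iB p q ≤ D.iE (p.pi - q.pi) := by
  by_cases h : p.pi = q.pi
  · exact Or.inl h
  · right
    rw [D.iE_pi_sub h]
    have h1 : p ≠ q.sig := fun h' => h (by rw [h', pi_sigG])
    have h2 := D.iB_nonneg h1
    omega

theorem pi'_close [CharZero K] (D : DV k K) {p q : BPt K} (hpq : p ≠ q) :
    p.pi' = q.pi' ∨ D.iB p q ≤ D.iE (p.pi' - q.pi') := by
  by_cases h : p.pi' = q.pi'
  · exact Or.inl h
  · right
    rw [D.iE_pi'_sub h]
    have h1 : p ≠ q.sig' := fun h' => h (by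
      rw [h']
      change q.sig'.swap.pi = q.swap.pi
      rw [← BPt.sig_swap, pi_sigG])
    have h2 := D.iB_nonneg h1
    omega

end HB
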