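import Pool.Agent.HB.D.Defs
import Pool.Agent.HB.E2.PolyLatt
import Pool.Agent.HB.B.BB

/-!
# HB-D-InLatt: the frame spans the lattice `InL` if the clusters are pairs

`frame u n d d' = E2.fr n u d d'` (by `rfl`), so `E2.mem_latt_fr` describes the lattice by
polynomials `f ∈ R[X]`: `x i = n i * f (u i)`, `f (u 0) ∈ d R`, `f (u 2) ∈ d' R`.
Notation `z i = x i / n i`; `ge m w` for `m ≥ 0` is divisibility: if `D.v c = m`, `c ≠ 0`, then
`D.ge m w` iff `w / c ∈ R` (`hR`).  `3 * D.v d = iB 0 1`, so `iB 0 1 / 3 = D.v d`.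
Plan.
* `->`: `f (u i) ∈ R`; `f (u i) - f (u j)` is divisible by `u i - u j` in `R`
  (`Polynomial.sub_dvd_eval_sub` in `R`), of order `iB i j`.
* `<-`: Newton interpolation.  Let `U i ∈ R` be `u i`.
  General step: let `g ∈ R[X]`, `m` a product of factors `X - C (U i)`, `i ∈ J`, and `r ∉ J` with
  `g (u i) = z i` for `i ∈ J`.  Then there is `c ∈ R` with
  `(g + C c * m) (u r) = z r`: at most one of the factors `u r - u i`, `i ∈ J`, has positive order
  (`hp`), the others are units of `R`; if none has, `c = (z r - g (u r)) / m (u r)`; if `u r - u i` has,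
  then `z r - g (u r) = (z r - z i) - (g (u r) - g (u i))` is divisible by `u r - u i`.
-/

set_option autoImplicit false

open IsLocalRing
open scoped Matrix

namespace HB

variable {k K : Type} [Field k] [Field K] [Algebra k K]

namespace InLatt

open Polynomial

private theorem ge_iff_div (D : DV k K) (R : Subring K) (hR : ∀ f, f ∈ R ↔ D.ge 0 f) {c : K}
    (hc : c ≠ 0) (w : K) : D.ge (D.v c) w ↔ ∃ b ∈ R, w = c * b := by
  constructor
  · intro h
    refine ⟨w / c, ?_, by field_simp⟩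
    rw [hR]
    rcases h with h | h
    · left
      rw [h, zero_div]
    · by_cases hw : w = 0
      · left
        rw [hw, zero_div]
      · right
        rw [D.div hw hc]
        omega
  · rintro ⟨b, hb, rfl⟩
    have h1 := D.ge_mul (D.ge_of_le (le_refl (D.v c))) ((hR b).1 hb)
    rwa [add_zero] at h1

private theorem eval_mem (R : Subring K) (f : R[X]) {a : K} (ha : a ∈ R) :
    f.eval₂ R.subtype a ∈ R := by
  have h1 : f.eval₂ R.subtype a = ((f.eval (⟨a, ha⟩ : R) : R) : K) :=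
    Polynomial.eval₂_at_apply (p := f) R.subtype (⟨a, ha⟩ : R)
  rw [h1]
  exact (f.eval (⟨a, ha⟩ : R)).2

private theorem eval_sub (R : Subring K) (f : R[X]) {a b : K} (ha : a ∈ R) (hb : b ∈ R) :
    ∃ c ∈ R, f.eval₂ R.subtype a - f.eval₂ R.subtype b = (a - b) * c := by
  have h1 : f.eval₂ R.subtype a = ((f.eval (⟨a, ha⟩ : R) : R) : K) :=
    Polynomial.eval₂_at_apply (p := f) R.subtype (⟨a, ha⟩ : R)
  have h2 : f.eval₂ R.subtype b = ((f.eval (⟨b, hb⟩ : R) : R) : K) :=
    Polynomial.eval₂_at_apply (p := f) R.subtype (⟨b, hb⟩ : R)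
  obtain ⟨c, hc⟩ := Polynomial.sub_dvd_eval_sub (⟨a, ha⟩ : R) (⟨b, hb⟩ : R) f
  refine ⟨c, c.2, ?_⟩
  rw [h1, h2]
  have := congrArg (fun t : R => (t : K)) hc
  simpa using this

/-- Newton interpolation. -/
private theorem interp (D : DV k K) (R : Subring K) (hR : ∀ f, f ∈ R ↔ D.ge 0 f)
    {u : Fin 5 → K} (z : Fin 5 → K) (w : Fin 5 → Fin 5 → ℤ) (hws : ∀ i j, w i j = w j i)
    (hu : ∀ i, u i ∈ R)
    (hu' : ∀ i j, i ≠ j → u i ≠ u j ∧ D.v (u i - u j) = w i j)
    (hp : ∀ i j l, i ≠ j → j ≠ l → i ≠ l → w i j = 0 ∨ w j l = 0)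
    (h0 : ∀ i, D.ge 0 (z i)) (h1 : ∀ i j, i ≠ j → D.ge (w i j) (z i - z j))
    (J : Finset (Fin 5)) : ∃ g : R[X], ∀ i ∈ J, g.eval₂ R.subtype (u i) = z i := by
  classical
  induction J using Finset.induction_on with
  | empty => exact ⟨0, by simp⟩
  | insert r J hr ih =>
    obtain ⟨g, hg⟩ := ih
    let m : R[X] := ∏ i ∈ J, (X - C (⟨u i, hu i⟩ : R))
    have hm : ∀ t : K, m.eval₂ R.subtype t = ∏ i ∈ J, (t - u i) := by
      intro t
      simp only [m]
      rw [Polynomial.eval₂_finsetProd]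
      refine Finset.prod_congr rfl fun i _ => ?_
      simp
    have hne : ∀ i ∈ J, u r - u i ≠ 0 := by
      intro i hi
      have : r ≠ i := fun h => hr (h ▸ hi)
      exact sub_ne_zero.2 (hu' r i this).1
    have hm0 : m.eval₂ R.subtype (u r) ≠ 0 := by
      rw [hm]
      exact Finset.prod_ne_zero_iff.2 hne
    have hvm : ∀ S ⊆ J, D.v (∏ i ∈ S, (u r - u i)) = ∑ i ∈ S, w r i := by
      intro S
      induction S using Finset.induction_on with
      | empty => intro _; simpa using D.one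
      | insert a S ha ih2 =>
        intro hS
        rw [Finset.prod_insert ha, Finset.sum_insert ha]
        have haJ : a ∈ J := hS (Finset.mem_insert_self a S)
        have hSJ : S ⊆ J := fun b hb => hS (Finset.mem_insert_of_mem hb)
        rw [D.mul (hne a haJ) (Finset.prod_ne_zero_iff.2 fun b hb => hne b (hSJ hb)), ih2 hSJ]
        have : r ≠ a := fun h => hr (h ▸ haJ)
        rw [(hu' r a this).2]
    have hge : D.ge (D.v (m.eval₂ R.subtype (u r))) (z r - g.eval₂ R.subtype (u r)) := by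
      rw [hm, hvm J (Finset.Subset.refl J)]
      have hgR : D.ge 0 (g.eval₂ R.subtype (u r)) := (hR _).1 (eval_mem R g (hu r))
      by_cases hall : ∀ i ∈ J, w r i = 0
      · rw [Finset.sum_eq_zero hall]
        exact D.ge_sub (h0 r) hgR
      · push Not at hall
        obtain ⟨i, hi, hwi⟩ := hall
        have hri : r ≠ i := fun h => hr (h ▸ hi)
        have hsum : ∑ j ∈ J, w r j = w r i := by
          refine Finset.sum_eq_single i ?_ (fun h => absurd hi h)
          intro j hj hji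
          have hrj : r ≠ j := fun h => hr (h ▸ hj)
          rcases hp i r j hri.symm hrj hji.symm with h | h
          · exact absurd ((hws r i).trans h) hwi
          · exact h
        rw [hsum]
        have e : z r - g.eval₂ R.subtype (u r) =
            (z r - z i) - (g.eval₂ R.subtype (u r) - g.eval₂ R.subtype (u i)) := by
          rw [hg i hi]
          ring
        rw [e]
        refine D.ge_sub (h1 r i hri) ?_
        rw [← (hu' r i hri).2, ge_iff_div D R hR (hne i hi)]
        exact eval_sub R g (hu r) (hu i)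
    rw [ge_iff_div D R hR hm0] at hge
    obtain ⟨c, hc, hce⟩ := hge
    refine ⟨g + m * C (⟨c, hc⟩ : R), ?_⟩
    intro i hi
    rw [Polynomial.eval₂_add, Polynomial.eval₂_mul, Polynomial.eval₂_C]
    rcases Finset.mem_insert.1 hi with rfl | hi
    · simp only [Subring.coe_subtype]
      rw [← hce]
      ring
    · rw [hg i hi, hm (u i), Finset.prod_eq_zero hi (sub_self (u i))]
      ring

end InLatt

theorem Geo.mem_latt_frame_iff {X : Surf k K} (G : Geo X) [CharZero k] (D : DV k K)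
    (R : Subring K)
    (hR : ∀ f, f ∈ R ↔ D.ge 0 f) (hpt : ∀ i j, i ≠ j → G.pt i ≠ G.pt j) {u n : Fin 5 → K}
    {d d' : K} (hn : ∀ i, n i ≠ 0) (hu : ∀ i, u i ∈ R)
    (hu' : ∀ i j, i ≠ j → u i ≠ u j ∧ D.v (u i - u j) = D.iB (G.pt i) (G.pt j))
    (hd : d ≠ 0) (hdv : 3 * D.v d = D.iB (G.pt 0) (G.pt 1))
    (hd' : d' ≠ 0) (hdv' : 3 * D.v d' = D.iB (G.pt 2) (G.pt 1))
    (h02 : D.iB (G.pt 0) (G.pt 2) = 0)
    (hp : ∀ i j l, i ≠ j → j ≠ l → i ≠ l →
      D.iB (G.pt i) (G.pt j) = 0 ∨ D.iB (G.pt j) (G.pt l) = 0) (x : Fin 5 → K) :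
    x ∈ latt R (frame u n d d') ↔ G.InL D n x := by
  have hdR : d ∈ R := by
    rw [hR]
    right
    have := D.iB_nonneg (hpt 0 1 (by decide))
    omega
  have hd'R : d' ∈ R := by
    rw [hR]
    right
    have := D.iB_nonneg (hpt 2 1 (by decide))
    omega
  have hunit : (u 0 - u 2)⁻¹ ∈ R := by
    rw [hR]
    right
    obtain ⟨h1, h2⟩ := hu' 0 2 (by decide)
    rw [D.inv (sub_ne_zero.2 h1), h2, h02]
    simp
  have hv : D.iB (G.pt 0) (G.pt 1) / 3 = D.v d := by omega
  have hv' : D.iB (G.pt 2) (G.pt 1) / 3 = D.v d' := by omega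
  have hfr : frame u n d d' = E2.fr n u d d' := rfl
  rw [hfr, E2.mem_latt_fr R n u d d' hu hdR hd'R hd hd' (hu' 0 2 (by decide)).1 hunit, Geo.InL,
    hv, hv']
  constructor
  · rintro ⟨f, hf0, hf2, hx⟩
    have hz : ∀ i, x i / n i = f.eval₂ R.subtype (u i) := by
      intro i
      rw [hx i, mul_div_cancel_left₀ _ (hn i)]
    refine ⟨fun i => ?_, fun i j hij => ?_, ?_, ?_⟩
    · rw [hz]
      exact (hR _).1 (InLatt.eval_mem R f (hu i))
    · rw [hz, hz, ← (hu' i j hij).2,
        InLatt.ge_iff_div D R hR (sub_ne_zero.2 (hu' i j hij).1)]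
      exact InLatt.eval_sub R f (hu i) (hu j)
    · rw [hz, InLatt.ge_iff_div D R hR hd]
      exact hf0
    · rw [hz, InLatt.ge_iff_div D R hR hd']
      exact hf2
  · rintro ⟨h0, h1, h2, h3⟩
    obtain ⟨f, hf⟩ := InLatt.interp D R hR (fun i => x i / n i)
      (fun i j => D.iB (G.pt i) (G.pt j)) (fun i j => D.iB_comm _ _) hu hu' hp h0 h1 Finset.univ
    rw [InLatt.ge_iff_div D R hR hd] at h2
    rw [InLatt.ge_iff_div D R hR hd'] at h3
    refine ⟨f, ?_, ?_, ?_⟩
    · rw [hf 0 (Finset.mem_univ _)]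
      exact h2
    · rw [hf 2 (Finset.mem_univ _)]
      exact h3
    · intro i
      rw [hf i (Finset.mem_univ _), mul_div_cancel₀ _ (hn i)]

end HB
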