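import Pool.Agent.HB.D.Defs
import Pool.Agent.HB.B.BB

/-!
# HB-D-PairU: congruent pairs of units; `InL` depends on the generators only up to such pairs

`PairU D e r s`: `r, s` are units at `D` and `r ≡ s` modulo order `e`.
Plan.  `mul`: `r r' - s s' = r (r' - s') + s' (r - s)`.  `inv`: `r⁻¹ - s⁻¹ = (s - r) r⁻¹ s⁻¹`.
`InL_congr`: put `r i = n i / n' i`, a unit at `D`; `x i / n' i = (x i / n i) * r i`, and
`z i r i - z j r j = (z i - z j) r i + z j (r i - r j)`; for `iB = 0` the second condition follows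
from the first one.  (`iB_nonneg` needs `G.pt i ≠ G.pt j`, it is a hypothesis.)  The statement is
symmetric in `n, n'`.
-/

set_option autoImplicit false

open IsLocalRing
open scoped Matrix

namespace HB

variable {k K : Type} [Field k] [Field K] [Algebra k K]

/-- `r, s` are units at `D`, congruent modulo order `e`. -/
structure PairU (D : DV k K) (e : ℤ) (r s : K) : Prop where
  r0 : r ≠ 0
  s0 : s ≠ 0
  vr : D.v r = 0
  vs : D.v s = 0
  cong : D.ge e (r - s)

theorem PairU.one (D : DV k K) (e : ℤ) : PairU D e 1 1 := by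
  refine ⟨one_ne_zero, one_ne_zero, D.one, D.one, Or.inl (sub_self 1)⟩

theorem PairU.mul {D : DV k K} {e : ℤ} {r s r' s' : K} (h : PairU D e r s)
    (h' : PairU D e r' s') : PairU D e (r * r') (s * s') := by
  refine ⟨mul_ne_zero h.r0 h'.r0, mul_ne_zero h.s0 h'.s0, ?_, ?_, ?_⟩
  · rw [D.mul h.r0 h'.r0, h.vr, h'.vr, add_zero]
  · rw [D.mul h.s0 h'.s0, h.vs, h'.vs, add_zero]
  · have e1 : r * r' - s * s' = (r - s) * r' + (r' - s') * s := by ring
    rw [e1]
    exact D.ge_add (by simpa using D.ge_mul h.cong (Or.inr h'.vr.ge : D.ge 0 r'))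
      (by simpa using D.ge_mul h'.cong (Or.inr h.vs.ge : D.ge 0 s))

theorem PairU.inv {D : DV k K} {e : ℤ} {r s : K} (h : PairU D e r s) :
    PairU D e r⁻¹ s⁻¹ := by
  refine ⟨inv_ne_zero h.r0, inv_ne_zero h.s0, ?_, ?_, ?_⟩
  · rw [D.inv h.r0, h.vr, neg_zero]
  · rw [D.inv h.s0, h.vs, neg_zero]
  · have hr := h.r0
    have hs := h.s0
    have e1 : r⁻¹ - s⁻¹ = (r - s) * (-(r⁻¹ * s⁻¹)) := by
      field_simp
      ring
    rw [e1]
    have g1 : D.ge 0 r⁻¹ := Or.inr (by rw [D.inv h.r0, h.vr, neg_zero])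
    have g2 : D.ge 0 s⁻¹ := Or.inr (by rw [D.inv h.s0, h.vs, neg_zero])
    have g3 : D.ge 0 (-(r⁻¹ * s⁻¹)) := D.ge_neg (by simpa using D.ge_mul g1 g2)
    simpa using D.ge_mul h.cong g3

theorem PairU.pow {D : DV k K} {e : ℤ} {r s : K} (h : PairU D e r s) (n : ℕ) :
    PairU D e (r ^ n) (s ^ n) := by
  induction n with
  | zero =>
    rw [pow_zero, pow_zero]
    exact PairU.one D e
  | succ n ih =>
    rw [pow_succ, pow_succ]
    exact ih.mul h

theorem PairU.prod {D : DV k K} {e : ℤ} {ι : Type} (t : Finset ι) {r s : ι → K}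
    (h : ∀ i ∈ t, PairU D e (r i) (s i)) : PairU D e (∏ i ∈ t, r i) (∏ i ∈ t, s i) := by
  classical
  induction t using Finset.induction_on with
  | empty =>
    rw [Finset.prod_empty, Finset.prod_empty]
    exact PairU.one D e
  | insert a t ha ih =>
    rw [Finset.prod_insert ha, Finset.prod_insert ha]
    exact (h a (Finset.mem_insert_self a t)).mul
      (ih fun i hi => h i (Finset.mem_insert_of_mem hi))

theorem Geo.InL_congr_aux {X : Surf k K} (G : Geo X) (D : DV k K) [CharZero k]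
    (hpt : ∀ i j, i ≠ j → G.pt i ≠ G.pt j) {n n' : Fin 5 → K}
    (hn : ∀ i, n i ≠ 0) (hn' : ∀ i, n' i ≠ 0) (hv : ∀ i, D.v (n i) = D.v (n' i))
    (hr : ∀ i j, i ≠ j → 0 < D.iB (G.pt i) (G.pt j) →
      D.ge (D.iB (G.pt i) (G.pt j)) (n i / n' i - n j / n' j)) (x : Fin 5 → K)
    (h : G.InL D n x) : G.InL D n' x := by
  obtain ⟨h1, h2, h3, h4⟩ := h
  have hz : ∀ i, x i / n' i = (x i / n i) * (n i / n' i) := fun i => by
    rw [div_mul_div_cancel₀ (hn i)]
  have hρ : ∀ i, D.ge 0 (n i / n' i) := fun i => by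
    right
    rw [D.div (hn i) (hn' i), hv i, sub_self]
  have key : ∀ i (m : ℤ), D.ge m (x i / n i) → D.ge m (x i / n' i) := fun i m hm => by
    rw [hz]
    simpa using D.ge_mul hm (hρ i)
  refine ⟨fun i => key i 0 (h1 i), fun i j hij => ?_, key 0 _ h3, key 2 _ h4⟩
  rcases (D.iB_nonneg (hpt i j hij)).lt_or_eq with he | he
  · have e1 : x i / n' i - x j / n' j = (x i / n i - x j / n j) * (n i / n' i) +
        (n i / n' i - n j / n' j) * (x j / n j) := by
      rw [hz i, hz j]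
      ring
    rw [e1]
    exact D.ge_add (by simpa using D.ge_mul (h2 i j hij) (hρ i))
      (by simpa using D.ge_mul (hr i j hij he) (h1 j))
  · rw [← he]
    exact D.ge_sub (key i 0 (h1 i)) (key j 0 (h1 j))

theorem Geo.InL_congr {X : Surf k K} (G : Geo X) (D : DV k K) [CharZero k]
    (hpt : ∀ i j, i ≠ j → G.pt i ≠ G.pt j) {n n' : Fin 5 → K}
    (hn : ∀ i, n i ≠ 0) (hn' : ∀ i, n' i ≠ 0) (hv : ∀ i, D.v (n i) = D.v (n' i))
    (hr : ∀ i j, i ≠ j → 0 < D.iB (G.pt i) (G.pt j) →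
      D.ge (D.iB (G.pt i) (G.pt j)) (n i / n' i - n j / n' j)) (x : Fin 5 → K) :
    G.InL D n x ↔ G.InL D n' x := by
  refine ⟨G.InL_congr_aux D hpt hn hn' hv hr x, G.InL_congr_aux D hpt hn' hn (fun i => (hv i).symm)
    (fun i j hij he => ?_) x⟩
  have h1 : PairU D (D.iB (G.pt i) (G.pt j)) (n i / n' i) (n j / n' j) := by
    refine ⟨div_ne_zero (hn i) (hn' i), div_ne_zero (hn j) (hn' j), ?_, ?_, hr i j hij he⟩
    · rw [D.div (hn i) (hn' i), hv i, sub_self]
    · rw [D.div (hn j) (hn' j), hv j, sub_self]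
  have h2 := h1.inv.cong
  rwa [inv_div, inv_div] at h2

end HB
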