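import Pool.Agent.HB.D.PairC
import Pool.Agent.HB.D.GlueE
import Pool.Agent.HB.D.PairU
import Pool.Agent.HB.D.CoreS
import Pool.Agent.HB.D.InLatt

/-!
# HB-D-Glue: the lattices defined at `O_P` and at `O_C` coincide

Plan for `inL_nloc`: `InL_congr` with `n = nloc O_P`, `n' = nloc O_C`, `D = C.dv`; `hv` from `v_nloc`
(`C.dv` is nonnegative on `O_P`: `PD.dv_ge_zero` and `h`) and `v_nlocC`.  `hr`: for `i ≠ j` with
`e = iB (pt i) (pt j) ≥ 1` prove `PairU C.dv e (nloc O_P i / nloc O_C i) (nloc O_P j / nloc O_C j)`: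
the quotient is `((b/b') * (c/c')⁻¹ * ((z/z')^4)⁻¹ * ∏ a, ((e/e') * (f/f')))⁻¹` (`Finset.prod_div_distrib`,
`field_simp`-free: `div_eq_mul_inv`, `mul_inv`, ...), and the factors are pairs by `bloc_pair`, `zloc_pair`,
`eloc_pair` (with `pi_close`, `pi'_close`; `G.f i a - G.f j a = (pt i).pi - (pt j).pi` by `abel`, and if
`(pt i).pi = (pt j).pi` then `G.f i a = G.f j a`), closed under `mul`, `inv`, `pow`, `prod`; then `.cong`.
`latt_frame`: `mem_latt_frame_iff` with `D = C.dv`, `R = O_C` (`u_mem`, `u_ne`, `u_val`, `d_val`, `d'_val` of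
`IsLoc` with `D = C.dv`; `iB02`, `iB_pairs`), then `inL_nloc`.
-/

set_option autoImplicit false

open IsLocalRing
open scoped Matrix

namespace HB

variable {k K : Type} [Field k] [Field K] [Algebra k K] [CharZero k] [IsAlgClosed k] [CharZero K]
  {X : Surf k K}

/-- The lattice at the curve `C`. -/
def Geo.Lam (G : Geo X) (Z : ZPair k) (C : X.PD) : Set (Fin 5 → K) :=
  {x | G.InL C.dv (G.nloc Z C.1.toSubring) x}

set_option linter.unusedSectionVars false in
theorem Surf.nonNeg_of_on {P : X.Pt} {C : X.PD} (h : Surf.On P C) :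
    C.dv.NonNeg P.1.toSubring :=
  fun f hf => (C.dv_ge_zero f).2 (h hf)

omit [CharZero k] [IsAlgClosed k] [CharZero K] in
private theorem quot_aux (b c z E b' c' z' E' : K) :
    (b * c⁻¹ * (z ^ 4)⁻¹ * E)⁻¹ / (b' * c'⁻¹ * (z' ^ 4)⁻¹ * E')⁻¹ =
      ((b / b') * (c / c')⁻¹ * ((z / z') ^ 4)⁻¹ * (E / E'))⁻¹ := by
  simp only [div_eq_mul_inv, mul_inv, inv_inv, mul_pow, inv_pow]
  ring

private theorem Geo.x_or (G : Geo X) (i : Fin 5) :
    (G.pt i).x ≠ 0 ∨ ∃ e he, G.pt i = BPt.inf e he := by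
  fin_cases i
  · exact Or.inl (G.x_ne 0)
  · exact Or.inl (G.x_ne 1)
  · exact Or.inl (G.x_ne 2)
  · exact Or.inr ⟨_, _, rfl⟩
  · exact Or.inr ⟨_, _, rfl⟩

private theorem Geo.f_close (G : Geo X) (D : DV k K) {i j : Fin 5} (hij : i ≠ j) (a : Fin 3) :
    G.f i a = G.f j a ∨ D.iB (G.pt i) (G.pt j) ≤ D.iE (G.f i a - G.f j a) := by
  have h1 : G.f i a - G.f j a = (G.pt i).pi - (G.pt j).pi := by
    unfold Geo.f
    abel
  rw [h1]
  rcases pi_close D (G.pt_ne hij) with h2 | h2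
  · left
    unfold Geo.f
    rw [h2]
  · exact Or.inr h2

private theorem Geo.f'_close (G : Geo X) (D : DV k K) {i j : Fin 5} (hij : i ≠ j) (a : Fin 3) :
    G.f' i a = G.f' j a ∨ D.iB (G.pt i) (G.pt j) ≤ D.iE (G.f' i a - G.f' j a) := by
  have h1 : G.f' i a - G.f' j a = (G.pt i).pi' - (G.pt j).pi' := by
    unfold Geo.f'
    abel
  rw [h1]
  rcases pi'_close D (G.pt_ne hij) with h2 | h2
  · left
    unfold Geo.f'
    rw [h2]
  · exact Or.inr h2

theorem Geo.inL_nloc (hX : X.Smooth) (G : Geo X) (Z : ZPair k) {P : X.Pt} {C : X.PD}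
    (h : Surf.On P C) (x : Fin 5 → K) :
    G.InL C.dv (G.nloc Z P.1.toSubring) x ↔ G.InL C.dv (G.nloc Z C.1.toSubring) x := by
  have hD := Surf.nonNeg_of_on h
  refine G.InL_congr C.dv (fun i j hij => G.pt_ne hij) (fun i => G.nloc_ne hX Z P i)
    (fun i => G.nlocC_ne Z C i)
    (fun i => by rw [G.v_nloc hX Z P C.dv hD i, G.v_nlocC Z C i]) (fun i j hij he => ?_) x
  have hp := Surf.pair h
  have hne := G.pt_ne hij
  have he1 : 1 ≤ C.dv.iB (G.pt i) (G.pt j) := he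
  have mi := G.pt_mor i P
  have mj := G.pt_mor j P
  have h1 := bloc_pair hp hne he1 mi mj Z.hp Z.yp0 (G.pt_const i Z.hp) (G.pt_const j Z.hp)
  have h2 := bloc_pair hp hne he1 mi mj Z.hq Z.yq0 (G.pt_const i Z.hq) (G.pt_const j Z.hq)
  have h3 := zloc_pair hp hne he1 mi mj (G.x_or i) (G.x_or j)
  have h4 : ∀ a ∈ (Finset.univ : Finset (Fin 3)),
      PairU C.dv (C.dv.iB (G.pt i) (G.pt j))
        ((eloc P.1.toSubring (G.f i a) / eloc C.1.toSubring (G.f i a)) *
          (eloc P.1.toSubring (G.f' i a) / eloc C.1.toSubring (G.f' i a)))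
        ((eloc P.1.toSubring (G.f j a) / eloc C.1.toSubring (G.f j a)) *
          (eloc P.1.toSubring (G.f' j a) / eloc C.1.toSubring (G.f' j a))) := fun a _ =>
    (eloc_pair hp he1 (G.f_ne i a) (G.f_ne j a) (G.f_close C.dv hij a) (G.f_on hX P i a)
      (G.f_on hX P j a)).mul
    (eloc_pair hp he1 (G.f'_ne i a) (G.f'_ne j a) (G.f'_close C.dv hij a) (G.f'_on hX P i a)
      (G.f'_on hX P j a))
  have h5 := (((h1.mul h2.inv).mul (h3.pow 4).inv).mul (PairU.prod Finset.univ h4)).inv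
  have key : ∀ i : Fin 5, G.nloc Z P.1.toSubring i / G.nloc Z C.1.toSubring i =
      ((bloc P.1.toSubring (G.pt i) (Z.p.map K) / bloc C.1.toSubring (G.pt i) (Z.p.map K)) *
        (bloc P.1.toSubring (G.pt i) (Z.q.map K) / bloc C.1.toSubring (G.pt i) (Z.q.map K))⁻¹ *
        ((zloc P.1.toSubring (G.pt i) / zloc C.1.toSubring (G.pt i)) ^ 4)⁻¹ *
        ∏ a, ((eloc P.1.toSubring (G.f i a) / eloc C.1.toSubring (G.f i a)) *
          (eloc P.1.toSubring (G.f' i a) / eloc C.1.toSubring (G.f' i a))))⁻¹ := by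
    intro i
    unfold Geo.nloc
    rw [quot_aux, ← Finset.prod_div_distrib]
    simp only [div_mul_div_comm]
  rw [key i, key j]
  exact h5.cong

theorem Geo.latt_frame (hX : X.Smooth) (G : Geo X) (Z : ZPair k) {P : X.Pt} {C : X.PD}
    (h : Surf.On P C) {u : Fin 5 → K} {d d' : K} (hl : G.IsLoc P u d d') :
    latt C.1.toSubring (frame u (G.nloc Z P.1.toSubring) d d') = G.Lam Z C := by
  have hD := Surf.nonNeg_of_on h
  ext x
  refine (G.mem_latt_frame_iff C.dv C.1.toSubring (fun f => (C.dv_ge_zero f).symm)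
    (fun i j hij => G.pt_ne hij) (fun i => G.nloc_ne hX Z P i) (fun i => h (hl.u_mem i))
    (fun i j hij => ⟨hl.u_ne i j hij, hl.u_val C.dv hD i j hij⟩) hl.d_ne (hl.d_val C.dv hD)
    hl.d'_ne (hl.d'_val C.dv hD) (G.iB02 C.dv)
    (fun i j l h1 h2 h3 => G.iB_pairs hX C h1 h2 h3) x).trans ?_
  exact G.inL_nloc hX Z h x

end HB
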