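import Pool.Agent.HB.D.PairU

/-!
# HB-D-GlueB: comparison of the local generators `bloc`, `zloc` at `O_P` and at `O_C`

Setting: `R` = valuation ring of `D` (`hR`), `O ≤ R` a local subring, integrally closed
(`hint`), such that an element of `O` which is not a unit of `R` is not a unit of `O` (`hOR`); `hloc`:
the nonunits of `O` are closed under addition.  (`O = O_P`, `R = O_C`, `C` through `P`.)

Plan for `bloc_pair` (`p, q` with `e = D.iB p q ≥ 1`; `b` constant with `y(b) ≠ 0`):
* `p, q` both finite at `D` or both not (otherwise `iB = 0`).  If not: `x ∉ R` (or `inf`), so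
  `x - x' ∉ R` and both `bloc` are `1` (for `O` and for `R`, as `O ≤ R`).
* Both finite: `p = aff x y`, `q = aff x₂ y₂`, `b = aff x' y'`, and `D.ge e (x - x₂)`,
  `D.ge e (y - y₂)` (`le_dmin`).  Call `p` special at `O` if `NonU O (x - x') ∧ NonU O (y - y')`.
  (1) special at `O` iff the same for `q`: if `p` is special then `x, y ∈ O`; `x₂ ∈ O`: otherwise
  `x₂⁻¹ ∈ O` is a nonunit of `O`, and `x x₂⁻¹ - 1 = (x - x₂) x₂⁻¹ ∈ O` is a nonunit of `R`, hence of `O`
  (`hOR`), and `x x₂⁻¹` is a nonunit of `O`, so `1` is a nonunit, contradiction.  `y₂ ∈ O` by `hint`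
  (`y₂² = x₂⁶ + 1`).  `x₂ - x' = (x - x') - (x - x₂)` is a sum of nonunits of `O`, and so for `y`.
  The same with `R` instead of `O`.
  (2) special at `R` implies special at `O`: `x - x'` is a nonunit of `R`; `x ∈ O` as in (1) (if
  `x⁻¹ ∈ O` is a nonunit then `1 - x' x⁻¹ = (x - x') x⁻¹` is a nonunit of `R`), `y ∈ O`, and `hOR`.
  (3) special at `O` but not at `R`: then `x - x'` is a unit of `R`: otherwise
  `(y - y')(y + y') = (x - x')(...)` is a nonunit of `R`, `y - y'` is a unit of `R` (not special at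
  `R`), so `y + y'` is a nonunit of `R`, hence of `O`, and `y - y'` is a nonunit of `O`, so `2 y'` is:
  contradiction, it is a nonzero constant.
  The ratios `bloc O / bloc R` are `1, 1` (both special at `R`, or not special at `O`), or
  `x - x'`, `x₂ - x'` (units at `D` by (3), difference `x - x₂`).
`zloc_pair`: the same, simpler, with `x' = 0` and without `y`.
-/

set_option autoImplicit false

open IsLocalRing
open scoped Matrix

namespace HB

variable {k K : Type} [Field k] [CharZero k] [Field K] [Algebra k K]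

/-- `R` is the valuation ring of `D`, `O ≤ R` a root closed subring which contains the constants and
whose nonunits are closed under addition (`hOR` follows from `le`). -/
structure Pair (k : Type) {K : Type} [Field k] [Field K] [Algebra k K] (D : DV k K)
    (O R : Subring K) : Prop where
  hR : ∀ f, f ∈ R ↔ D.ge 0 f
  le : O ≤ R
  const : ∀ c : k, algebraMap k K c ∈ O
  hint : ∀ f : K, ∀ n : ℕ, n ≠ 0 → f ^ n ∈ O → f ∈ O
  hOR : ∀ f, NonU R f → f ∈ O → NonU O f
  hloc : ∀ f g, NonU O f → NonU O g → NonU O (f + g)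

section aux

omit [CharZero k] in
private theorem NonU.mul_left {O : Subring K} {f g : K} (hf : NonU O f) (hg : g ∈ O) :
    NonU O (g * f) := by
  refine ⟨O.mul_mem hg hf.1, ?_⟩
  by_cases h0 : g * f = 0
  · exact Or.inl h0
  · right
    intro h
    have hf0 : f ≠ 0 := right_ne_zero_of_mul h0
    have hg0 : g ≠ 0 := left_ne_zero_of_mul h0
    rcases hf.2 with h1 | h1
    · exact hf0 h1
    · apply h1
      have h2 : f⁻¹ = g * (g * f)⁻¹ := by
        field_simp
      rw [h2]
      exact O.mul_mem hg h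

omit [CharZero k] in
private theorem NonU.neg {O : Subring K} {f : K} (hf : NonU O f) : NonU O (-f) := by
  have := hf.mul_left (O.neg_mem O.one_mem)
  simpa using this

omit [CharZero k] in
private theorem not_nonU_one (O : Subring K) : ¬ NonU O (1 : K) := by
  rintro ⟨_, h | h⟩
  · exact one_ne_zero h
  · exact h (by rw [inv_one]; exact O.one_mem)

variable {D : DV k K} {O R : Subring K}

omit [CharZero k] in
theorem Pair.nonU_iff (h : Pair k D O R) (f : K) : NonU R f ↔ D.ge 1 f := by
  constructor
  · rintro ⟨h1, h2⟩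
    by_cases hf : f = 0
    · exact Or.inl hf
    · have h3 := h2.resolve_left hf
      rw [h.hR] at h1 h3
      have h4 := D.le_of_ge hf h1
      right
      by_contra hc
      apply h3
      right
      rw [D.inv hf]; omega
  · intro h1
    refine ⟨(h.hR f).2 (D.ge_mono (by norm_num) h1), ?_⟩
    by_cases hf : f = 0
    · exact Or.inl hf
    · right
      rw [h.hR]
      intro h2
      have h3 := D.le_of_ge hf h1
      have h4 := D.le_of_ge (inv_ne_zero hf) h2
      rw [D.inv hf] at h4
      omega

omit [CharZero k] in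
theorem Pair.sub (h : Pair k D O R) {f g : K} (hf : NonU O f) (hg : NonU O g) :
    NonU O (f - g) := by
  rw [sub_eq_add_neg]; exact h.hloc f (-g) hf hg.neg

omit [CharZero k] in
theorem Pair.const_not (h : Pair k D O R) {c : k} (hc : c ≠ 0) :
    ¬ NonU O (algebraMap k K c) := by
  rintro ⟨_, h1 | h1⟩
  · exact hc ((map_eq_zero _).1 h1)
  · apply h1
    rw [← map_inv₀]
    exact h.const _

omit [CharZero k] in
theorem Pair.self (h : Pair k D O R) : Pair k D R R where
  hR := h.hR
  le := le_refl _
  const c := h.le (h.const c)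
  hint f n hn hf := by
    rw [h.hR] at hf ⊢
    exact D.ge_of_pow hn hf
  hOR f hf _ := hf
  hloc f g hf hg := by
    rw [h.nonU_iff] at hf hg ⊢
    exact D.ge_add hf hg

omit [CharZero k] in
/-- an element which is close to an element of `O` at `D` and which is in `O` or has its inverse in
`O` is in `O` -/
theorem Pair.mem_of_close (h : Pair k D O R) {a x : K} (ha : a ∈ O) (hx : x ∈ O ∨ x⁻¹ ∈ O)
    (hd : D.ge 1 (a - x)) : x ∈ O := by
  by_contra hc
  have hxi := hx.resolve_left hc
  have hx0 : x ≠ 0 := by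
    rintro rfl; exact hc O.zero_mem
  have hn : NonU O x⁻¹ := ⟨hxi, Or.inr (by rwa [inv_inv])⟩
  have h1 : NonU O (a * x⁻¹) := hn.mul_left ha
  have h2 : (a - x) * x⁻¹ = a * x⁻¹ - 1 := by
    rw [sub_mul, mul_inv_cancel₀ hx0]
  have h3 : NonU R (a * x⁻¹ - 1) := by
    rw [h.nonU_iff, ← h2]
    have h4 : D.ge 0 x⁻¹ := (h.hR _).1 (h.le hxi)
    simpa using D.ge_mul hd h4
  have h5 : NonU O (a * x⁻¹ - 1) := h.hOR _ h3 (O.sub_mem h1.1 O.one_mem)
  have h6 := h.sub h1 h5
  rw [sub_sub_cancel] at h6
  exact not_nonU_one O h6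

omit [CharZero k] in
theorem Pair.nonU_of_close (h : Pair k D O R) {a x : K} (ha : a ∈ O) (hx : x ∈ O)
    (hd : D.ge 1 (a - x)) : NonU O (a - x) :=
  h.hOR _ ((h.nonU_iff _).2 hd) (O.sub_mem ha hx)

omit [CharZero k] in
/-- `y ∈ O` if `x ∈ O` -/
theorem Pair.y_mem (h : Pair k D O R) {x y : K} (hc : y ^ 2 = x ^ 6 + 1) (hx : x ∈ O) : y ∈ O := by
  refine h.hint y 2 (by norm_num) ?_
  rw [hc]
  exact O.add_mem (O.pow_mem hx 6) O.one_mem

omit [CharZero k] in
/-- transfer of nonunits of `O` to close elements -/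
theorem Pair.transfer (h : Pair k D O R) {a x c : K} (hc : c ∈ O) (hn : NonU O (a - c))
    (hx : x ∈ O ∨ x⁻¹ ∈ O) (hd : D.ge 1 (a - x)) : x ∈ O ∧ NonU O (x - c) := by
  have ha : a ∈ O := by
    have := O.add_mem hn.1 hc
    rwa [sub_add_cancel] at this
  have hxO := h.mem_of_close ha hx hd
  refine ⟨hxO, ?_⟩
  have h1 := h.sub hn (h.nonU_of_close ha hxO hd)
  have h2 : a - c - (a - x) = x - c := by ring
  rwa [h2] at h1

omit [CharZero k] in
/-- (1) special for `p` implies special for `q` -/
theorem Pair.special (h : Pair k D O R) {x y x₂ y₂ c d : K} (hxy : y ^ 2 = x ^ 6 + 1)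
    (hxy₂ : y₂ ^ 2 = x₂ ^ 6 + 1) (hc : c ∈ O) (hd : d ∈ O) (hx : D.ge 1 (x - x₂))
    (hy : D.ge 1 (y - y₂)) (hx₂ : x₂ ∈ O ∨ x₂⁻¹ ∈ O) (hs : NonU O (x - c) ∧ NonU O (y - d)) :
    NonU O (x₂ - c) ∧ NonU O (y₂ - d) := by
  obtain ⟨h1, h2⟩ := h.transfer hc hs.1 hx₂ hx
  exact ⟨h2, (h.transfer hd hs.2 (Or.inl (h.y_mem hxy₂ h1)) hy).2⟩

omit [CharZero k] in
/-- (2) special at `R` implies special at `O` -/
theorem Pair.special_down (h : Pair k D O R) {x y c d : K} (hxy : y ^ 2 = x ^ 6 + 1)
    (hc : c ∈ O) (hd : d ∈ O) (hx : x ∈ O ∨ x⁻¹ ∈ O) (hs : NonU R (x - c) ∧ NonU R (y - d)) :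
    NonU O (x - c) ∧ NonU O (y - d) := by
  have h1 : D.ge 1 (c - x) := by
    have := D.ge_neg ((h.nonU_iff _).1 hs.1)
    rwa [neg_sub] at this
  have h2 := h.mem_of_close hc hx h1
  have h3 := h.y_mem hxy h2
  exact ⟨h.hOR _ hs.1 (O.sub_mem h2 hc), h.hOR _ hs.2 (O.sub_mem h3 hd)⟩

omit [CharZero k] in
theorem Pair.mem_R_or (h : Pair k D O R) {x : K} (hx : x ∈ O ∨ x⁻¹ ∈ O) : x ∈ R ∨ x⁻¹ ∈ R :=
  hx.imp (fun hh => h.le hh) (fun hh => h.le hh)

/-- (3) special at `O` but not at `R`: `x - x'` is a unit at `D` -/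
theorem Pair.unit_of (h : Pair k D O R) {x y : K} (hxy : y ^ 2 = x ^ 6 + 1)
    {x' y' : k} (hb : y' ^ 2 = x' ^ 6 + 1) (hy : y' ≠ 0)
    (hs : NonU O (x - algebraMap k K x') ∧ NonU O (y - algebraMap k K y'))
    (hn : ¬ (NonU R (x - algebraMap k K x') ∧ NonU R (y - algebraMap k K y'))) :
    x - algebraMap k K x' ≠ 0 ∧ D.v (x - algebraMap k K x') = 0 := by
  have hb' : (algebraMap k K y') ^ 2 = (algebraMap k K x') ^ 6 + 1 := by
    rw [← map_pow, hb, map_add, map_pow, map_one]
  have hcx := h.const x'
  have hcy := h.const y'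
  have hxO : x ∈ O := by
    have := O.add_mem hs.1.1 hcx
    rwa [sub_add_cancel] at this
  have hyO : y ∈ O := by
    have := O.add_mem hs.2.1 hcy
    rwa [sub_add_cancel] at this
  have hge : D.ge 0 (x - algebraMap k K x') := (h.hR _).1 (h.le hs.1.1)
  have hgy : D.ge 0 (y - algebraMap k K y') := (h.hR _).1 (h.le hs.2.1)
  have key : ¬ D.ge 1 (x - algebraMap k K x') := by
    intro h1
    have h2 : ¬ D.ge 1 (y - algebraMap k K y') := fun h2 =>
      hn ⟨(h.nonU_iff _).2 h1, (h.nonU_iff _).2 h2⟩
    have hy0 : y - algebraMap k K y' ≠ 0 := fun h3 => h2 (Or.inl h3)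
    have hvy : D.v (y - algebraMap k K y') = 0 := by
      have h3 := D.le_of_ge hy0 hgy
      by_contra h4
      exact h2 (Or.inr (by omega))
    have h5 : D.ge 1 ((y - algebraMap k K y') * (y + algebraMap k K y')) := by
      have e : (y - algebraMap k K y') * (y + algebraMap k K y') =
          (x - algebraMap k K x') * (x ^ 5 + x ^ 4 * algebraMap k K x' +
          x ^ 3 * algebraMap k K x' ^ 2 + x ^ 2 * algebraMap k K x' ^ 3 +
          x * algebraMap k K x' ^ 4 + algebraMap k K x' ^ 5) := by
        linear_combination hxy - hb'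
      rw [e]
      have h6 : D.ge 0 (x ^ 5 + x ^ 4 * algebraMap k K x' +
          x ^ 3 * algebraMap k K x' ^ 2 + x ^ 2 * algebraMap k K x' ^ 3 +
          x * algebraMap k K x' ^ 4 + algebraMap k K x' ^ 5) := by
        refine (h.hR _).1 (h.le ?_)
        have hm := fun i j : ℕ => O.mul_mem (O.pow_mem hxO i) (O.pow_mem hcx j)
        have m1 := hm 4 1
        have m4 := hm 1 4
        rw [pow_one] at m1 m4
        exact O.add_mem (O.add_mem (O.add_mem (O.add_mem (O.add_mem (O.pow_mem hxO 5) m1)
          (hm 3 2)) (hm 2 3)) m4) (O.pow_mem hcx 5)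
      simpa using D.ge_mul h1 h6
    have h7 : D.ge 1 (y + algebraMap k K y') := by
      rcases h5 with h8 | h8
      · left
        exact (mul_eq_zero.1 h8).resolve_left hy0
      · by_cases h9 : y + algebraMap k K y' = 0
        · exact Or.inl h9
        · right
          rw [D.mul hy0 h9, hvy] at h8
          omega
    have h10 : NonU O (y + algebraMap k K y') :=
      h.hOR _ ((h.nonU_iff _).2 h7) (O.add_mem hyO hcy)
    have h11 := h.sub h10 hs.2
    have h12 : y + algebraMap k K y' - (y - algebraMap k K y') = algebraMap k K (2 * y') := by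
      rw [map_mul, map_ofNat]; ring
    rw [h12] at h11
    exact h.const_not (mul_ne_zero two_ne_zero hy) h11
  have hx0 : x - algebraMap k K x' ≠ 0 := fun h3 => key (Or.inl h3)
  refine ⟨hx0, ?_⟩
  have h3 := D.le_of_ge hx0 hge
  by_contra h4
  exact key (Or.inr (by omega))

end aux

theorem bloc_pair {D : DV k K} {O R : Subring K} (h : Pair k D O R) {p q : BPt K} (hpq : p ≠ q)
    (hi : 1 ≤ D.iB p q) (hp : p.x ∈ O ∨ (p.x)⁻¹ ∈ O) (hq : q.x ∈ O ∨ (q.x)⁻¹ ∈ O)
    {x' y' : k} (hb : y' ^ 2 = x' ^ 6 + 1) (hy : y' ≠ 0)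
    (hpb : p ≠ (BPt.aff x' y' hb).map K) (hqb : q ≠ (BPt.aff x' y' hb).map K) :
    PairU D (D.iB p q)
      (bloc O p ((BPt.aff x' y' hb).map K) / bloc R p ((BPt.aff x' y' hb).map K))
      (bloc O q ((BPt.aff x' y' hb).map K) / bloc R q ((BPt.aff x' y' hb).map K)) := by
  classical
  have hcx := h.const x'
  have hcy := h.const y'
  have hnf : ∀ p : BPt K, ¬ p.IsFin D → bloc O p ((BPt.aff x' y' hb).map K) = 1 ∧
      bloc R p ((BPt.aff x' y' hb).map K) = 1 := by
    intro p hp
    match p, hp with
    | .inf e he, _ => exact ⟨rfl, rfl⟩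
    | .aff x y hxy, hp =>
      have hxR : x ∉ R := fun hh => hp ((h.hR _).1 hh)
      have h1 : x - algebraMap k K x' ∉ R := by
        intro hh
        have := R.add_mem hh (h.le hcx)
        rw [sub_add_cancel] at this
        exact hxR this
      constructor
      · change (if NonU O (x - algebraMap k K x') ∧ NonU O (y - algebraMap k K y') then
          x - algebraMap k K x' else 1) = 1
        rw [if_neg (fun hh => h1 (h.le hh.1.1))]
      · change (if NonU R (x - algebraMap k K x') ∧ NonU R (y - algebraMap k K y') then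
          x - algebraMap k K x' else 1) = 1
        rw [if_neg (fun hh => h1 hh.1.1)]
  by_cases hpf : p.IsFin D
  · by_cases hqf : q.IsFin D
    · match p, q, hpf, hqf, hpq, hi, hp, hq, hpb, hqb with
      | .aff x y hxy, .aff x₂ y₂ hxy₂, hpf, hqf, hpq, hi, hp, hq, hpb, hqb =>
        have hiB : D.iB (.aff x y hxy) (.aff x₂ y₂ hxy₂) = D.dmin (x - x₂) (y - y₂) := by
          unfold DV.iB
          rw [if_pos ⟨hpf, hqf⟩]
          rfl
        have hne : x - x₂ ≠ 0 ∨ y - y₂ ≠ 0 := by
          by_contra hc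
          rw [not_or, not_not, not_not, sub_eq_zero, sub_eq_zero] at hc
          obtain ⟨rfl, rfl⟩ := hc
          exact hpq rfl
        have hge := (D.le_dmin hne _).1 (le_of_eq hiB)
        have hgx1 := D.ge_mono hi hge.1
        have hgy1 := D.ge_mono hi hge.2
        have hgx1' : D.ge 1 (x₂ - x) := by
          have := D.ge_neg hgx1
          rwa [neg_sub] at this
        have hgy1' : D.ge 1 (y₂ - y) := by
          have := D.ge_neg hgy1
          rwa [neg_sub] at this
        change x ∈ O ∨ x⁻¹ ∈ O at hp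
        change x₂ ∈ O ∨ x₂⁻¹ ∈ O at hq
        have hs := h.self
        have eO : (NonU O (x - algebraMap k K x') ∧ NonU O (y - algebraMap k K y')) ↔
            (NonU O (x₂ - algebraMap k K x') ∧ NonU O (y₂ - algebraMap k K y')) :=
          ⟨h.special hxy hxy₂ hcx hcy hgx1 hgy1 hq, h.special hxy₂ hxy hcx hcy hgx1' hgy1' hp⟩
        have eR : (NonU R (x - algebraMap k K x') ∧ NonU R (y - algebraMap k K y')) ↔
            (NonU R (x₂ - algebraMap k K x') ∧ NonU R (y₂ - algebraMap k K y')) :=
          ⟨hs.special hxy hxy₂ (h.le hcx) (h.le hcy) hgx1 hgy1 (h.mem_R_or hq),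
            hs.special hxy₂ hxy (h.le hcx) (h.le hcy) hgx1' hgy1' (h.mem_R_or hp)⟩
        have hb' : (algebraMap k K y') ^ 2 = (algebraMap k K x') ^ 6 + 1 := by
          rw [← map_pow, hb, map_add, map_pow, map_one]
        -- `x ≠ x'` if special
        have hne0 : ∀ (x y : K) (hxy : y ^ 2 = x ^ 6 + 1),
            (BPt.aff x y hxy) ≠ (BPt.aff x' y' hb).map K →
            (NonU O (x - algebraMap k K x') ∧ NonU O (y - algebraMap k K y')) →
            x - algebraMap k K x' ≠ 0 := by
          intro x y hxy hpb hsp h0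
          rw [sub_eq_zero] at h0
          have h1 : y ^ 2 = (algebraMap k K y') ^ 2 := by rw [hxy, h0, hb']
          rcases sq_eq_sq_iff_eq_or_eq_neg.mp h1 with h2 | h2
          · apply hpb
            subst h0; subst h2; rfl
          · have h3 := hsp.2
            rw [h2] at h3
            have h4 : -algebraMap k K y' - algebraMap k K y' = algebraMap k K (-(2 * y')) := by
              rw [map_neg, map_mul, map_ofNat]; ring
            rw [h4] at h3
            exact h.const_not (neg_ne_zero.2 (mul_ne_zero two_ne_zero hy)) h3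
        change PairU D (D.iB (.aff x y hxy) (.aff x₂ y₂ hxy₂))
          ((if NonU O (x - algebraMap k K x') ∧ NonU O (y - algebraMap k K y') then
            x - algebraMap k K x' else 1) /
            (if NonU R (x - algebraMap k K x') ∧ NonU R (y - algebraMap k K y') then
            x - algebraMap k K x' else 1))
          ((if NonU O (x₂ - algebraMap k K x') ∧ NonU O (y₂ - algebraMap k K y') then
            x₂ - algebraMap k K x' else 1) /
            (if NonU R (x₂ - algebraMap k K x') ∧ NonU R (y₂ - algebraMap k K y') then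
            x₂ - algebraMap k K x' else 1))
        by_cases hO : NonU O (x - algebraMap k K x') ∧ NonU O (y - algebraMap k K y')
        · have hO2 := eO.1 hO
          have n1 := hne0 x y hxy hpb hO
          have n2 := hne0 x₂ y₂ hxy₂ hqb hO2
          by_cases hR : NonU R (x - algebraMap k K x') ∧ NonU R (y - algebraMap k K y')
          · rw [if_pos hO, if_pos hR, if_pos hO2, if_pos (eR.1 hR), div_self n1, div_self n2]
            exact PairU.one D _
          · have hR2 : ¬ (NonU R (x₂ - algebraMap k K x') ∧ NonU R (y₂ - algebraMap k K y')) :=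
              fun hh => hR (eR.2 hh)
            rw [if_pos hO, if_neg hR, if_pos hO2, if_neg hR2, div_one, div_one]
            refine ⟨n1, n2, (h.unit_of hxy hb hy hO hR).2, (h.unit_of hxy₂ hb hy hO2 hR2).2, ?_⟩
            have e : x - algebraMap k K x' - (x₂ - algebraMap k K x') = x - x₂ := by ring
            rw [e]
            exact hge.1
        · have hO2 : ¬ (NonU O (x₂ - algebraMap k K x') ∧ NonU O (y₂ - algebraMap k K y')) :=
            fun hh => hO (eO.2 hh)
          have hR : ¬ (NonU R (x - algebraMap k K x') ∧ NonU R (y - algebraMap k K y')) :=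
            fun hh => hO (h.special_down hxy hcx hcy hp hh)
          have hR2 : ¬ (NonU R (x₂ - algebraMap k K x') ∧ NonU R (y₂ - algebraMap k K y')) :=
            fun hh => hR (eR.2 hh)
          rw [if_neg hO, if_neg hR, if_neg hO2, if_neg hR2, div_one]
          exact PairU.one D _
    · exfalso
      have h0 : D.iB p q = 0 := by
        unfold DV.iB
        rw [if_neg (fun hh => hqf hh.2), if_neg (fun hh => hh.1 hpf)]
      omega
  · by_cases hqf : q.IsFin D
    · exfalso
      have h0 : D.iB p q = 0 := by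
        unfold DV.iB
        rw [if_neg (fun hh => hpf hh.1), if_neg (fun hh => hh.2 hqf)]
      omega
    · rw [(hnf p hpf).1, (hnf p hpf).2, (hnf q hqf).1, (hnf q hqf).2, div_one]
      exact PairU.one D _

theorem zloc_pair {D : DV k K} {O R : Subring K} (h : Pair k D O R) {p q : BPt K} (hpq : p ≠ q)
    (hi : 1 ≤ D.iB p q) (hp : p.x ∈ O ∨ (p.x)⁻¹ ∈ O) (hq : q.x ∈ O ∨ (q.x)⁻¹ ∈ O)
    (hp0 : p.x ≠ 0 ∨ ∃ e he, p = BPt.inf e he) (hq0 : q.x ≠ 0 ∨ ∃ e he, q = BPt.inf e he) :
    PairU D (D.iB p q) (zloc O p / zloc R p) (zloc O q / zloc R q) := by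
  classical
  have hnf : ∀ p : BPt K, ¬ p.IsFin D → zloc O p = 1 ∧ zloc R p = 1 := by
    intro p hp
    match p, hp with
    | .inf e he, _ => exact ⟨rfl, rfl⟩
    | .aff x y hxy, hp =>
      have hxR : x ∉ R := fun hh => hp ((h.hR _).1 hh)
      constructor
      · change (if NonU O x then x else 1) = 1
        rw [if_neg (fun hh => hxR (h.le hh.1))]
      · change (if NonU R x then x else 1) = 1
        rw [if_neg (fun hh => hxR hh.1)]
  by_cases hpf : p.IsFin D
  · by_cases hqf : q.IsFin D
    · match p, q, hpf, hqf, hpq, hi, hp, hq, hp0, hq0 with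
      | .aff x y hxy, .aff x₂ y₂ hxy₂, hpf, hqf, hpq, hi, hp, hq, hp0, hq0 =>
        have hiB : D.iB (.aff x y hxy) (.aff x₂ y₂ hxy₂) = D.dmin (x - x₂) (y - y₂) := by
          unfold DV.iB
          rw [if_pos ⟨hpf, hqf⟩]
          rfl
        have hne : x - x₂ ≠ 0 ∨ y - y₂ ≠ 0 := by
          by_contra hc
          rw [not_or, not_not, not_not, sub_eq_zero, sub_eq_zero] at hc
          obtain ⟨rfl, rfl⟩ := hc
          exact hpq rfl
        have hge := (D.le_dmin hne _).1 (le_of_eq hiB)
        have hgx1 := D.ge_mono hi hge.1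
        have hgx1' : D.ge 1 (x₂ - x) := by
          have := D.ge_neg hgx1
          rwa [neg_sub] at this
        change x ∈ O ∨ x⁻¹ ∈ O at hp
        change x₂ ∈ O ∨ x₂⁻¹ ∈ O at hq
        have hx0 : x ≠ 0 := by
          rcases hp0 with h1 | ⟨e, he, h1⟩
          · exact h1
          · cases h1
        have hx0' : x₂ ≠ 0 := by
          rcases hq0 with h1 | ⟨e, he, h1⟩
          · exact h1
          · cases h1
        have hs := h.self
        have tr : ∀ (O' : Subring K), Pair k D O' R → ∀ a x : K, (x ∈ O' ∨ x⁻¹ ∈ O') →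
            D.ge 1 (a - x) → NonU O' a → NonU O' x := by
          intro O' h' a x hx hd hn
          have := h'.transfer (c := 0) O'.zero_mem (by rwa [sub_zero]) hx hd
          rw [sub_zero] at this
          exact this.2
        have eO : NonU O x ↔ NonU O x₂ :=
          ⟨tr O h x x₂ hq hgx1, tr O h x₂ x hp hgx1'⟩
        have eR : NonU R x ↔ NonU R x₂ :=
          ⟨tr R hs x x₂ (h.mem_R_or hq) hgx1, tr R hs x₂ x (h.mem_R_or hp) hgx1'⟩
        have hdown : NonU R x → NonU O x := by
          intro hn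
          have h1 : D.ge 1 (0 - x) := by
            rw [zero_sub]
            exact D.ge_neg ((h.nonU_iff _).1 hn)
          exact h.hOR _ hn (h.mem_of_close O.zero_mem hp h1)
        have hunit : ∀ x : K, x ≠ 0 → NonU O x → ¬ NonU R x → D.v x = 0 := by
          intro x hx hn hn'
          have h1 := D.le_of_ge hx ((h.hR _).1 (h.le hn.1))
          by_contra h2
          exact hn' ((h.nonU_iff _).2 (Or.inr (by omega)))
        change PairU D (D.iB (.aff x y hxy) (.aff x₂ y₂ hxy₂))
          ((if NonU O x then x else 1) / (if NonU R x then x else 1))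
          ((if NonU O x₂ then x₂ else 1) / (if NonU R x₂ then x₂ else 1))
        by_cases hO : NonU O x
        · have hO2 := eO.1 hO
          by_cases hR : NonU R x
          · rw [if_pos hO, if_pos hR, if_pos hO2, if_pos (eR.1 hR), div_self hx0, div_self hx0']
            exact PairU.one D _
          · have hR2 : ¬ NonU R x₂ := fun hh => hR (eR.2 hh)
            rw [if_pos hO, if_neg hR, if_pos hO2, if_neg hR2, div_one, div_one]
            exact ⟨hx0, hx0', hunit x hx0 hO hR, hunit x₂ hx0' hO2 hR2, hge.1⟩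
        · have hO2 : ¬ NonU O x₂ := fun hh => hO (eO.2 hh)
          have hR : ¬ NonU R x := fun hh => hO (hdown hh)
          have hR2 : ¬ NonU R x₂ := fun hh => hR (eR.2 hh)
          rw [if_neg hO, if_neg hR, if_neg hO2, if_neg hR2, div_one]
          exact PairU.one D _
    · exfalso
      have h0 : D.iB p q = 0 := by
        unfold DV.iB
        rw [if_neg (fun hh => hqf hh.2), if_neg (fun hh => hh.1 hpf)]
      omega
  · by_cases hqf : q.IsFin D
    · exfalso
      have h0 : D.iB p q = 0 := by
        unfold DV.iB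
        rw [if_neg (fun hh => hpf hh.1), if_neg (fun hh => hh.2 hqf)]
      omega
    · rw [(hnf p hpf).1, (hnf p hpf).2, (hnf q hqf).1, (hnf q hqf).2, div_one]
      exact PairU.one D _

end HB
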