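import Pool.Agent.HB.D.ESub
import Pool.Agent.HB.D.Defs
import Pool.Agent.HB.A.LocB
import Pool.Agent.HB.A.Dv

/-!
# HB-D-GoodP: the local rings of closed points satisfy `GoodO`; valuations at curves through `P`
-/

set_option autoImplicit false

open IsLocalRing

namespace HB

variable {k K : Type} [Field k] [Field K] [Algebra k K] [CharZero k] [IsAlgClosed k]
  {X : Surf k K}

open Surf

theorem goodP (P : X.Pt) : GoodO k P.1.toSubring where
  base := P.algebraMap_mem
  loc := by
    intro x hx y hy h0 hxy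
    have hu : IsUnit ((⟨x, hx⟩ : P.1.toSubring) + ⟨y, hy⟩) := by
      rw [isUnit_iff_exists_inv]
      exact ⟨⟨(x + y)⁻¹, hxy⟩, Subtype.ext (mul_inv_cancel₀ h0)⟩
    rcases IsLocalRing.isUnit_or_isUnit_of_isUnit_add hu with h | h
    · left
      obtain ⟨b, hb⟩ := isUnit_iff_exists_inv.mp h
      have hb' : x * (b : K) = 1 := congrArg Subtype.val hb
      have hx0 : x ≠ 0 := by rintro rfl; simp at hb'
      exact ⟨hx0, by rw [← eq_inv_of_mul_eq_one_right hb']; exact b.2⟩
    · right
      obtain ⟨b, hb⟩ := isUnit_iff_exists_inv.mp h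
      have hb' : y * (b : K) = 1 := congrArg Subtype.val hb
      have hx0 : y ≠ 0 := by rintro rfl; simp at hb'
      exact ⟨hx0, by rw [← eq_inv_of_mul_eq_one_right hb']; exact b.2⟩
  int := by
    intro x hx
    refine P.int ⟨Polynomial.X ^ 2 - Polynomial.C ⟨x ^ 2, hx⟩, ?_, ?_⟩
    · exact Polynomial.monic_X_pow_sub_C _ (by norm_num)
    · simp only [Polynomial.eval₂_sub, Polynomial.eval₂_X_pow, Polynomial.eval₂_C]
      exact sub_self _

theorem dv_nonneg {C : X.PD} {P : X.Pt} (h : On P C) : C.dv.NonNeg P.1.toSubring := by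
  intro f hf
  rw [C.dv_ge_zero]
  exact h hf

/-- An element of `O_P` with positive order along a curve through `P` is a nonunit. -/
theorem nonU_of_pos {C : X.PD} {P : X.Pt} (h : On P C) {f : K} (hf : f ∈ P.1.toSubring)
    (hv : C.dv.ge 1 f) : NonU P.1.toSubring f := by
  refine ⟨hf, ?_⟩
  by_cases h0 : f = 0
  · exact Or.inl h0
  · right
    intro hinv
    have h1 := C.dv.le_of_ge h0 hv
    have h2 := C.dv.le_of_ge (inv_ne_zero h0) (dv_nonneg h _ hinv)
    rw [C.dv.inv h0] at h2
    omega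

/-- Units of `O` have valuation zero. -/
theorem v_unit {O : Subring K} (D : DV k K) (hD : D.NonNeg O) {f : K} (hf : f ∈ O) (hf' : f⁻¹ ∈ O) :
    D.v f = 0 := by
  by_cases h0 : f = 0
  · rw [h0, D.zero]
  · have h1 := D.le_of_ge h0 (hD _ hf)
    have h2 := D.le_of_ge (inv_ne_zero h0) (hD _ hf')
    rw [D.inv h0] at h2
    omega

end HB
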