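import Pool.Agent.HB.D.Defs
import Pool.Agent.HB.B.BB

/-!
# HB-D-InLMul: multiplication by the coefficients of the Higgs field preserves `InL`

Plan.  `z i = x i / n i`, `w i = φ i * z i` (`mul_div_assoc`).  `ge 0 (w i)`.  For `i ≠ j`:
`w i - w j = φ i (z i - z j) + (φ i - φ j) z j` and `w i - w j = φ j (z i - z j) + (φ i - φ j) z i`
(the first summands are `ge iB`).
* `{i, j}` contained in `{3, 4}`: `w i = w j = 0`.
* `i < 3 ≤ j`: `φ j = 0`, `(φ i - φ j) z j = φ i z j` is `ge iB` by `hinf` (and symmetric with `iB_comm`).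
* `{i, j} = {0, 2}`: `iB = 0`.
* `{i, j} = {0, 1}`, `iB = 3 e`: if `e ≤ 0`: clear (`ge_mono`, all is `ge 0`).  If `e ≥ 1`: `(φ 0 - φ 1) z 0` is
  `ge ((3 e - 1) + e)` and `4 e - 1 ≥ 3 e`.  Same for `{2, 1}`.
-/

set_option autoImplicit false

open IsLocalRing
open scoped Matrix

namespace HB

variable {k K : Type} [Field k] [Field K] [Algebra k K] [CharZero k]

theorem Geo.inL_mul {X : Surf k K} (G : Geo X) (D : DV k K) {n φ : Fin 5 → K}
    (h0 : ∀ i, D.ge 0 (φ i)) (h3 : φ 3 = 0) (h4 : φ 4 = 0)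
    (hinf : ∀ i j : Fin 5, i < 3 → 3 ≤ j → D.ge (D.iB (G.pt i) (G.pt j)) (φ i))
    (h01 : 1 ≤ D.iB (G.pt 0) (G.pt 1) → D.ge (D.iB (G.pt 0) (G.pt 1) - 1) (φ 0 - φ 1))
    (h21 : 1 ≤ D.iB (G.pt 2) (G.pt 1) → D.ge (D.iB (G.pt 2) (G.pt 1) - 1) (φ 2 - φ 1))
    (h02 : D.iB (G.pt 0) (G.pt 2) = 0)
    (he : ∃ e, D.iB (G.pt 0) (G.pt 1) = 3 * e) (he' : ∃ e, D.iB (G.pt 2) (G.pt 1) = 3 * e)
    {x : Fin 5 → K} (hx : G.InL D n x) : G.InL D n (fun i => φ i * x i) := by
  obtain ⟨hz, hd, hz0, hz2⟩ := hx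
  have ew : ∀ i, φ i * x i / n i = φ i * (x i / n i) := fun i => mul_div_assoc _ _ _
  have hmul : ∀ (i : Fin 5) (m : ℤ) (z : K), D.ge m z → D.ge m (φ i * z) := by
    intro i m z h
    simpa using D.ge_mul (h0 i) h
  -- the basic inequality, for unordered pairs
  have hsym : ∀ i j : Fin 5, D.ge (D.iB (G.pt i) (G.pt j)) (φ i * (x i / n i) - φ j * (x j / n j)) →
      D.ge (D.iB (G.pt j) (G.pt i)) (φ j * (x j / n j) - φ i * (x i / n i)) := by
    intro i j h
    rw [D.iB_comm, ← neg_sub]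
    exact D.ge_neg h
  have hI : ∀ i j : Fin 5, i < 3 → 3 ≤ j →
      D.ge (D.iB (G.pt i) (G.pt j)) (φ i * (x i / n i) - φ j * (x j / n j)) := by
    intro i j hi hj
    have hj0 : φ j = 0 := by
      have : j = 3 ∨ j = 4 := by
        revert hj
        fin_cases j <;> decide
      rcases this with rfl | rfl
      · exact h3
      · exact h4
    rw [hj0, zero_mul, sub_zero]
    simpa using D.ge_mul (hinf i j hi hj) (hz i)
  have hP : ∀ i j : Fin 5, i ≠ j → (∃ e, D.iB (G.pt i) (G.pt j) = 3 * e) →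
      (1 ≤ D.iB (G.pt i) (G.pt j) → D.ge (D.iB (G.pt i) (G.pt j) - 1) (φ i - φ j)) →
      D.ge (D.iB (G.pt i) (G.pt j) / 3) (x i / n i) →
      D.ge (D.iB (G.pt i) (G.pt j)) (φ i * (x i / n i) - φ j * (x j / n j)) := by
    intro i j hij he hs hzi
    have e1 : φ i * (x i / n i) - φ j * (x j / n j) =
        φ j * (x i / n i - x j / n j) + (φ i - φ j) * (x i / n i) := by ring
    rw [e1]
    refine D.ge_add (hmul j _ _ (hd i j hij)) ?_
    obtain ⟨e, he⟩ := he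
    by_cases h1 : 1 ≤ D.iB (G.pt i) (G.pt j)
    · have h2 := D.ge_mul (hs h1) hzi
      refine D.ge_mono ?_ h2
      rw [he] at h1 ⊢
      omega
    · have h2 : D.ge 0 (φ i - φ j) := D.ge_sub (h0 i) (h0 j)
      refine D.ge_mono ?_ (D.ge_mul h2 (hz i))
      omega
  have h01' := hP 0 1 (by decide) he h01 hz0
  have h21' := hP 2 1 (by decide) he' h21 hz2
  have h02' : D.ge (D.iB (G.pt 0) (G.pt 2)) (φ 0 * (x 0 / n 0) - φ 2 * (x 2 / n 2)) := by
    rw [h02]
    exact D.ge_sub (hmul _ _ _ (hz 0)) (hmul _ _ _ (hz 2))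
  have h34' : D.ge (D.iB (G.pt 3) (G.pt 4)) (φ 3 * (x 3 / n 3) - φ 4 * (x 4 / n 4)) := by
    rw [h3, h4]
    left
    ring
  refine ⟨fun i => ?_, fun i j hij => ?_, ?_, ?_⟩
  · change D.ge 0 (φ i * x i / n i)
    rw [ew]
    exact hmul _ _ _ (hz i)
  · change D.ge _ (φ i * x i / n i - φ j * x j / n j)
    rw [ew, ew]
    fin_cases i <;> fin_cases j <;> first
      | exact absurd rfl hij
      | exact h01'
      | exact hsym _ _ h01'
      | exact h21'
      | exact hsym _ _ h21'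
      | exact h02'
      | exact hsym _ _ h02'
      | exact h34'
      | exact hsym _ _ h34'
      | exact hI _ _ (by decide) (by decide)
      | exact hsym _ _ (hI _ _ (by decide) (by decide))
  · change D.ge _ (φ 0 * x 0 / n 0)
    rw [ew]
    exact hmul _ _ _ hz0
  · change D.ge _ (φ 2 * x 2 / n 2)
    rw [ew]
    exact hmul _ _ _ hz2

end HB
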