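import Pool.Agent.HB.D.OmVal
import Pool.Agent.HB.Curve
import Pool.Agent.HB.B.BB

/-!
# HB-D-OmPt: the differential `dx/y` of the curve `B` at a point with values in `L`

Plan.  `R = C.1.toSubring`, `v = C.ord`, `D = KaehlerDifferential.D k L`; `Om k R` is an additive group
stable under `R` (`om_smul`).  Cases.
* `p = inf e`: `p.om = 0`.
* `p = aff x y h`, `v x ≥ 0` (or `x = 0`): then `y` is in `R`.  If `v y = 0` then `y⁻¹ • D x` is in `Om`
  (`om_D_mem`).  Otherwise (`y = 0` or `v y > 0`) `x` is a unit (`x^6 = y^2 - 1`), and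
  `2 y D y = 6 x^5 D x` (apply `D` to `y^2 = x^6 + 1`), so if `y ≠ 0`
  `y⁻¹ • D x = (3 x^5)⁻¹ • D y`; if `y = 0` then `6 x^5 D x = 0`, so `D x = 0`.
* `p = aff x y h`, `v x < 0`: with `a = x⁻¹`, `b = y / x^3`, `b^2 = 1 + a^6`, `v b = 0`,
  `D x = - x^2 D a` and `y⁻¹ • D x = - (a / b) • D a`.
`om_mem`: from these.
`om_inf`: `i = C.dv.iB p (inf e)`.  If `i = 0` use `om_mem` and `v c ≤ 0`.  If `i > 0` then `p` is not finite
at `C` (definition of `iB`) and `i ≤ v a` for `a = 1/x` (`DV.le_dmin`), so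
`c⁻¹ • p.om = - (a / (b c)) • D a`.  (`p ≠ inf e` and `i > 0` exclude `p = inf e'`: there `a = 0` and
`b - e = e' - e` is a nonzero constant, `dmin = 0`.)
`om_sub`: `i = C.dv.iB p q ≥ 1`, so both points are finite or both are not.
(a) both finite: `v (x - x') ≥ i`, `v (y - y') ≥ i` (`DV.le_dmin`; `ge`).  If `v y = 0` then also
`v y' = 0`, and `y⁻¹ • D x - y'⁻¹ • D x' = y⁻¹ • D (x - x') + ((y' - y)/(y y')) • D x'`; use `om_D` and
`om_smul_ge`.  If `y` is not a unit then `y'` neither, `x, x'` are units and the form is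
`(3 x^5)⁻¹ • D y` (also if `y = 0`: both sides are 0 as `D 0 = 0`): same computation with
`(3 x^5)⁻¹ - (3 x'^5)⁻¹` of order `≥ i`.
(b) both not finite: the form is `- (a/b) • D a` (also for `inf e` with `a = 0, b = e`), same
computation: `(a/b) D a - (a'/b') D a' = (a/b) D (a - a') + (a/b - a'/b') D a'`.
-/

set_option autoImplicit false

open IsLocalRing

namespace HB

universe u

namespace Surf

variable {k L : Type} [Field k] [Field L] [Algebra k L] {S : Surf k L}
  [CharZero k] [IsAlgClosed k]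

/-- The differential `dx / y` at the point `p` of `B`. -/
noncomputable def _root_.HB.BPt.om (k : Type) {L : Type} [Field k] [Field L] [Algebra k L]
    (p : BPt L) : Ω[L⁄k] := (p.y)⁻¹ • KaehlerDifferential.D k L p.x

private theorem om_pair (C : S.PD) {u z u' z' c : L} {i : ℤ} (hu : u ∈ C.1.toSubring)
    (hz' : z' ∈ C.1.toSubring) (hz : C.dv.ge i (z - z')) (huu : C.dv.ge i (u - u'))
    (hc0 : c ≠ 0) (hc : C.ord c ≤ i - 1) :
    c⁻¹ • (u • KaehlerDifferential.D k L z - u' • KaehlerDifferential.D k L z') ∈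
      Om k C.1.toSubring := by
  have e : c⁻¹ • (u • KaehlerDifferential.D k L z - u' • KaehlerDifferential.D k L z') =
      u • (c⁻¹ • KaehlerDifferential.D k L (z - z')) +
        c⁻¹ • ((u - u') • KaehlerDifferential.D k L z') := by
    rw [map_sub]
    module
  rw [e]
  exact add_mem (om_smul _ hu (om_D C hz hc0 hc))
    (om_smul_ge C (om_D_mem _ hz') hc0 (C.dv.ge_mono (by omega) huu))

private theorem inv_mem_of_unit (C : S.PD) {x : L} (hx : x ≠ 0) (hv : C.dv.v x = 0) :
    x⁻¹ ∈ C.1.toSubring := by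
  rw [← C.dv_ge_zero]
  right
  rw [C.dv.inv hx, hv]
  norm_num

/-- near the zeros of `y` the differential is `dy / (3 x^5)` -/
private theorem om_non (C : S.PD) {x y : L} (h : y ^ 2 = x ^ 6 + 1) (hy : C.dv.ge 1 y) :
    x ≠ 0 ∧ C.dv.v x = 0 ∧
      (BPt.aff x y h).om k = (3 * x ^ 5)⁻¹ • KaehlerDifferential.D k L y := by
  have : CharZero L := charZero_of_injective_algebraMap (algebraMap k L).injective
  have h2 : C.dv.ge 2 (y ^ 2) := by
    have := C.dv.ge_mul hy hy
    rw [sq]
    exact this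
  have h3 : x ^ 6 = -1 + y ^ 2 := by linear_combination -h
  have h4 := C.dv.add_eq_left (x := (-1 : L)) (y := y ^ 2) (by norm_num) (by
    rw [C.dv.neg, C.dv.one]
    exact C.dv.ge_mono (by norm_num) h2)
  rw [← h3, C.dv.neg, C.dv.one] at h4
  have hx : x ≠ 0 := by
    rintro rfl
    exact h4.1 (by norm_num)
  have hvx : C.dv.v x = 0 := by
    have := h4.2
    rw [C.dv.pow hx] at this
    push_cast at this
    omega
  refine ⟨hx, hvx, ?_⟩
  have hd : (2 * y) • KaehlerDifferential.D k L y = (6 * x ^ 5) • KaehlerDifferential.D k L x := by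
    have e := congrArg (KaehlerDifferential.D k L) h
    rw [map_add, Derivation.map_one_eq_zero, add_zero, Derivation.leibniz_pow,
      Derivation.leibniz_pow] at e
    have e1 : (2 : ℕ) • y ^ (2 - 1) • KaehlerDifferential.D k L y =
        (2 * y) • KaehlerDifferential.D k L y := by
      rw [← Nat.cast_smul_eq_nsmul L, smul_smul]
      norm_num
    have e2 : (6 : ℕ) • x ^ (6 - 1) • KaehlerDifferential.D k L x =
        (6 * x ^ 5) • KaehlerDifferential.D k L x := by
      rw [← Nat.cast_smul_eq_nsmul L, smul_smul]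
      norm_num
    rw [e1, e2] at e
    exact e
  change y⁻¹ • KaehlerDifferential.D k L x = _
  by_cases hy0 : y = 0
  · rw [hy0, inv_zero, zero_smul, map_zero, smul_zero]
  · have e3 : KaehlerDifferential.D k L x =
        (6 * x ^ 5)⁻¹ • ((2 * y) • KaehlerDifferential.D k L y) := by
      rw [hd, smul_smul, inv_mul_cancel₀ (mul_ne_zero (by norm_num) (pow_ne_zero _ hx)), one_smul]
    rw [e3, smul_smul, smul_smul]
    congr 1
    field_simp
    norm_num

/-- near infinity the differential is `- (xh / yh) d xh` -/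
private theorem om_infty (C : S.PD) (p : BPt L) (hp : ¬ p.IsFin C.dv) :
    p.om k = (-(p.xh / p.yh)) • KaehlerDifferential.D k L p.xh := by
  match p, hp with
  | .inf e he, _ =>
    change (0 : L)⁻¹ • KaehlerDifferential.D k L (0 : L) =
      (-((0 : L) / e)) • KaehlerDifferential.D k L (0 : L)
    rw [map_zero, smul_zero, smul_zero]
  | .aff x y h, hp =>
    have hx : x ≠ 0 := (BPt.aff_ne_zero_of_not_fin C.dv hp).1
    have hyh := (BPt.yh_of_not_fin C.dv _ hp).1
    have hy : y ≠ 0 := by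
      rintro rfl
      apply hyh
      change (0 : L) / x ^ 3 = 0
      rw [zero_div]
    change y⁻¹ • KaehlerDifferential.D k L x =
      (-(x⁻¹ / (y / x ^ 3))) • KaehlerDifferential.D k L x⁻¹
    rw [Derivation.leibniz_inv, smul_smul]
    congr 1
    field_simp

theorem om_mem (C : S.PD) (p : BPt L) : p.om k ∈ Om k C.1.toSubring := by
  by_cases hp : p.IsFin C.dv
  · have hx := (C.dv_ge_zero _).1 (BPt.ge_x C.dv p hp)
    have hy0 := BPt.ge_y C.dv p hp
    by_cases hy : C.dv.ge 1 p.y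
    · match p, hp, hx, hy0, hy with
      | .aff x y h, hp, hx, hy0, hy =>
        obtain ⟨hx0, hvx, e⟩ := om_non C h hy
        rw [e]
        refine om_smul _ ?_ (om_D_mem _ ((C.dv_ge_zero _).1 hy0))
        have : CharZero L := charZero_of_injective_algebraMap (algebraMap k L).injective
        apply inv_mem_of_unit C (mul_ne_zero (by norm_num) (pow_ne_zero _ hx0))
        rw [C.dv.mul (by norm_num) (pow_ne_zero _ hx0), C.dv.ofNat, C.dv.pow hx0, hvx]
        norm_num
    · obtain ⟨h1, h2⟩ := DV.unit_of_ge C.dv hy0 hy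
      exact om_smul _ (inv_mem_of_unit C h1 h2) (om_D_mem _ hx)
  · rw [om_infty C p hp]
    obtain ⟨h1, h2⟩ := BPt.yh_of_not_fin C.dv p hp
    have ha : p.xh ∈ C.1.toSubring :=
      (C.dv_ge_zero _).1 (C.dv.ge_mono (by norm_num) (BPt.xh_of_not_fin C.dv p hp))
    refine om_smul _ (neg_mem ?_) (om_D_mem _ ha)
    rw [div_eq_mul_inv]
    exact mul_mem ha (inv_mem_of_unit C h1 h2)

theorem om_inf (C : S.PD) (p : BPt L) (e : L) (he : e ^ 2 = 1) (hp : p ≠ BPt.inf e he)
    (c : L) (hc0 : c ≠ 0) (hc : C.ord c ≤ C.dv.iB p (BPt.inf e he)) :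
    c⁻¹ • p.om k ∈ Om k C.1.toSubring := by
  have hnf : ¬ (BPt.inf e he).IsFin C.dv := fun h => h
  by_cases hf : p.IsFin C.dv
  · rw [DV.iB_mix1 C.dv hf hnf] at hc
    refine om_smul _ ?_ (om_mem C p)
    rw [← C.dv_ge_zero]
    right
    rw [C.dv.inv hc0]
    have : C.dv.v c ≤ 0 := hc
    omega
  · rw [DV.iB_inf C.dv hf hnf] at hc
    have hne := BPt.coord_ne_inf C.dv hp hf hnf
    have h1 := ((C.dv.le_dmin hne _).1 hc).1
    have h2 : C.dv.ge (C.ord c) p.xh := by
      have e1 : p.xh - (BPt.inf e he).xh = p.xh := sub_zero _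
      rwa [e1] at h1
    obtain ⟨h3, h4⟩ := BPt.yh_of_not_fin C.dv p hf
    rw [om_infty C p hf]
    refine om_smul_ge C (om_D_mem _ ?_) hc0 ?_
    · exact (C.dv_ge_zero _).1 (C.dv.ge_mono (by norm_num) (BPt.xh_of_not_fin C.dv p hf))
    · apply C.dv.ge_neg
      rw [div_eq_mul_inv]
      have h5 : C.dv.ge 0 p.yh⁻¹ := by
        rw [C.dv_ge_zero]
        exact inv_mem_of_unit C h3 h4
      simpa using C.dv.ge_mul h2 h5

private theorem ge_div_sub (C : S.PD) {i : ℤ} {a b : L} (ha : a ≠ 0) (hva : C.dv.v a = 0)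
    (hb : b ≠ 0) (hvb : C.dv.v b = 0) (h : C.dv.ge i (a - b)) : C.dv.ge i (a⁻¹ - b⁻¹) := by
  have e : a⁻¹ - b⁻¹ = -(a - b) * (a⁻¹ * b⁻¹) := by
    field_simp
    ring
  rw [e]
  have h1 : C.dv.ge 0 a⁻¹ := by
    rw [C.dv_ge_zero]
    exact inv_mem_of_unit C ha hva
  have h2 : C.dv.ge 0 b⁻¹ := by
    rw [C.dv_ge_zero]
    exact inv_mem_of_unit C hb hvb
  simpa using C.dv.ge_mul (C.dv.ge_neg h) (C.dv.ge_mul h1 h2)

private theorem v_eq_zero_of_sub (C : S.PD) {a b : L} (ha : a ≠ 0) (hva : C.dv.v a = 0)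
    (h : C.dv.ge 1 (a - b)) : b ≠ 0 ∧ C.dv.v b = 0 := by
  have h1 := C.dv.add_eq_left ha (y := -(a - b)) (by
    rw [hva]
    exact C.dv.ge_neg h)
  have e : a + -(a - b) = b := by ring
  rw [e, hva] at h1
  exact h1

theorem om_sub (C : S.PD) (p q : BPt L) (hpq : p ≠ q) (hi : 1 ≤ C.dv.iB p q)
    (c : L) (hc0 : c ≠ 0) (hc : C.ord c ≤ C.dv.iB p q - 1) :
    c⁻¹ • (p.om k - q.om k) ∈ Om k C.1.toSubring := by
  have : CharZero L := charZero_of_injective_algebraMap (algebraMap k L).injective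
  by_cases hp : p.IsFin C.dv
  · by_cases hq : q.IsFin C.dv
    · -- both finite
      have hne := BPt.coord_ne_fin C.dv hpq hp hq
      rw [DV.iB_fin C.dv hp hq] at hi hc
      obtain ⟨gx, gy⟩ := (C.dv.le_dmin hne _).1 (le_refl (C.dv.dmin (p.x - q.x) (p.y - q.y)))
      have gy1 : C.dv.ge 1 (p.y - q.y) := C.dv.ge_mono hi gy
      have px := BPt.ge_x C.dv p hp
      have qx := BPt.ge_x C.dv q hq
      have py := BPt.ge_y C.dv p hp
      have qy := BPt.ge_y C.dv q hq
      by_cases hy : C.dv.ge 1 p.y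
      · have hy' : C.dv.ge 1 q.y := by
          have e : q.y = p.y - (p.y - q.y) := by ring
          rw [e]
          exact C.dv.ge_sub hy gy1
        match p, q, hp, hq, hpq, hne, hi, hc, gx, gy, gy1, px, qx, py, qy, hy, hy' with
        | .aff x y h, .aff x' y' h', hp, hq, hpq, hne, hi, hc, gx, gy, gy1, px, qx, py, qy,
            hy, hy' =>
          obtain ⟨hx0, hvx, e⟩ := om_non C h hy
          obtain ⟨hx0', hvx', e'⟩ := om_non C h' hy'
          rw [e, e']
          have n1 : (3 * x ^ 5 : L) ≠ 0 := mul_ne_zero (by norm_num) (pow_ne_zero _ hx0)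
          have n2 : (3 * x' ^ 5 : L) ≠ 0 := mul_ne_zero (by norm_num) (pow_ne_zero _ hx0')
          have w1 : C.dv.v (3 * x ^ 5 : L) = 0 := by
            rw [C.dv.mul (by norm_num) (pow_ne_zero _ hx0), C.dv.ofNat, C.dv.pow hx0, hvx]
            norm_num
          have w2 : C.dv.v (3 * x' ^ 5 : L) = 0 := by
            rw [C.dv.mul (by norm_num) (pow_ne_zero _ hx0'), C.dv.ofNat, C.dv.pow hx0', hvx']
            norm_num
          refine om_pair C (inv_mem_of_unit C n1 w1) ((C.dv_ge_zero _).1 qy) gy ?_ hc0 hc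
          refine ge_div_sub C n1 w1 n2 w2 ?_
          have e3 : (3 * x ^ 5 : L) - 3 * x' ^ 5 =
              (x - x') * (3 * (x ^ 4 + x ^ 3 * x' + x ^ 2 * x' ^ 2 + x * x' ^ 3 + x' ^ 4)) := by
            ring
          rw [e3]
          have g4 : C.dv.ge 0
              (3 * (x ^ 4 + x ^ 3 * x' + x ^ 2 * x' ^ 2 + x * x' ^ 3 + x' ^ 4) : L) := by
            rw [C.dv_ge_zero]
            have mx : x ∈ C.1.toSubring := (C.dv_ge_zero _).1 px
            have mx' : x' ∈ C.1.toSubring := (C.dv_ge_zero _).1 qx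
            have m3 : (3 : L) ∈ C.1.toSubring := by
              have := natCast_mem C.1.toSubring 3
              exact_mod_cast this
            refine mul_mem m3 ?_
            refine add_mem (add_mem (add_mem (add_mem ?_ ?_) ?_) ?_) ?_
            · exact pow_mem mx 4
            · exact mul_mem (pow_mem mx 3) mx'
            · exact mul_mem (pow_mem mx 2) (pow_mem mx' 2)
            · exact mul_mem mx (pow_mem mx' 3)
            · exact pow_mem mx' 4
          have := C.dv.ge_mul gx g4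
          rw [add_zero] at this
          exact this
      · obtain ⟨h1, h2⟩ := DV.unit_of_ge C.dv py hy
        obtain ⟨h1', h2'⟩ := v_eq_zero_of_sub C h1 h2 gy1
        exact om_pair C (inv_mem_of_unit C h1 h2) ((C.dv_ge_zero _).1 qx) gx
          (ge_div_sub C h1 h2 h1' h2' gy) hc0 hc
    · rw [DV.iB_mix1 C.dv hp hq] at hi
      exact absurd hi (by norm_num)
  · by_cases hq : q.IsFin C.dv
    · rw [DV.iB_mix2 C.dv hp hq] at hi
      exact absurd hi (by norm_num)
    · -- both not finite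
      have hne := BPt.coord_ne_inf C.dv hpq hp hq
      rw [DV.iB_inf C.dv hp hq] at hi hc
      obtain ⟨ga, gb⟩ := (C.dv.le_dmin hne _).1 (le_refl (C.dv.dmin (p.xh - q.xh) (p.yh - q.yh)))
      obtain ⟨b1, b2⟩ := BPt.yh_of_not_fin C.dv p hp
      obtain ⟨b1', b2'⟩ := BPt.yh_of_not_fin C.dv q hq
      have a1 : p.xh ∈ C.1.toSubring :=
        (C.dv_ge_zero _).1 (C.dv.ge_mono (by norm_num) (BPt.xh_of_not_fin C.dv p hp))
      have a1' : q.xh ∈ C.1.toSubring :=
        (C.dv_ge_zero _).1 (C.dv.ge_mono (by norm_num) (BPt.xh_of_not_fin C.dv q hq))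
      rw [om_infty C p hp, om_infty C q hq]
      refine om_pair C (neg_mem ?_) a1' ga ?_ hc0 hc
      · rw [div_eq_mul_inv]
        exact mul_mem a1 (inv_mem_of_unit C b1 b2)
      · have e : -(p.xh / p.yh) - -(q.xh / q.yh) =
            -((p.xh - q.xh) * p.yh⁻¹ + (p.yh⁻¹ - q.yh⁻¹) * q.xh) := by
          rw [div_eq_mul_inv, div_eq_mul_inv]
          ring
        rw [e]
        apply C.dv.ge_neg
        apply C.dv.ge_add
        · have h5 : C.dv.ge 0 p.yh⁻¹ := by
            rw [C.dv_ge_zero]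
            exact inv_mem_of_unit C b1 b2
          have := C.dv.ge_mul ga h5
          rwa [add_zero] at this
        · have := C.dv.ge_mul (ge_div_sub C b1 b2 b1' b2' gb) ((C.dv_ge_zero _).2 a1')
          rwa [add_zero] at this

end Surf

end HB
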