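import Pool.Agent.HB.D.Bundle
import Pool.Agent.HB.D.InLMul
import Pool.Agent.HB.D.OmPt
import Pool.Agent.HB.A.OmegaC

/-!
# HB-D-Higgs: the Higgs field `diag (dx_i / y_i)`

Plan.
* `phi_ge`: let `m_P = (a, b)` and `pt_i.om = φ i • D a + ψ i • D b` (`i : Fin 5`).  For every curve `C`
  through `P` the family `φ` satisfies the hypotheses of `inL_mul` with `D = C.dv`: for `c ≠ 0` and an element
  `w = f • D a + g • D b` with `c⁻¹ • w ∈ Om k O_C` one gets `f/c, g/c ∈ O_C` (`Pt.mem_om_iff_on`), that is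
  `D.ge (C.ord c) f` and `D.ge (C.ord c) g`; take `c` with `C.ord c = n` (`PD.exists_ord_eq`) and use `om_mem`
  (`n = 0`, `c = 1`), `om_inf` (`n = iB`, `G.pt 3 = inf 1`, `G.pt 4 = inf (-1)`), `om_sub` (`n = iB - 1`).
  Symmetric in `a, b`: prove the statement for both coordinates at once.
* `mul_mem`: for `x ∈ E P` the vector `(φ i * x i)_i` is in `E P`: `mem_latt_of_forall` (`D/Latt.lean`):
  it is enough to be in `latt O_C (FF P)` for all `C` through `P` (`latt_mono`), which is `Lam Z C`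
  (`latt_FF`), that is `InL C.dv (nloc O_C)`; `inL_mul` (`iB02`; `he` from `(W.isLoc P).d_val` with
  `nonNeg_of_on`).
* `higgs.map`: `appl (diagonal lam) x i = x i • lam i = (φ i * x i) • D a + (ψ i * x i) • D b`
  (`Matrix.diagonal_apply`, `Finset.sum_eq_single i`), the sum of two generators of `twist`
  (`e • D a`, `e ∈ E P`, `a ∈ O_P`).
* `higgs.wedge`: diagonal; `ExteriorAlgebra.ι_sq_zero`.
-/

set_option autoImplicit false

open IsLocalRing
open scoped Matrix

namespace HB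

variable {k K : Type} [Field k] [Field K] [Algebra k K] [CharZero k] [IsAlgClosed k] [CharZero K]
  {X : Surf k K}

private theorem hg_key {P : X.Pt} (a b : P.1.toSubring)
    (hm : maximalIdeal P.1.toSubring = Ideal.span {a, b}) {C : X.PD} (hC : Surf.On P C)
    {c f g : K} (hc : c ≠ 0)
    (h : c⁻¹ • (f • KaehlerDifferential.D k K (a : K) + g • KaehlerDifferential.D k K (b : K)) ∈
      Surf.Om k C.1.toSubring) : C.dv.ge (C.ord c) f ∧ C.dv.ge (C.ord c) g := by
  rw [smul_add, smul_smul, smul_smul, P.mem_om_iff_on a b hm C hC] at h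
  have aux : ∀ t : K, c⁻¹ * t ∈ C.1.toSubring → C.dv.ge (C.ord c) t := by
    intro t ht
    by_cases h0 : t = 0
    · exact Or.inl h0
    · right
      have h1 := C.dv.le_of_ge (mul_ne_zero (inv_ne_zero hc) h0) ((C.dv_ge_zero _).2 ht)
      rw [C.dv.mul (inv_ne_zero hc) h0, C.dv.inv hc] at h1
      have h2 : C.dv.v c = C.ord c := rfl
      omega
  exact ⟨aux f h.1, aux g h.2⟩

omit [CharZero k] [IsAlgClosed k] [CharZero K] in
private theorem hg_om_inf (e : K) (he : e ^ 2 = 1) : (BPt.inf e he).om k = 0 := by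
  unfold BPt.om
  change (0 : K)⁻¹ • KaehlerDifferential.D k K (0 : K) = 0
  rw [map_zero, smul_zero]

private theorem hg_zero {P : X.Pt} (a b : P.1.toSubring)
    (hm : maximalIdeal P.1.toSubring = Ideal.span {a, b}) {f g : K}
    (h : (0 : Ω[K⁄k]) = f • KaehlerDifferential.D k K (a : K) +
      g • KaehlerDifferential.D k K (b : K)) : f = 0 ∧ g = 0 :=
  LinearIndependent.pair_iff.1 (P.omega_li a b hm) f g h.symm

theorem Geo.phi_ge (hX : X.Smooth) (G : Geo X) {P : X.Pt} (a b : P.1.toSubring)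
    (hm : maximalIdeal P.1.toSubring = Ideal.span {a, b}) {φ ψ : Fin 5 → K}
    (h : ∀ i, (G.pt i).om k = φ i • KaehlerDifferential.D k K (a : K) +
      ψ i • KaehlerDifferential.D k K (b : K)) {C : X.PD} (hC : Surf.On P C) :
    ∀ χ : Fin 5 → K, (χ = φ ∨ χ = ψ) → (∀ i, C.dv.ge 0 (χ i)) ∧ χ 3 = 0 ∧ χ 4 = 0 ∧
      (∀ i j : Fin 5, i < 3 → 3 ≤ j → C.dv.ge (C.dv.iB (G.pt i) (G.pt j)) (χ i)) ∧
      (∀ i j : Fin 5, i ≠ j → 1 ≤ C.dv.iB (G.pt i) (G.pt j) →
        C.dv.ge (C.dv.iB (G.pt i) (G.pt j) - 1) (χ i - χ j)) := by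
  have h0 : ∀ i, C.dv.ge 0 (φ i) ∧ C.dv.ge 0 (ψ i) := by
    intro i
    have h1 := Surf.om_mem (k := k) C (G.pt i)
    rw [h i] at h1
    have h2 : (1 : K)⁻¹ • (φ i • KaehlerDifferential.D k K (a : K) +
        ψ i • KaehlerDifferential.D k K (b : K)) ∈ Surf.Om k C.1.toSubring := by
      rw [inv_one, one_smul]
      exact h1
    have h3 := hg_key a b hm hC one_ne_zero h2
    have h4 : C.ord (1 : K) = 0 := C.dv.one
    rw [h4] at h3
    exact h3
  have h3 : φ 3 = 0 ∧ ψ 3 = 0 := by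
    apply hg_zero a b hm
    rw [← h 3, G.pt3]
    exact (hg_om_inf _ _).symm
  have h4 : φ 4 = 0 ∧ ψ 4 = 0 := by
    apply hg_zero a b hm
    rw [← h 4, G.pt4]
    exact (hg_om_inf _ _).symm
  have hi : ∀ i j : Fin 5, i < 3 → 3 ≤ j → C.dv.ge (C.dv.iB (G.pt i) (G.pt j)) (φ i) ∧
      C.dv.ge (C.dv.iB (G.pt i) (G.pt j)) (ψ i) := by
    intro i j hi hj
    have hij : i ≠ j := fun hij => by
      rw [hij] at hi
      exact absurd hi (not_lt.2 hj)
    have hne := G.pt_ne hij
    have key : ∀ (e : K) (he : e ^ 2 = 1), G.pt j = BPt.inf e he →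
        C.dv.ge (C.dv.iB (G.pt i) (G.pt j)) (φ i) ∧
          C.dv.ge (C.dv.iB (G.pt i) (G.pt j)) (ψ i) := by
      intro e he hje
      rw [hje] at hne ⊢
      obtain ⟨c, hc0, hc⟩ := C.exists_ord_eq (C.dv.iB (G.pt i) (BPt.inf e he))
      have h1 := Surf.om_inf (k := k) C (G.pt i) e he hne c hc0 hc.le
      rw [h i] at h1
      have h2 := hg_key a b hm hC hc0 h1
      rwa [hc] at h2
    have hall : ∀ j : Fin 5, 3 ≤ j → j = 3 ∨ j = 4 := by decide
    have hj' : j = 3 ∨ j = 4 := hall j hj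
    rcases hj' with rfl | rfl
    · exact key _ _ G.pt3
    · exact key _ _ G.pt4
  have hs : ∀ i j : Fin 5, i ≠ j → 1 ≤ C.dv.iB (G.pt i) (G.pt j) →
      C.dv.ge (C.dv.iB (G.pt i) (G.pt j) - 1) (φ i - φ j) ∧
        C.dv.ge (C.dv.iB (G.pt i) (G.pt j) - 1) (ψ i - ψ j) := by
    intro i j hij h1
    obtain ⟨c, hc0, hc⟩ := C.exists_ord_eq (C.dv.iB (G.pt i) (G.pt j) - 1)
    have h2 := Surf.om_sub (k := k) C (G.pt i) (G.pt j) (G.pt_ne hij) h1 c hc0 hc.le
    have e1 : (G.pt i).om k - (G.pt j).om k =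
        (φ i - φ j) • KaehlerDifferential.D k K (a : K) +
          (ψ i - ψ j) • KaehlerDifferential.D k K (b : K) := by
      rw [h i, h j]
      module
    rw [e1] at h2
    have h5 := hg_key a b hm hC hc0 h2
    rwa [hc] at h5
  intro χ hχ
  rcases hχ with rfl | rfl
  · exact ⟨fun i => (h0 i).1, h3.1, h4.1, fun i j h1 h2 => (hi i j h1 h2).1,
      fun i j h1 h2 => (hs i j h1 h2).1⟩
  · exact ⟨fun i => (h0 i).2, h3.2, h4.2, fun i j h1 h2 => (hi i j h1 h2).2,
      fun i j h1 h2 => (hs i j h1 h2).2⟩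

theorem Geo.mul_mem (hX : X.Smooth) (G : Geo X) (Z : ZPair k) (W : G.LocData) {P : X.Pt}
    (a b : P.1.toSubring)
    (hm : maximalIdeal P.1.toSubring = Ideal.span {a, b}) {φ ψ : Fin 5 → K}
    (h : ∀ i, (G.pt i).om k = φ i • KaehlerDifferential.D k K (a : K) +
      ψ i • KaehlerDifferential.D k K (b : K)) {x : Fin 5 → K} (hx : x ∈ (G.bundle hX Z W).E P) :
    (fun i => φ i * x i) ∈ (G.bundle hX Z W).E P ∧
      (fun i => ψ i * x i) ∈ (G.bundle hX Z W).E P := by
  have key : ∀ χ : Fin 5 → K, (χ = φ ∨ χ = ψ) →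
      (fun i => χ i * x i) ∈ latt P.1.toSubring (G.FF Z W P) := by
    intro χ hχ
    refine Surf.mem_latt_of_forall hX P _ (G.FF_det hX Z W P) _ fun C hC => ?_
    obtain ⟨h0, h3, h4, hi, hs⟩ := G.phi_ge hX a b hm h hC χ hχ
    have hx1 : x ∈ latt C.1.toSubring (G.FF Z W P) := Surf.latt_mono hC _ hx
    rw [G.latt_FF hX Z W hC] at hx1 ⊢
    have hD := Surf.nonNeg_of_on hC
    exact G.inL_mul C.dv h0 h3 h4 hi (fun h5 => hs 0 1 (by decide) h5)
      (fun h5 => hs 2 1 (by decide) h5) (G.iB02 C.dv)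
      ⟨_, ((W.isLoc P).d_val C.dv hD).symm⟩ ⟨_, ((W.isLoc P).d'_val C.dv hD).symm⟩ hx1
  exact ⟨key φ (Or.inl rfl), key ψ (Or.inr rfl)⟩

theorem Geo.higgs (hX : X.Smooth) (G : Geo X) (Z : ZPair k) (W : G.LocData) :
    IsHiggs (G.bundle hX Z W).E (Matrix.diagonal fun i => (G.pt i).om k) := by
  refine ⟨fun P x hx => ?_, fun i j => ?_⟩
  · obtain ⟨a, b, hm⟩ := hX P
    have hex : ∀ i, ∃ f g : K, f • KaehlerDifferential.D k K (a : K) +
        g • KaehlerDifferential.D k K (b : K) = (G.pt i).om k := by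
      intro i
      have h1 : (G.pt i).om k ∈ Submodule.span K
          {KaehlerDifferential.D k K (a : K), KaehlerDifferential.D k K (b : K)} := by
        rw [P.omega_top a b hm]
        trivial
      exact Submodule.mem_span_pair.1 h1
    choose φ ψ hφ using hex
    obtain ⟨h1, h2⟩ := G.mul_mem hX Z W a b hm (fun i => (hφ i).symm) hx
    have e1 : appl (Matrix.diagonal fun i => (G.pt i).om k) x =
        (fun i => (φ i * x i) • KaehlerDifferential.D k K (a : K)) +
          fun i => (ψ i * x i) • KaehlerDifferential.D k K (b : K) := by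
      funext i
      unfold appl
      rw [Finset.sum_eq_single i]
      · rw [Matrix.diagonal_apply_eq, ← hφ i, Pi.add_apply]
        module
      · intro j _ hj
        rw [Matrix.diagonal_apply_ne _ hj.symm, smul_zero]
      · intro hi
        exact absurd (Finset.mem_univ i) hi
    rw [e1]
    refine AddSubgroup.add_mem _ (AddSubgroup.subset_closure ?_) (AddSubgroup.subset_closure ?_)
    · exact ⟨_, h1, a, a.2, rfl⟩
    · exact ⟨_, h2, b, b.2, rfl⟩
  · refine Finset.sum_eq_zero fun m _ => ?_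
    by_cases him : i = m
    · subst him
      by_cases hij : i = j
      · subst hij
        rw [ExteriorAlgebra.ι_sq_zero]
      · rw [Matrix.diagonal_apply_ne _ hij, map_zero, mul_zero]
    · rw [Matrix.diagonal_apply_ne _ him, map_zero, zero_mul]

end HB
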