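import Pool.Agent.HB.Z.Marks
import Pool.Agent.HB.B.BB
import Pool.Agent.HB.F.Defs
import Pool.Agent.HB.F.Van

/-!
# HB-D-I02: marks which never meet

* `iB_alp_self`: `i(p, α p) = 0` for every point `p`.  `IsFin`: `α p = (z x, -y)` is `IsFin`, `iB = dmin
  ((1 - z) x) (2 y)`; `v (1 - z) = 0` (`(1 - z)(1 - z²) = 3`: both factors are integral).  If `v x > 0` or
  `x = 0` then `y` is a unit (`y² = x⁶ + 1`) and `(1-z)x` is integral; otherwise `v x = 0`.  Not `IsFin`: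
  both not, `yh (α p) = - yh p` (`z³ = 1`), `dmin (xh - xh') (2 yh)`, `v yh = 0` (`yh_of_not_fin`), first
  argument integral (`xh_of_not_fin`).
* `i02`: `G.pt 2 = (G.pt 0).alp (algebraMap ζ)` by `G.x2`, `G.y2`.
* `i34`: `inf 1`, `inf (-1)`: `dmin 0 2 = 0`.
* `pairs`: if both multiplicities are positive then by `iB_ultra` all three pairs of `{i,j,l}` meet
  along `C`.  `{0,2} ⊆ {i,j,l}` or `{3,4} ⊆ {i,j,l}` contradicts `i02`, `i34` (`iB_comm`).  Otherwise
  `{i,j,l} = {a, 1, z}` with `a ∈ {0,2}`, `z ∈ {3,4}`: `x a` and `x 1` have negative order along `C`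
  (`iB (pt z) (aff ..) > 0` forces not `IsFin`), hence `x 0` and `x 1` too (`x 2 = ζ x 0`).  Then
  `hA.nonconst C (1/t) 0 0 1` applies: `1/t = 1/(x 0 x 1)`, `s/t = 1/x 0 + 1/x 1` vanish along `C`,
  `t/t - 1 = 0`: it gives `1 = 0`.  (`Van`: membership in the maximal ideal; use `F/Van.lean` or
  `PD.dv_ge_zero`, `mem_maximalIdeal_iff_ordS`.)
-/

set_option autoImplicit false

namespace HB

variable {k K : Type} [Field k] [Field K] [Algebra k K] [CharZero k]

omit [CharZero k] in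
private theorem aff_congrI {x y x' y' : K} {h : y ^ 2 = x ^ 6 + 1} {h' : y' ^ 2 = x' ^ 6 + 1}
    (hx : x = x') (hy : y = y') : BPt.aff x y h = BPt.aff x' y' h' := by
  subst hx; subst hy; rfl

private theorem one_sub_unit (D : DV k K) {z : K} (hz : z ^ 2 + z + 1 = 0) :
    1 - z ≠ 0 ∧ D.v (1 - z) = 0 := by
  have : CharZero K := charZero_of_injective_algebraMap (algebraMap k K).injective
  obtain ⟨h0, hv, h3⟩ := BPt.zeta_unit D hz
  have e : (1 - z) * (1 - z ^ 2) = 3 := by linear_combination h3 - hz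
  have h30 : (3 : K) ≠ 0 := by norm_num
  have hne : (1 - z) * (1 - z ^ 2) ≠ 0 := by rw [e]; exact h30
  have n1 : 1 - z ≠ 0 := left_ne_zero_of_mul hne
  have n2 : 1 - z ^ 2 ≠ 0 := right_ne_zero_of_mul hne
  have hv3 : D.v (1 - z) + D.v (1 - z ^ 2) = 0 := by
    rw [← D.mul n1 n2, e, D.ofNat]
  have g1 := D.le_of_ge n1 (D.ge_sub D.ge_one (Or.inr hv.ge))
  have g2 := D.le_of_ge n2 (D.ge_sub D.ge_one (D.ge_pow (Or.inr hv.ge) 2))
  exact ⟨n1, by omega⟩

theorem DV.iB_alp_self (D : DV k K) (p : BPt K) (z : K) (hz : z ^ 2 + z + 1 = 0) :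
    D.iB p (p.alp z hz) = 0 := by
  have : CharZero K := charZero_of_injective_algebraMap (algebraMap k K).injective
  obtain ⟨c1, c2, c3, c4⟩ := p.alp_coord z hz
  obtain ⟨u0, uv⟩ := one_sub_unit D hz
  have h20 : (2 : K) ≠ 0 := by norm_num
  have h2v : D.v (2 : K) = 0 := D.ofNat
  by_cases hp : p.IsFin D
  · have hq := (p.isFin_alp D z hz).2 hp
    rw [D.iB_fin hp hq, c1, c2]
    have e1 : p.x - z * p.x = (1 - z) * p.x := by ring
    have e2 : p.y - -p.y = 2 * p.y := by ring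
    rw [e1, e2]
    have gx := p.ge_x D hp
    have gy := p.ge_y D hp
    have g1 : D.ge 0 ((1 - z) * p.x) := by
      have := D.ge_mul (D.ge_of_le uv.ge) gx
      simpa using this
    have g2 : D.ge 0 (2 * p.y) := by
      have := D.ge_mul (D.ge_of_le h2v.ge) gy
      simpa using this
    by_cases hx : D.ge 1 p.x
    · have h6 : D.ge 1 (p.x ^ 6) := by
        have e : p.x ^ 6 = p.x * p.x ^ 5 := by ring
        rw [e]
        have := D.ge_mul hx (D.ge_pow gx 5)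
        simpa using this
      have h7 := D.add_eq_left (x := (1 : K)) (y := p.x ^ 6) one_ne_zero
        (by rw [D.one]; exact h6)
      rw [add_comm (1 : K), ← p.y_sq D hp, D.one] at h7
      have hy : p.y ≠ 0 := by
        intro h0
        rw [h0] at h7
        exact h7.1 (by ring)
      have hvy := D.v_eq_zero_of_pow (n := 2) (by norm_num) hy h7.2
      rw [D.dmin_comm]
      exact D.dmin_eq_zero (mul_ne_zero h20 hy) (by rw [D.mul h20 hy, h2v, hvy, add_zero]) g1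
    · obtain ⟨x0, xv⟩ := D.unit_of_ge gx hx
      exact D.dmin_eq_zero (mul_ne_zero u0 x0) (by rw [D.mul u0 x0, uv, xv, add_zero]) g2
  · have hq : ¬ (p.alp z hz).IsFin D := fun h => hp ((p.isFin_alp D z hz).1 h)
    rw [D.iB_inf hp hq]
    have g1 := D.ge_mono (m := 0) (by norm_num) (D.ge_sub (p.xh_of_not_fin D hp)
      ((p.alp z hz).xh_of_not_fin D hq))
    obtain ⟨y0, yv⟩ := p.yh_of_not_fin D hp
    rw [D.dmin_comm, c4]
    have e2 : p.yh - -p.yh = 2 * p.yh := by ring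
    rw [e2]
    exact D.dmin_eq_zero (mul_ne_zero h20 y0) (by rw [D.mul h20 y0, h2v, yv, add_zero]) g1

variable {X : Surf k K} (G : Geo X)

omit [CharZero k] in
private theorem hzG (G : Geo X) : (algebraMap k K G.ζ) ^ 2 + algebraMap k K G.ζ + 1 = 0 := by
  have h := congrArg (algebraMap k K) G.hζ
  rw [map_add, map_add, map_pow, map_one, map_zero] at h
  exact h

omit [CharZero k] in
private theorem pt2_alp (G : Geo X) : G.pt 2 = (G.pt 0).alp (algebraMap k K G.ζ) (hzG G) := by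
  rw [G.pt2, G.pt0]
  exact aff_congrI G.x2 G.y2

private theorem comb : ∀ i j l : Fin 5, i ≠ j → j ≠ l → i ≠ l →
    ((0 = i ∨ 0 = j ∨ 0 = l) ∧ (2 = i ∨ 2 = j ∨ 2 = l)) ∨
    ((3 = i ∨ 3 = j ∨ 3 = l) ∧ (4 = i ∨ 4 = j ∨ 4 = l)) ∨
    ((1 = i ∨ 1 = j ∨ 1 = l) ∧ ((0 = i ∨ 0 = j ∨ 0 = l) ∨ (2 = i ∨ 2 = j ∨ 2 = l)) ∧
      ((3 = i ∨ 3 = j ∨ 3 = l) ∨ (4 = i ∨ 4 = j ∨ 4 = l))) := by
  decide

private theorem notfin_of (D : DV k K) {p q : BPt K} (hq : ¬ q.IsFin D) (h : 1 ≤ D.iB p q) :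
    ¬ p.IsFin D := by
  intro hp
  rw [D.iB_mix1 hp hq] at h
  omega

theorem Geo.pairs [IsAlgClosed k] (hA : X.AFacts) (hpt : ∀ i j, i ≠ j → G.pt i ≠ G.pt j)
    (C : X.PD) {i j l : Fin 5} (hij : i ≠ j) (hjl : j ≠ l) (hil : i ≠ l) :
    C.dv.iB (G.pt i) (G.pt j) = 0 ∨ C.dv.iB (G.pt j) (G.pt l) = 0 := by
  by_contra hcon
  rw [not_or] at hcon
  obtain ⟨hc1, hc2⟩ := hcon
  have n1 := C.dv.iB_nonneg (hpt i j hij)
  have n2 := C.dv.iB_nonneg (hpt j l hjl)
  have p1 : 1 ≤ C.dv.iB (G.pt i) (G.pt j) := by omega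
  have p2 : 1 ≤ C.dv.iB (G.pt j) (G.pt l) := by omega
  have p3 : 1 ≤ C.dv.iB (G.pt i) (G.pt l) :=
    (le_min p1 p2).trans (C.dv.iB_ultra (hpt i j hij) (hpt j l hjl) (hpt i l hil))
  have key : ∀ a b : Fin 5, (a = i ∨ a = j ∨ a = l) → (b = i ∨ b = j ∨ b = l) → a ≠ b →
      1 ≤ C.dv.iB (G.pt a) (G.pt b) := by
    intro a b ha hb hab
    rcases ha with rfl | rfl | rfl <;> rcases hb with rfl | rfl | rfl
    · exact absurd rfl hab
    · exact p1
    · exact p3
    · rw [C.dv.iB_comm]; exact p1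
    · exact absurd rfl hab
    · exact p2
    · rw [C.dv.iB_comm]; exact p3
    · rw [C.dv.iB_comm]; exact p2
    · exact absurd rfl hab
  rcases comb i j l hij hjl hil with ⟨h0, h2⟩ | ⟨h3, h4⟩ | ⟨h1, ha, hz⟩
  · have h := key 0 2 h0 h2 (by decide)
    rw [G.i02] at h
    omega
  · have h := key 3 4 h3 h4 (by decide)
    rw [G.i34] at h
    omega
  · have nf3 : ¬ (G.pt 3).IsFin C.dv := by
      rw [G.pt3]; exact fun h => h
    have nf4 : ¬ (G.pt 4).IsFin C.dv := by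
      rw [G.pt4]; exact fun h => h
    have f1 : ¬ (G.pt 1).IsFin C.dv := by
      rcases hz with h3 | h4
      · exact notfin_of C.dv nf3 (key 1 3 h1 h3 (by decide))
      · exact notfin_of C.dv nf4 (key 1 4 h1 h4 (by decide))
    have f0 : ¬ (G.pt 0).IsFin C.dv := by
      rcases ha with h0 | h2
      · rcases hz with h3 | h4
        · exact notfin_of C.dv nf3 (key 0 3 h0 h3 (by decide))
        · exact notfin_of C.dv nf4 (key 0 4 h0 h4 (by decide))
      · have f2 : ¬ (G.pt 2).IsFin C.dv := by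
          rcases hz with h3 | h4
          · exact notfin_of C.dv nf3 (key 2 3 h2 h3 (by decide))
          · exact notfin_of C.dv nf4 (key 2 4 h2 h4 (by decide))
        rw [pt2_alp] at f2
        exact fun h => f2 (((G.pt 0).isFin_alp C.dv _ (hzG G)).2 h)
    rw [G.pt1] at f1
    rw [G.pt0] at f0
    obtain ⟨x1, v1⟩ := BPt.aff_ne_zero_of_not_fin C.dv f1
    obtain ⟨x0, v0⟩ := BPt.aff_ne_zero_of_not_fin C.dv f0
    have i0 : C.dv.ge 1 ((G.x 0)⁻¹) := Or.inr (by rw [C.dv.inv x0]; omega)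
    have i1 : C.dv.ge 1 ((G.x 1)⁻¹) := Or.inr (by rw [C.dv.inv x1]; omega)
    have e1 : (G.x 0 * G.x 1)⁻¹ - algebraMap k K 0 = (G.x 0)⁻¹ * (G.x 1)⁻¹ := by
      rw [map_zero, sub_zero, mul_inv]
    have e2 : (G.x 0 * G.x 1)⁻¹ * X.s - algebraMap k K 0 = (G.x 0)⁻¹ + (G.x 1)⁻¹ := by
      rw [map_zero, sub_zero, G.hs]
      field_simp
      ring
    have e3 : (G.x 0 * G.x 1)⁻¹ * X.t - algebraMap k K 1 = 0 := by
      rw [map_one, G.ht, inv_mul_cancel₀ (mul_ne_zero x0 x1), sub_self]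
    have hn := hA.nonconst C ((G.x 0 * G.x 1)⁻¹) 0 0 1
      ((hA.van_iff_ge C _).2 (by
        rw [e1]
        exact C.dv.ge_mono (by norm_num) (C.dv.ge_mul i0 i1)))
      ((hA.van_iff_ge C _).2 (by
        rw [e2]
        exact C.dv.ge_add i0 i1))
      ((hA.van_iff_ge C _).2 (by
        rw [e3]
        exact Or.inl rfl))
    exact one_ne_zero hn.2.2

end HB
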