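import Pool.Agent.HB.A.FacA
import Pool.Agent.HB.Bun

/-!
# HB-D-Latt: lattices at closed points are intersections of lattices at prime divisors

Plan.
* `mem_latt_iff`: `x = A *ᵥ c` iff `c = A⁻¹ *ᵥ x` (`A.det` is a unit: `Matrix.nonsing_inv_mul`,
  `Matrix.mulVec_mulVec`).
* `latt_mono`: clear.
* `mem_latt_of_forall`: the coordinates `(A⁻¹ *ᵥ x) i` are in `O_C` for all `C` through `Q`, hence in
  `O_Q` (`Pt.mem_iff`, `PD.mem_iff` or `mem_iff_ordS`; zero is trivial).
* `latt_eq_of_forall`: both inclusions from `mem_latt_of_forall` (an element of `latt O_Q A` is in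
  `latt O_C A = latt O_C B` for all `C` through `Q`).
-/

set_option autoImplicit false

open IsLocalRing

namespace HB

universe u

open scoped Matrix

namespace Surf

variable {k L : Type u} [Field k] [Field L] [Algebra k L] {S : Surf k L}
  [CharZero k] [IsAlgClosed k]

theorem mem_latt_iff {r : ℕ} (R : Subring L) (A : Matrix (Fin r) (Fin r) L) (hA : A.det ≠ 0)
    (x : Fin r → L) : x ∈ latt R A ↔ ∀ i, (A⁻¹ *ᵥ x) i ∈ R := by
  have hu : IsUnit A.det := hA.isUnit
  constructor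
  · rintro ⟨c, hc, rfl⟩ i
    rw [Matrix.mulVec_mulVec, Matrix.nonsing_inv_mul A hu, Matrix.one_mulVec]
    exact hc i
  · intro h
    refine ⟨A⁻¹ *ᵥ x, h, ?_⟩
    rw [Matrix.mulVec_mulVec, Matrix.mul_nonsing_inv A hu, Matrix.one_mulVec]

theorem latt_mono {r : ℕ} {R R' : Subring L} (h : R ≤ R') (A : Matrix (Fin r) (Fin r) L) :
    latt R A ⊆ latt R' A := by
  rintro x ⟨c, hc, hx⟩
  exact ⟨c, fun j => h (hc j), hx⟩

theorem mem_latt_of_forall (hS : S.Smooth) (Q : S.Pt) {r : ℕ} (A : Matrix (Fin r) (Fin r) L)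
    (hA : A.det ≠ 0) (x : Fin r → L) (h : ∀ C : S.PD, On Q C → x ∈ latt C.1.toSubring A) :
    x ∈ latt Q.1.toSubring A := by
  rw [mem_latt_iff Q.1.toSubring A hA x]
  intro i
  by_cases h0 : (A⁻¹ *ᵥ x) i = 0
  · rw [h0]
    exact Q.1.toSubring.zero_mem
  · rw [Pt.mem_iff hS Q h0]
    intro C hC
    have h1 := (mem_latt_iff C.1.toSubring A hA x).1 (h C hC) i
    exact (mem_iff_ordS C.1.toSubring h0).1 h1

theorem latt_eq_of_forall (hS : S.Smooth) (Q : S.Pt) {r : ℕ} (A B : Matrix (Fin r) (Fin r) L)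
    (hA : A.det ≠ 0) (hB : B.det ≠ 0)
    (h : ∀ C : S.PD, On Q C → latt C.1.toSubring A = latt C.1.toSubring B) :
    latt Q.1.toSubring A = latt Q.1.toSubring B := by
  apply Set.Subset.antisymm
  · intro x hx
    refine mem_latt_of_forall hS Q B hB x fun C hC => ?_
    rw [← h C hC]
    exact latt_mono hC A hx
  · intro x hx
    refine mem_latt_of_forall hS Q A hA x fun C hC => ?_
    rw [h C hC]
    exact latt_mono hC B hx

end Surf

end HB
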