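import Pool.Agent.HB.D.Mor

/-!
# HB-D-LocBE: valuations of the local equations `eloc`, `bloc`, `zloc` at a normal local ring `O`

Plan.
* `eloc`: `f = 0` excluded.  `eX f ∈ O`: `eloc = 1`, `iE f = 0` (`iE_of_ge`, `D` nonneg on `O`).
  Otherwise `(eX f)⁻¹ ∈ O`, `near_aux`, `v_near`.
* `zloc`: `b = inf`: `zloc = 1`, `b.x = 0`, `iZero = max 0 (v 0) = 0`.  `b = aff x y`: `NonU O x`: `x ∈ O`, `v x ≥ 0`,
  `iZero = max 0 (v x) = v x` (`x ≠ 0` by `hx`).  Otherwise `zloc = 1`; `x ∈ O`: unit, `v x = 0` (`v_unit`);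
  `x ∉ O`: `x⁻¹ ∈ O`, `v x ≤ 0`.
* `bloc` with `p = (x', y')` constant, `y' ≠ 0`: `b = inf`: `bloc = 1`, `iB = 0` (`p` is `IsFin`, `b` is not).
  `b = aff x y`:
  - `NonU (x - x')` and `NonU (y - y')`: then `x, y ∈ O`.  `y + y' = 2y' + (y - y')` is a unit of `O`
    (`hO.loc`; `2 y'` is a unit).  `(y - y')(y + y') = (x - x') S`, `S ∈ O`, so `D.ge (v (x - x')) (y - y')`,
    `x ≠ x'` (else `y = y'` and `b = p`), `iB = dmin (x - x') (y - y') = v (x - x')`.
  - otherwise, `x ∈ O` (`y ∈ O` by normality): one of `x - x'`, `y - y'` is a unit of `O`, so `v = 0`, the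
    other one is integral: `dmin = 0` (`le_dmin`).
  - `x ∉ O`: `x⁻¹` is a nonunit of `O`; `1 - x' x⁻¹` is a unit, `v (x - x') = v x ≤ 0`.  If `v x < 0`: `b` is
    not `IsFin`, `iB = 0`.  If `v x = 0`: `v (x - x') = 0`, `dmin = 0`.
-/

set_option autoImplicit false

namespace HB

variable {k K : Type} [Field k] [Field K] [Algebra k K] [CharZero k] [IsAlgClosed k] [CharZero K]

variable {O : Subring K} (hO : GoodO k O) (D : DV k K) (hD : D.NonNeg O)

include hO hD in
theorem v_eloc {f : EPt K} (hf : f ≠ 0) (h : EOn O f) :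
    eloc O f ≠ 0 ∧ eloc O f ∈ O ∧ D.v (eloc O f) = D.iE f := by
  unfold eloc
  by_cases h1 : eX f ∈ O
  · rw [if_pos (Or.inr h1)]
    refine ⟨one_ne_zero, O.one_mem, ?_⟩
    rw [D.one, D.iE_of_ge (hD _ h1)]
  · rw [if_neg (by rintro (h2 | h2); exacts [hf h2, h1 h2])]
    have h2 := h.resolve_left h1
    obtain ⟨-, h3, h4, -⟩ := near_aux hO hf h1 h2
    exact ⟨h4, h3, v_near hO hf h1 h2 D hD⟩

include hO hD in
theorem v_zloc {b : BPt K} (hb : MorAt O b) (hx : ∀ x y h, b = .aff x y h → x ≠ 0) :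
    zloc O b ≠ 0 ∧ zloc O b ∈ O ∧ D.v (zloc O b) = D.iZero b := by
  match b, hb, hx with
  | .inf e h, _, _ =>
    refine ⟨one_ne_zero, O.one_mem, ?_⟩
    show D.v 1 = max 0 (D.v 0)
    rw [D.one, D.zero]; rfl
  | .aff x y h, hb, hx =>
    have hx0 : x ≠ 0 := hx x y h rfl
    by_cases hn : NonU O x
    · have e : zloc O (.aff x y h) = x := if_pos hn
      rw [e]
      refine ⟨hx0, hn.1, ?_⟩
      show D.v x = max 0 (D.v x)
      have := D.le_of_ge hx0 (hD _ hn.1)
      omega
    · have e : zloc O (.aff x y h) = 1 := if_neg hn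
      rw [e]
      refine ⟨one_ne_zero, O.one_mem, ?_⟩
      show D.v 1 = max 0 (D.v x)
      rw [D.one]
      have h3 : D.v x ≤ 0 := by
        rcases hb with h4 | h4
        · have h6 : x⁻¹ ∈ O := by
            by_contra h5
            exact hn ⟨h4, Or.inr h5⟩
          exact (v_unit D hD h4 h6).le
        · have := D.le_of_ge (inv_ne_zero hx0) (hD _ h4)
          rw [D.inv hx0] at this
          omega
      omega

omit [CharZero k] [IsAlgClosed k] [CharZero K] in
private theorem dmin_of_left {a b : K} (ha : a ≠ 0) (hb : D.ge (D.v a) b) :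
    D.dmin a b = D.v a := by
  unfold DV.dmin
  rw [if_neg ha]
  by_cases h : b = 0
  · rw [if_pos h]
  · rw [if_neg h, min_eq_left (D.le_of_ge h hb)]

omit [CharZero k] [IsAlgClosed k] [CharZero K] in
private theorem nonU_or {O : Subring K} {x : K} (hx : x ∈ O) : NonU O x ∨ (x ≠ 0 ∧ x⁻¹ ∈ O) := by
  by_cases h : x = 0
  · exact Or.inl ⟨hx, Or.inl h⟩
  · by_cases h2 : x⁻¹ ∈ O
    · exact Or.inr ⟨h, h2⟩
    · exact Or.inl ⟨hx, Or.inr h2⟩

omit [CharZero k] [IsAlgClosed k] [CharZero K] in
private theorem nonU_not {O : Subring K} {x : K} (hx : NonU O x) (h : x ≠ 0 ∧ x⁻¹ ∈ O) : False :=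
  hx.2.elim h.1 (fun h2 => h2 h.2)

include hO hD in
theorem v_bloc {b : BPt K} (hb : MorAt O b) {x y : k} (h : y ^ 2 = x ^ 6 + 1) (hy : y ≠ 0)
    (hne : b ≠ (BPt.aff x y h).map K) :
    bloc O b ((BPt.aff x y h).map K) ≠ 0 ∧ bloc O b ((BPt.aff x y h).map K) ∈ O ∧
      D.v (bloc O b ((BPt.aff x y h).map K)) = D.iB b ((BPt.aff x y h).map K) := by
  have hx' : algebraMap k K x ∈ O := hO.base x
  have hy' : algebraMap k K y ∈ O := hO.base y
  have hpf : ((BPt.aff x y h).map K).IsFin D := D.ge_const x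
  match b, hb, hne with
  | .inf e he, _, _ =>
    refine ⟨one_ne_zero, O.one_mem, ?_⟩
    show D.v 1 = _
    rw [D.one, D.iB_mix2 (p := .inf e he) (fun h => h) hpf]
  | .aff X Y H, hb, hne =>
    set x' : K := algebraMap k K x with hx'def
    set y' : K := algebraMap k K y with hy'def
    have hYX : X ∈ O → Y ∈ O := by
      intro hX
      refine hO.int Y ?_
      rw [H]
      exact O.add_mem (O.pow_mem hX 6) O.one_mem
    have hiB : D.ge 0 X → D.iB (.aff X Y H) ((BPt.aff x y h).map K) = D.dmin (X - x') (Y - y') := by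
      intro hX
      exact D.iB_fin hX hpf
    by_cases hn : NonU O (X - x') ∧ NonU O (Y - y')
    · have e : bloc O (.aff X Y H) ((BPt.aff x y h).map K) = X - x' := if_pos hn
      rw [e]
      have hX : X ∈ O := by
        have := O.add_mem hn.1.1 hx'
        rwa [sub_add_cancel] at this
      have hY : Y ∈ O := hYX hX
      have hyK : y' ≠ 0 := (map_ne_zero _).2 hy
      have hU : Y + y' ≠ 0 ∧ (Y + y')⁻¹ ∈ O := by
        have h2 : (Y + y') + (-(Y - y')) = algebraMap k K (2 * y) := by
          rw [map_mul, map_ofNat]; ring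
        have h3 : (2 * y : k) ≠ 0 := mul_ne_zero two_ne_zero hy
        have h4 := hO.loc (Y + y') (O.add_mem hY hy') (-(Y - y')) (O.neg_mem hn.2.1)
          (by rw [h2]; exact (map_ne_zero _).2 h3) (by rw [h2, ← map_inv₀]; exact hO.base _)
        rcases h4 with h4 | h4
        · exact h4
        · exfalso
          refine nonU_not hn.2 ⟨fun h5 => h4.1 (by rw [h5, neg_zero]), ?_⟩
          have h5 := O.neg_mem h4.2
          rwa [inv_neg, neg_neg] at h5
      have hp : y' ^ 2 = x' ^ 6 + 1 := by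
        rw [hy'def, ← map_pow, h, map_add, map_pow, map_one]
      set S : K := X ^ 5 + X ^ 4 * x' + X ^ 3 * x' ^ 2 + X ^ 2 * x' ^ 3 + X * x' ^ 4 + x' ^ 5 with hS
      have hSO : S ∈ O := by
        rw [hS]
        refine O.add_mem (O.add_mem (O.add_mem (O.add_mem (O.add_mem ?_ ?_) ?_) ?_) ?_) ?_
        · exact O.pow_mem hX 5
        · exact O.mul_mem (O.pow_mem hX 4) hx'
        · exact O.mul_mem (O.pow_mem hX 3) (O.pow_mem hx' 2)
        · exact O.mul_mem (O.pow_mem hX 2) (O.pow_mem hx' 3)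
        · exact O.mul_mem hX (O.pow_mem hx' 4)
        · exact O.pow_mem hx' 5
      have hprod : (Y - y') * (Y + y') = (X - x') * S := by
        rw [hS]; linear_combination H - hp
      have hYy : Y - y' = (X - x') * (S * (Y + y')⁻¹) := by
        rw [← mul_assoc, ← hprod, mul_assoc, mul_inv_cancel₀ hU.1, mul_one]
      have hXx : X - x' ≠ 0 := by
        intro h0
        rw [h0, zero_mul] at hYy
        have e1 : X = x' := sub_eq_zero.1 h0
        have e2 : Y = y' := sub_eq_zero.1 hYy
        apply hne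
        subst e1
        subst e2
        rfl
      refine ⟨hXx, hn.1.1, ?_⟩
      rw [hiB (hD _ hX), dmin_of_left D hXx]
      rw [hYy]
      have h6 := D.ge_mul (D.ge_of_le (le_refl (D.v (X - x')))) (hD _ (O.mul_mem hSO hU.2))
      rwa [add_zero] at h6
    · have e : bloc O (.aff X Y H) ((BPt.aff x y h).map K) = 1 := if_neg hn
      rw [e]
      refine ⟨one_ne_zero, O.one_mem, ?_⟩
      rw [D.one]
      by_cases hX : X ∈ O
      · have hY : Y ∈ O := hYX hX
        have hXx := O.sub_mem hX hx'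
        have hYy := O.sub_mem hY hy'
        rw [hiB (hD _ hX)]
        rcases nonU_or hXx with h1 | h1
        · rcases nonU_or hYy with h2 | h2
          · exact absurd ⟨h1, h2⟩ hn
          · have h3 := v_unit D hD hYy h2.2
            rw [D.dmin_comm, dmin_of_left D h2.1 (by rw [h3]; exact hD _ hXx), h3]
        · have h3 := v_unit D hD hXx h1.2
          rw [dmin_of_left D h1.1 (by rw [h3]; exact hD _ hYy), h3]
      · have hXi : X⁻¹ ∈ O := hb.resolve_left hX
        have hX0 : X ≠ 0 := by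
          rintro rfl
          exact hX O.zero_mem
        have hm : x' * X⁻¹ ∈ O := O.mul_mem hx' hXi
        have hm' : 1 - x' * X⁻¹ ∈ O := O.sub_mem O.one_mem hm
        have hunit : 1 - x' * X⁻¹ ≠ 0 ∧ (1 - x' * X⁻¹)⁻¹ ∈ O := by
          have h4 := hO.loc (x' * X⁻¹) hm (1 - x' * X⁻¹) hm'
            (by rw [add_sub_cancel]; exact one_ne_zero)
            (by rw [add_sub_cancel, inv_one]; exact O.one_mem)
          rcases h4 with h4 | h4
          · exfalso
            apply hX
            have hx0 : x' ≠ 0 := left_ne_zero_of_mul h4.1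
            have e3 : X = x' * (x' * X⁻¹)⁻¹ := by field_simp
            rw [e3]
            exact O.mul_mem hx' h4.2
          · exact h4
        have hv1 := v_unit D hD hm' hunit.2
        have e4 : X - x' = X * (1 - x' * X⁻¹) := by field_simp
        have hXx : X - x' ≠ 0 := by
          rw [e4]; exact mul_ne_zero hX0 hunit.1
        have hv : D.v (X - x') = D.v X := by
          rw [e4, D.mul hX0 hunit.1, hv1, add_zero]
        have hle : D.v X ≤ 0 := by
          have := D.le_of_ge (inv_ne_zero hX0) (hD _ hXi)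
          rw [D.inv hX0] at this
          omega
        by_cases hfin : D.ge 0 X
        · have h0 : D.v X = 0 := le_antisymm hle (D.le_of_ge hX0 hfin)
          have hY : D.ge 0 Y := BPt.ge_y D (.aff X Y H) hfin
          rw [hiB hfin, dmin_of_left D hXx, hv, h0]
          rw [hv, h0]
          exact D.ge_sub hY (D.ge_const y)
        · rw [D.iB_mix2 (p := .aff X Y H) hfin hpf]

end HB
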