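import Pool.Agent.HB.D.GoodP
import Pool.Agent.HB.A.LocC
import Pool.Agent.HB.B.BB

/-!
# HB-D-Mor: the marks and the points `s_a`, `π y_i - s_a` are morphisms

Plan for `x_mor` (`a = 0, 1`; `a = 2` follows from `G.x2`, `ζ` a unit).  `P.exists_chart`: `l ∈ {1, s, t}`
with `S.chart l ≤ O_P`; `X.s = x 0 + x 1`, `X.t = x 0 * x 1` (`G.hs`, `G.ht`), `P.int` (integrally closed),
`div_mem_chart`.
* `l = 1`: `s, t ∈ O_P`; `x a` is a root of `T² - s T + t`: `x a ∈ O_P`.
* `l = t`: `1/t, s/t ∈ O_P`: `1/x a` is a root of `T² - (s/t) T + 1/t`.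
* `l = s`: `1/s, t/s ∈ O_P`.  If `1/s` is a unit of `O_P` then `s, t ∈ O_P`: first case.  Otherwise
  `z_a = x a / s` is a root of `T² - T + (t/s)(1/s)`, so `z_a ∈ O_P`, `z_0 + z_1 = 1`, `z_0 z_1` is a
  nonunit.  `O_P` local: one `z_a` is a unit, the other one `z_b = (t/s)(1/s)/z_a`.
  `1/x a = (1/s)/z_a ∈ O_P`, `x b = t/x a = (t/s)/z_a ∈ O_P`.
`eOn_s`: `G.s_mor` (if `G.s a = 0` then `eX = 0`).
`eOn_pi`: `eX (π (pt i)) = x²` or `0`; `eX (π' (pt i)) = x⁻²` or `0` (cases; `swap`).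
`eOn_f`: `eOn_sub`.
`val_pos_same`: (used for gluing) if `D = C.dv`, `C ∋ P`, `D.iB (pt i) (pt j) > 0`, then the two marks have
the same residue at `P`; stated for the coordinates: if `x_i ∈ O_P` (affine) then `x_j ∈ O_P`, and
`x_i - x_j`, `y_i - y_j` are nonunits.  Proof: `D.ge 0 x_i`, so `pt i` is `IsFin D`; `iB > 0` forces
`pt j` to be `IsFin D` (by definition of `iB`), so affine; `iB = dmin (x_i - x_j) (y_i - y_j)`, hence both
differences are `D.ge 1` (`coord_ne_fin`, `le_dmin`).  If `x_j ∉ O_P` then `x_j⁻¹ ∈ O_P` is a nonunit,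
`x_i - x_j = - x_j (1 - x_i x_j⁻¹)`, `D.v = D.v x_j ≤ 0`: contradiction.  So `x_j ∈ O_P`, `y_j ∈ O_P`
(normal, `y² = x⁶ + 1`), `nonU_of_pos`.
-/

set_option autoImplicit false
set_option linter.unusedSectionVars false

open IsLocalRing

namespace HB

/-- A root of `A X² - S' X + T'` with `(A, S', T') = 1` in an integrally closed local ring `R`
is in `R` or has its inverse in `R`. -/
private theorem root_or_inv' {L : Type} [Field L] (R : Subring L) [IsLocalRing R]
    (hint : ∀ x : L, IsIntegral R x → x ∈ R) {A S' T' x : L} (hA : A ∈ R) (hS : S' ∈ R)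
    (hT : T' ∈ R) (hu : A = 1 ∨ S' = 1 ∨ T' = 1) (h : A * x ^ 2 - S' * x + T' = 0) :
    x ∈ R ∨ x⁻¹ ∈ R := by
  by_cases hx0 : x = 0
  · left; rw [hx0]; exact R.zero_mem
  have hunit : ∀ z : L, z ∈ R → (z ≠ 0 ∧ z⁻¹ ∈ R) ∨ (1 - z ≠ 0 ∧ (1 - z)⁻¹ ∈ R) := by
    intro z hz
    have h1 : IsUnit (⟨z, hz⟩ : R) ∨ IsUnit (1 - (⟨z, hz⟩ : R)) :=
      IsLocalRing.isUnit_or_isUnit_one_sub_self _
    rcases h1 with h1 | h1
    · left
      obtain ⟨w, hw⟩ := h1.exists_right_inv
      have h2 : z * (w : L) = 1 := congrArg Subtype.val hw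
      refine ⟨left_ne_zero_of_mul_eq_one h2, ?_⟩
      rw [inv_eq_of_mul_eq_one_right h2]
      exact w.2
    · right
      obtain ⟨w, hw⟩ := h1.exists_right_inv
      have h2 : (1 - z) * (w : L) = 1 := congrArg Subtype.val hw
      refine ⟨left_ne_zero_of_mul_eq_one h2, ?_⟩
      rw [inv_eq_of_mul_eq_one_right h2]
      exact w.2
  -- a root of a monic quadratic polynomial is in `R`
  have hquad : ∀ z a b : L, a ∈ R → b ∈ R → z ^ 2 + a * z + b = 0 → z ∈ R := by
    intro z a b ha hb hz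
    apply hint
    refine ⟨Polynomial.X ^ 2 + Polynomial.C (⟨a, ha⟩ : R) * Polynomial.X +
      Polynomial.C (⟨b, hb⟩ : R), ?_, ?_⟩
    · monicity!
    · simp only [Polynomial.eval₂_add, Polynomial.eval₂_mul, Polynomial.eval₂_pow,
        Polynomial.eval₂_X, Polynomial.eval₂_C]
      exact hz
  rcases hu with rfl | rfl | rfl
  · left
    exact hquad x (-S') T' (R.neg_mem hS) hT (by linear_combination h)
  · -- `S' = 1`
    have hw : A * x ∈ R := hquad (A * x) (-1) (A * T') (R.neg_mem R.one_mem) (R.mul_mem hA hT)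
      (by linear_combination A * h)
    rcases hunit _ hw with ⟨h0, h1⟩ | ⟨h1, h2⟩
    · right
      have h3 : x⁻¹ = A * (A * x)⁻¹ := by
        have hA0 : A ≠ 0 := left_ne_zero_of_mul h0
        field_simp
      rw [h3]
      exact R.mul_mem hA h1
    · left
      have h4 : x = T' * (1 - A * x)⁻¹ := by
        rw [eq_mul_inv_iff_mul_eq₀ h1]
        linear_combination -h
      rw [h4]
      exact R.mul_mem hT h2
  · right
    refine hquad x⁻¹ (-S') A (R.neg_mem hS) hA ?_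
    field_simp
    linear_combination h

variable {k K : Type} [Field k] [Field K] [Algebra k K] [CharZero k] [IsAlgClosed k] [CharZero K]
  {X : Surf k K} (G : Geo X)

open Surf

private theorem quad_mor (P : X.Pt) (x : K) (hx : x ^ 2 - X.s * x + X.t = 0) :
    x ∈ P.1.toSubring ∨ x⁻¹ ∈ P.1.toSubring := by
  obtain ⟨l, hl, hle⟩ := P.exists_chart
  have h1 : (1 : K) / l ∈ P.1.toSubring := hle (div_mem_chart X (one_mem_V X))
  have h2 : X.s / l ∈ P.1.toSubring := hle (div_mem_chart X (s_mem_V X))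
  have h3 : X.t / l ∈ P.1.toSubring := hle (div_mem_chart X (t_mem_V X))
  have hl0 : l ≠ 0 := (ne_zero_of_mem hl).2
  have := P.1.isLocalRing
  refine root_or_inv' P.1.toSubring (fun x hx => P.int hx) h1 h2 h3 ?_ ?_
  · rcases hl with rfl | rfl | hl
    · left; exact div_one 1
    · right; left; exact div_self hl0
    · right; right
      rw [Set.mem_singleton_iff] at hl
      rw [hl] at hl0 ⊢
      exact div_self hl0
  · field_simp
    linear_combination hx

theorem Geo.x_mor (a : Fin 3) (P : X.Pt) : G.x a ∈ P.1.toSubring ∨ (G.x a)⁻¹ ∈ P.1.toSubring := by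
  have h0 := quad_mor P (G.x 0) (by rw [G.hs, G.ht]; ring)
  fin_cases a
  · exact h0
  · exact quad_mor P (G.x 1) (by rw [G.hs, G.ht]; ring)
  · change G.x 2 ∈ _ ∨ (G.x 2)⁻¹ ∈ _
    rw [G.x2]
    rcases h0 with h | h
    · left
      exact P.1.toSubring.mul_mem (P.algebraMap_mem _) h
    · right
      rw [mul_inv, ← map_inv₀]
      exact P.1.toSubring.mul_mem (P.algebraMap_mem _) h

theorem Geo.eOn_s (a : Fin 3) (P : X.Pt) :
    EOn P.1.toSubring (G.s a) ∧ EOn P.1.toSubring (G.s' a) := by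
  have key : ∀ f : EPt K, (G.s a = f ∨ G.s' a = f) → EOn P.1.toSubring f := by
    intro f hf
    match f, hf with
    | .zero, _ => exact Or.inl P.1.toSubring.zero_mem
    | .some u v h, hf => exact G.s_mor a P u v h hf
  exact ⟨key _ (Or.inl rfl), key _ (Or.inr rfl)⟩

private theorem eOn_pi_inf (P : X.Pt) (e : K) (he : e ^ 2 = 1) :
    EOn P.1.toSubring (BPt.inf e he).pi ∧ EOn P.1.toSubring (BPt.inf e he).pi' := by
  refine ⟨Or.inl P.1.toSubring.zero_mem, Or.inl ?_⟩
  have : eX (BPt.inf e he).pi' = (0 : K) ^ 2 := rfl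
  rw [this]
  exact P.1.toSubring.pow_mem P.1.toSubring.zero_mem 2

private theorem eOn_pi_aff (P : X.Pt) (x y : K) (hh : y ^ 2 = x ^ 6 + 1)
    (hx : x ∈ P.1.toSubring ∨ x⁻¹ ∈ P.1.toSubring) :
    EOn P.1.toSubring (BPt.aff x y hh).pi ∧ EOn P.1.toSubring (BPt.aff x y hh).pi' := by
  constructor
  · have : eX (BPt.aff x y hh).pi = x ^ 2 := rfl
    unfold EOn
    rw [this, ← inv_pow]
    exact hx.imp (fun h => P.1.toSubring.pow_mem h 2) (fun h => P.1.toSubring.pow_mem h 2)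
  · by_cases hx0 : x = 0
    · left
      have : (BPt.aff x y hh).swap = .inf y (by rw [hh, hx0]; ring) := by
        simp only [BPt.swap, hx0, dif_pos]
      rw [BPt.pi', this]
      exact P.1.toSubring.zero_mem
    · have h1 : (BPt.aff x y hh).swap = .aff x⁻¹ (y / x ^ 3) (by field_simp; rw [hh]; ring) := by
        simp only [BPt.swap, dif_neg hx0]
      have h2 : eX (BPt.aff x y hh).pi' = (x⁻¹) ^ 2 := by
        rw [BPt.pi', h1]
        rfl
      unfold EOn
      rw [h2, ← inv_pow, inv_inv]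
      exact hx.symm.imp (fun h => P.1.toSubring.pow_mem h 2) (fun h => P.1.toSubring.pow_mem h 2)

theorem Geo.eOn_pi (i : Fin 5) (P : X.Pt) :
    EOn P.1.toSubring (G.pt i).pi ∧ EOn P.1.toSubring (G.pt i).pi' := by
  fin_cases i
  · exact eOn_pi_aff P _ _ (G.curve 0) (G.x_mor 0 P)
  · exact eOn_pi_aff P _ _ (G.curve 1) (G.x_mor 1 P)
  · exact eOn_pi_aff P _ _ (G.curve 2) (G.x_mor 2 P)
  · exact eOn_pi_inf P 1 (one_pow 2)
  · exact eOn_pi_inf P (-1) neg_one_sq

theorem Geo.eOn_f (i : Fin 5) (a : Fin 3) (P : X.Pt) :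
    EOn P.1.toSubring (G.f i a) ∧ EOn P.1.toSubring (G.f' i a) :=
  ⟨eOn_sub (goodP P) (G.eOn_pi i P).1 (G.eOn_s a P).1,
    eOn_sub (goodP P) (G.eOn_pi i P).2 (G.eOn_s a P).2⟩

/-- Morphism property for arbitrary points of `B(K)`. -/
def MorAt (O : Subring K) : BPt K → Prop
  | .aff x _ _ => x ∈ O ∨ x⁻¹ ∈ O
  | .inf _ _ => True

theorem Geo.mor_pt (i : Fin 5) (P : X.Pt) : MorAt P.1.toSubring (G.pt i) := by
  fin_cases i
  · exact G.x_mor 0 P
  · exact G.x_mor 1 P
  · exact G.x_mor 2 P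
  · exact trivial
  · exact trivial

theorem same_residue {P : X.Pt} {C : X.PD} (h : On P C) {x y : K} (hh : y ^ 2 = x ^ 6 + 1)
    {q : BPt K} (hq : MorAt P.1.toSubring q) (hne : BPt.aff x y hh ≠ q)
    (hx : x ∈ P.1.toSubring) (hpos : 0 < C.dv.iB (.aff x y hh) q) :
    ∃ (x' y' : K) (hh' : y' ^ 2 = x' ^ 6 + 1), q = .aff x' y' hh' ∧ x' ∈ P.1.toSubring ∧
      NonU P.1.toSubring (x - x') ∧ NonU P.1.toSubring (y - y') := by
  have hD := dv_nonneg h
  have hp : (BPt.aff x y hh).IsFin C.dv := hD x hx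
  have hqf : q.IsFin C.dv := by
    by_contra hqf
    rw [C.dv.iB_mix1 hp hqf] at hpos
    exact lt_irrefl 0 hpos
  rw [C.dv.iB_fin hp hqf] at hpos
  have h1 : (1 : ℤ) ≤ C.dv.dmin ((BPt.aff x y hh).x - q.x) ((BPt.aff x y hh).y - q.y) := hpos
  rw [C.dv.le_dmin (BPt.coord_ne_fin C.dv hne hp hqf)] at h1
  match q, hq, hne, hqf, h1 with
  | .inf _ _, _, _, hqf, _ => exact absurd hqf id
  | .aff x' y' hh', hq, hne, hqf, h1 =>
    have h2 : C.dv.ge 1 (x - x') := h1.1
    have h3 : C.dv.ge 1 (y - y') := h1.2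
    have hqf' : C.dv.ge 0 x' := hqf
    have hx' : x' ∈ P.1.toSubring := by
      by_contra hx'
      have hinv : x'⁻¹ ∈ P.1.toSubring := hq.resolve_left hx'
      have hx0 : x' ≠ 0 := fun h0 => hx' (h0 ▸ P.1.toSubring.zero_mem)
      have hv : C.dv.v x' = 0 := by
        have e1 := C.dv.le_of_ge hx0 hqf'
        have e2 := C.dv.le_of_ge (inv_ne_zero hx0) (hD _ hinv)
        rw [C.dv.inv hx0] at e2
        omega
      have hloc := (goodP P).loc (x * x'⁻¹) (P.1.toSubring.mul_mem hx hinv) (1 - x * x'⁻¹)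
        (P.1.toSubring.sub_mem P.1.toSubring.one_mem (P.1.toSubring.mul_mem hx hinv))
        (by rw [add_sub_cancel]; exact one_ne_zero)
        (by rw [add_sub_cancel, inv_one]; exact P.1.toSubring.one_mem)
      rcases hloc with ⟨e1, e2⟩ | ⟨e1, e2⟩
      · apply hx'
        have hxx : x ≠ 0 := left_ne_zero_of_mul e1
        have e3 : x' = x * (x * x'⁻¹)⁻¹ := by
          field_simp
        rw [e3]
        exact P.1.toSubring.mul_mem hx e2
      · have e3 : C.dv.v (1 - x * x'⁻¹) = 0 := v_unit C.dv hD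
          (P.1.toSubring.sub_mem P.1.toSubring.one_mem (P.1.toSubring.mul_mem hx hinv)) e2
        have e4 : x - x' = (-x') * (1 - x * x'⁻¹) := by
          field_simp
          ring
        have e5 : x - x' ≠ 0 := by
          rw [e4]
          exact mul_ne_zero (neg_ne_zero.2 hx0) e1
        have e6 := C.dv.le_of_ge e5 h2
        rw [e4, C.dv.mul (neg_ne_zero.2 hx0) e1, C.dv.neg, hv, e3] at e6
        omega
    have hmem : ∀ x y : K, y ^ 2 = x ^ 6 + 1 → x ∈ P.1.toSubring → y ∈ P.1.toSubring := by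
      intro x y hh hx
      refine (goodP P).int y ?_
      rw [hh]
      exact P.1.toSubring.add_mem (P.1.toSubring.pow_mem hx 6) P.1.toSubring.one_mem
    exact ⟨x', y', hh', rfl, hx', nonU_of_pos h (P.1.toSubring.sub_mem hx hx') h2,
      nonU_of_pos h (P.1.toSubring.sub_mem (hmem _ _ hh hx) (hmem _ _ hh' hx')) h3⟩

end HB
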