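import Pool.Agent.HB.A.OmegaC
import Pool.Agent.HB.A.Dv
import Pool.Agent.HB.A.Val

/-!
# HB-D-OmVal: divisibility of exact differentials along a curve

Plan.  `R = C.1.toSubring` is a discrete valuation ring with order `C.ord`; `x ∈ R` iff `x = 0` or
`0 ≤ C.ord x` (`mem_iff_ordS`, `PD.mem_iff`).
* `om_D_mem`: generators of `Om`.
* `om_D`: let `p` have `C.ord p = 1` (`PD.exists_ord_eq`).  If `f = 0` clear.  Otherwise
  `f = p^n a` with `a = f / p^n` in `R`; the Leibniz rule gives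
  `D f = n p^(n-1) a • D p + p^n • D a` (for `n : ℤ`: `Derivation.leibniz`, `Derivation.leibniz_inv`,
  `Derivation.leibniz_zpow` or by the two cases `n = m`, `n = -m`), so
  `c⁻¹ • D f = (n p^(n-1) a c⁻¹) • D p + (p^n c⁻¹) • D a`, both coefficients are in `R` because
  `C.ord c ≤ n - 1`, and `p, a` are in `R`.
-/

set_option autoImplicit false

open IsLocalRing

namespace HB

universe u

namespace Surf

variable {k L : Type u} [Field k] [Field L] [Algebra k L] {S : Surf k L}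
  [CharZero k] [IsAlgClosed k]

theorem om_D_mem (R : Subring L) {f : L} (hf : f ∈ R) :
    KaehlerDifferential.D k L f ∈ Om k R := by
  unfold Om
  exact AddSubgroup.subset_closure ⟨1, R.one_mem, f, hf, (one_smul _ _).symm⟩

private theorem mem_of_ord (C : S.PD) {f : L} (h : f ≠ 0 → 0 ≤ C.ord f) : f ∈ C.1.toSubring := by
  by_cases h0 : f = 0
  · rw [h0]; exact C.1.toSubring.zero_mem
  · exact (C.mem_iff h0).2 (h h0)

/-- If `f` vanishes to order `n` along `C` then `df` vanishes to order `n - 1`. -/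
theorem om_D (C : S.PD) {f c : L} {n : ℤ} (hf : C.dv.ge n f) (hc0 : c ≠ 0)
    (hc : C.ord c ≤ n - 1) : c⁻¹ • KaehlerDifferential.D k L f ∈ Om k C.1.toSubring := by
  by_cases h0 : f = 0
  · rw [h0, map_zero, smul_zero]
    exact AddSubgroup.zero_mem _
  have hn : n ≤ C.ord f := hf.resolve_left h0
  obtain ⟨p, hp0, hp1⟩ := C.exists_ord_eq 1
  have hzp : ∀ m : ℤ, C.ord (p ^ m) = m := by
    intro m
    obtain ⟨j, rfl | rfl⟩ := m.eq_nat_or_neg
    · rw [zpow_natCast, C.ord_pow, hp1, mul_one]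
    · rw [zpow_neg, zpow_natCast, C.ord_inv, C.ord_pow, hp1, mul_one]
  have hpm : ∀ m : ℤ, p ^ m ≠ 0 := fun m => zpow_ne_zero m hp0
  have hpR : p ∈ C.1.toSubring := (C.mem_iff hp0).2 (by rw [hp1]; exact zero_le_one)
  set a : L := f / p ^ n with ha
  have ha0 : a ≠ 0 := div_ne_zero h0 (hpm n)
  have haR : a ∈ C.1.toSubring := by
    rw [C.mem_iff ha0, ha, C.ord_div h0 (hpm n), hzp]
    linarith
  have hfa : f = p ^ n * a := by rw [ha, mul_div_cancel₀ _ (hpm n)]
  have hci0 : c⁻¹ ≠ 0 := inv_ne_zero hc0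
  have h1 : c⁻¹ * p ^ n ∈ C.1.toSubring := by
    rw [C.mem_iff (mul_ne_zero hci0 (hpm n)), C.ord_mul hci0 (hpm n), C.ord_inv, hzp]
    linarith
  have h2 : c⁻¹ * p ^ (n - 1) ∈ C.1.toSubring := by
    rw [C.mem_iff (mul_ne_zero hci0 (hpm _)), C.ord_mul hci0 (hpm _), C.ord_inv, hzp]
    linarith
  have e : c⁻¹ • KaehlerDifferential.D k L f =
      (c⁻¹ * p ^ n) • KaehlerDifferential.D k L a +
        ((c⁻¹ * p ^ (n - 1)) * ((n : L) * a)) • KaehlerDifferential.D k L p := by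
    conv_lhs => rw [hfa]
    rw [Derivation.leibniz, Derivation.leibniz_zpow, ← Int.cast_smul_eq_zsmul L, smul_add,
      smul_smul, smul_smul, smul_smul, smul_smul]
    congr 2
    ring
  rw [e]
  refine AddSubgroup.add_mem _ (om_smul _ h1 (om_D_mem _ haR)) (om_smul _ ?_ (om_D_mem _ hpR))
  exact C.1.toSubring.mul_mem h2 (C.1.toSubring.mul_mem (intCast_mem _ _) haR)

theorem om_smul_ge (C : S.PD) {a c : L} {w : Ω[L⁄k]} (hw : w ∈ Om k C.1.toSubring) (hc0 : c ≠ 0)
    (ha : C.dv.ge (C.ord c) a) : c⁻¹ • a • w ∈ Om k C.1.toSubring := by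
  rw [← mul_smul]
  refine om_smul _ ?_ hw
  by_cases h0 : a = 0
  · rw [h0, mul_zero]; exact C.1.toSubring.zero_mem
  · have h1 : C.ord c ≤ C.ord a := ha.resolve_left h0
    rw [C.mem_iff (mul_ne_zero (inv_ne_zero hc0) h0), C.ord_mul (inv_ne_zero hc0) h0, C.ord_inv]
    linarith

end Surf

end HB
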