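import Pool.Agent.HB.D.GlueB
import Pool.Agent.HB.A.Dv
import Pool.Agent.HB.A.FacA

/-!
# HB-D-PairC: the pair `O_P ≤ O_C`
-/

set_option autoImplicit false

open IsLocalRing
open scoped Matrix

namespace HB

variable {k K : Type} [Field k] [Field K] [Algebra k K] [CharZero k] [IsAlgClosed k]
  {X : Surf k K}

/-- The nonunits of a local subring are closed under addition. -/
theorem nonU_add (R : LocalSubring K) {f g : K} (hf : NonU R.toSubring f)
    (hg : NonU R.toSubring g) : NonU R.toSubring (f + g) := by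
  have key : ∀ {f : K} (hf : f ∈ R.toSubring), (f = 0 ∨ f⁻¹ ∉ R.toSubring) →
      (⟨f, hf⟩ : R.toSubring) ∈ nonunits R.toSubring := by
    intro f hf h hu
    obtain ⟨v, hv⟩ := hu
    have h1 : (v : R.toSubring) * ((v⁻¹ : R.toSubringˣ) : R.toSubring) = 1 := v.mul_inv
    have h2 : f * (((v⁻¹ : R.toSubringˣ) : R.toSubring) : K) = 1 := by
      have := congrArg Subtype.val h1
      rw [hv] at this
      simpa using this
    have h0 : f ≠ 0 := by
      rintro rfl
      simp at h2
    rcases h with h | h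
    · exact h0 h
    · apply h
      rw [inv_eq_of_mul_eq_one_right h2]
      exact Subtype.mem _
  have h3 : (⟨f, hf.1⟩ + ⟨g, hg.1⟩ : R.toSubring) ∈ nonunits R.toSubring :=
    IsLocalRing.nonunits_add (key hf.1 hf.2) (key hg.1 hg.2)
  refine ⟨R.toSubring.add_mem hf.1 hg.1, ?_⟩
  by_contra hc
  rw [not_or, not_not] at hc
  apply h3
  rw [isUnit_iff_exists_inv]
  refine ⟨⟨(f + g)⁻¹, hc.2⟩, ?_⟩
  apply Subtype.ext
  exact mul_inv_cancel₀ hc.1

theorem Surf.pair {P : X.Pt} {C : X.PD} (h : Surf.On P C) :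
    Pair k C.dv P.1.toSubring C.1.toSubring where
  hR := fun f => (C.dv_ge_zero f).symm
  le := h
  const := fun c => P.algebraMap_mem c
  hint := fun f n hn hf => P.int (IsIntegral.of_pow (Nat.pos_of_ne_zero hn)
    (isIntegral_algebraMap (R := P.1.toSubring) (x := ⟨f ^ n, hf⟩)))
  hOR := fun f hf hO => ⟨hO, hf.2.imp id fun h1 h2 => h1 (h h2)⟩
  hloc := fun _ _ hf hg => nonU_add P.1 hf hg

end HB
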