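import Pool.Agent.HB.D.Nondeg
import Pool.Agent.HB.B.I6

/-!
# HB-D-R5m: the class relation at the marks `0, 1, 2`

Notation `i(s)` = `D.iE s`.  For `a ≠ b`, `Ψ_ab = ePsi (mark a) (mark b) (s b) (s' b)`; `v_ePsi` (all hypotheses from
`Nondeg`, `NondegA`; `ff_ne` for `i = a`: `π y_a ≠ s_b`) gives
`3 [i(π y_a - s_b) + i(π' y_a - s'_b)] = 2 i(a,b) + 3 iInf a + 2 iZero a - 6 [i(s_b) + i(s'_b)] + iInf b
   - v Ψ_ab`.
For `b = a`: `π y_a - s_a = 2 s_a` (`s_eq'`), `i(2 s_a) = 4 i(s_a) + v (Y s_a)` (`iE_two`), same for `'`, so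
`3 [..] = 12 [i(s_a) + i(s'_a)] + 3 v (Y s_a) + 3 v (Y s'_a)`.
`9 i(s_a) + v (ψ₃ s_a) = i(3 s_a) = i(π y_a) = iInf a`, `9 i(s'_a) + v (ψ₃ s'_a) = i(π' y_a) = iZero a` (`iE_three`,
`iE_pi`, `iE_pi'`).  `iInf a - iZero a = - v (x a)` (`max 0 (-v) - max 0 v`).
Sum: `3 * (left side / 3) = ...`, result with
`r = x_a⁶ (ψ₃ s_a ψ₃ s'_a)² Ψ_ab Ψ_ac / (Y s_a Y s'_a)³`:
`3 N_a = 3 (iB p - iB q) + iInf a + 2 i(a,b) + 2 i(a,c) + V - v r`.
-/

set_option autoImplicit false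

namespace HB

variable {k K : Type} [Field k] [Field K] [Algebra k K] [CharZero k] [IsAlgClosed k] [CharZero K]
  {X : Surf k K} (G : Geo X)

/-- The mark `a` as a point of `B`. -/
def Geo.mark (a : Fin 3) : BPt K := .aff (G.x a) (G.y a) (G.curve a)

omit [CharZero k] [IsAlgClosed k] [CharZero K] in
private theorem r5m_sum {a b c : Fin 3} (hab : a ≠ b) (hac : a ≠ c) (hbc : b ≠ c) (f : Fin 3 → ℤ) :
    ∑ e, f e = f a + f b + f c := by
  have h : (Finset.univ : Finset (Fin 3)) = {a, b, c} := by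
    revert a b c; decide
  rw [h, Finset.sum_insert (by simp [hab, hac]), Finset.sum_insert (by simp [hbc]), Finset.sum_singleton]
  ring

/-- The trivial valuation. -/
private def r5m_triv (k K : Type) [Field k] [Field K] [Algebra k K] : DV k K where
  v := fun _ => 0
  zero := rfl
  mul := fun _ _ => by simp
  add := fun _ _ _ => by simp
  const := fun _ => rfl

private theorem Geo.r5m_psi {a b : Fin 3} (h : a ≠ b) :
    ePsi (G.mark a) (G.mark b) (G.s b) (G.s' b) ≠ 0 ∧ ∀ D : DV k K,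
      D.v (ePsi (G.mark a) (G.mark b) (G.s b) (G.s' b)) =
        2 * D.iB (G.mark a) (G.mark b) + 3 * D.iInf (G.mark a) + 2 * D.iZero (G.mark a)
        - 3 * (D.iE ((G.mark a).pi - G.s b) + D.iE ((G.mark a).pi' - G.s' b))
        - 6 * (D.iE (G.s b) + D.iE (G.s' b)) + D.iInf (G.mark b) := by
  obtain ⟨n1, n1', n2, n2', n3, n3'⟩ := G.s_ne b
  obtain ⟨h2, h2'⟩ := G.ne2 h
  obtain ⟨h3, h3'⟩ := G.pi_ne h
  have hff : BPt.pi (.aff (G.x a) (G.y a) (G.curve a)) ≠ G.s b ∧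
      BPt.pi' (.aff (G.x a) (G.y a) (G.curve a)) ≠ G.s' b := by
    have key : ∀ a : Fin 3, BPt.pi (.aff (G.x a) (G.y a) (G.curve a)) ≠ G.s b ∧
      BPt.pi' (.aff (G.x a) (G.y a) (G.curve a)) ≠ G.s' b := by
      intro a
      fin_cases a
      · have := G.ff_ne 0 b
        unfold Geo.f Geo.f' at this
        rw [G.pt0, sub_ne_zero, sub_ne_zero] at this
        exact this
      · have := G.ff_ne 1 b
        unfold Geo.f Geo.f' at this
        rw [G.pt1, sub_ne_zero, sub_ne_zero] at this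
        exact this
      · have := G.ff_ne 2 b
        unfold Geo.f Geo.f' at this
        rw [G.pt2, sub_ne_zero, sub_ne_zero] at this
        exact this
    exact key a
  have key := fun D : DV k K => D.v_ePsi (G.curve a) (G.curve b) (G.x_ne_zero a) (G.x_ne_zero b)
    (G.x_ne_pm h).2 (G.s_eq' b) (G.s'_eq' b) n1 n1' hff.1 h2 h3 hff.2 h2' h3'
  refine ⟨?_, fun D => (key D).2⟩
  exact (key (r5m_triv k K)).1

omit [CharZero k] [IsAlgClosed k] [CharZero K] in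
private theorem r5m_self {P S : EPt K} (h : (3 : ℤ) • S = P) : P - S = (2 : ℤ) • S := by
  rw [← h]
  have : (3 : ℤ) = 2 + 1 := by norm_num
  rw [this, add_smul, one_smul, add_sub_cancel_right]

theorem Geo.R5_mark {a b c : Fin 3} (hab : a ≠ b) (hac : a ≠ c) (hbc : b ≠ c) :
    ∃ r : K, r ≠ 0 ∧ ∀ D : DV k K,
      3 * (∑ e, (D.iE ((G.mark a).pi - G.s e) + D.iE ((G.mark a).pi' - G.s' e)))
        - 12 * D.iZero (G.mark a) =
      D.iInf (G.mark a) + 2 * (D.iB (G.mark a) (G.mark b) + D.iB (G.mark a) (G.mark c)) +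
        (∑ e, D.iInf (G.mark e) - 6 * ∑ e, (D.iE (G.s e) + D.iE (G.s' e))) - D.v r := by
  obtain ⟨z1, v1⟩ := G.r5m_psi hab
  obtain ⟨z2, v2⟩ := G.r5m_psi hac
  obtain ⟨n1, n1', n2, n2', n3, n3'⟩ := G.s_ne a
  have z3 := ((r5m_triv k K).iE_three n1 n2 n3).1
  have z4 := ((r5m_triv k K).iE_three n1' n2' n3').1
  have hx := G.x_ne_zero a
  refine ⟨G.x a ^ 6 * (psi3 (G.s a) * psi3 (G.s' a)) ^ 2 *
    (ePsi (G.mark a) (G.mark b) (G.s b) (G.s' b) * ePsi (G.mark a) (G.mark c) (G.s c) (G.s' c)) /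
    (eY (G.s a) * eY (G.s' a)) ^ 3, ?_, ?_⟩
  · exact div_ne_zero (mul_ne_zero (mul_ne_zero (pow_ne_zero _ hx) (pow_ne_zero _ (mul_ne_zero z3 z4)))
      (mul_ne_zero z1 z2)) (pow_ne_zero _ (mul_ne_zero n2 n2'))
  intro D
  have w1 := v1 D
  have w2 := v2 D
  have w3 := (D.iE_three n1 n2 n3).2
  have w4 := (D.iE_three n1' n2' n3').2
  have w5 := D.iE_two n1 n2
  have w6 := D.iE_two n1' n2'
  rw [G.s_eq' a, D.iE_pi] at w3
  rw [G.s'_eq' a, D.iE_pi' _ hx] at w4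
  have w7 : D.iInf (G.mark a) - D.iZero (G.mark a) = -D.v (G.x a) := by
    change max 0 (-(D.v (G.x a))) - max 0 (D.v (G.x a)) = _
    omega
  have e1 : (G.mark a).pi - G.s a = (2 : ℤ) • G.s a := r5m_self (G.s_eq' a)
  have e2 : (G.mark a).pi' - G.s' a = (2 : ℤ) • G.s' a := r5m_self (G.s'_eq' a)
  have hv : D.v (G.x a ^ 6 * (psi3 (G.s a) * psi3 (G.s' a)) ^ 2 *
    (ePsi (G.mark a) (G.mark b) (G.s b) (G.s' b) * ePsi (G.mark a) (G.mark c) (G.s c) (G.s' c)) /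
    (eY (G.s a) * eY (G.s' a)) ^ 3) = 6 * D.v (G.x a) + 2 * (D.v (psi3 (G.s a)) + D.v (psi3 (G.s' a))) +
      (D.v (ePsi (G.mark a) (G.mark b) (G.s b) (G.s' b)) +
        D.v (ePsi (G.mark a) (G.mark c) (G.s c) (G.s' c))) - 3 * (D.v (eY (G.s a)) + D.v (eY (G.s' a))) := by
    rw [D.div (mul_ne_zero (mul_ne_zero (pow_ne_zero _ hx) (pow_ne_zero _ (mul_ne_zero z3 z4)))
      (mul_ne_zero z1 z2)) (pow_ne_zero _ (mul_ne_zero n2 n2')),
      D.mul (mul_ne_zero (pow_ne_zero _ hx) (pow_ne_zero _ (mul_ne_zero z3 z4))) (mul_ne_zero z1 z2),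
      D.mul (pow_ne_zero _ hx) (pow_ne_zero _ (mul_ne_zero z3 z4)), D.pow hx, D.pow (mul_ne_zero z3 z4),
      D.mul z3 z4, D.mul z1 z2, D.pow (mul_ne_zero n2 n2'), D.mul n2 n2']
    push_cast
    ring
  rw [hv, r5m_sum hab hac hbc, r5m_sum hab hac hbc, r5m_sum hab hac hbc, e1, e2, w5, w6]
  have w3' : D.iInf (G.mark a) = 9 * D.iE (G.s a) + D.v (psi3 (G.s a)) := w3
  have w4' : D.iZero (G.mark a) = 9 * D.iE (G.s' a) + D.v (psi3 (G.s' a)) := w4
  linarith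

end HB
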