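import Pool.Agent.HB.D.R5m
import Pool.Agent.HB.B.EThree
import Pool.Agent.HB.B.Tors

/-!
# HB-D-R5z: the class relation at the points at infinity

`e² = 1`.  `D.iE (0 - s_b) = i(s_b)`.  `v_eY_sub`: `v (Y(s'_b) - e) = 3 i(s'_b - T) - 3 i(s'_b)`, `T = mkE 0 e`
(`s'_b ≠ T` because `3 T = 0`, `three_mkE`, `3 s'_b ≠ 0`).
`9 i(s_b) = iInf b - v (ψ₃ s_b)`, `9 i(s'_b) = iZero b - v (ψ₃ s'_b)` (`iE_three`, `iE_pi`, `iE_pi'`).
`iZero b = iInf b + v (x b)`, `iInf b = i(b, inf e) + i(b, inf (-e))` (`iInf_eq`), and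
`v (y_b - e x_b³) = 3 i(b, inf e) - 3 i(b, inf (-e))` (`v_y_sub`); `y_b - e x_b³ = x_b³ (Y(3 s'_b) - e)` since
`3 s'_b = π' y_b` has `Y = y_b/x_b³`, and `Y(3 s'_b) - e = eH e (s'_b)³` (`eY_three`; `≠ 0` because
`(y - e x³)(y + e x³) = 1`).  So `i(b, inf e) - i(b, inf (-e)) = v (x b) + v (eH e (s'_b))` and
`iZero b = 2 i(b, inf e) - v (eH e (s'_b))`.
`3 Σ_b [i(s_b) + i(T - s'_b)] = Σ_b [3 i(s_b) + 3 i(s'_b) + v (Y(s'_b) - e)]`;
subtract `V = Σ iInf b - 6 Σ [i(s_b) + i(s'_b)]`: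
`Σ_b [9 i(s_b) + 9 i(s'_b) - iInf b + v(Y(s'_b) - e)] = Σ_b [iZero b - v(ψ₃ s_b ψ₃ s'_b) + v(Y(s'_b) - e)]
 = 2 Σ_b i(b, inf e) - v r`,  `r = ∏_b eH e (s'_b) ψ₃(s_b) ψ₃(s'_b) / (Y(s'_b) - e)`.
-/

set_option autoImplicit false

namespace HB

variable {k K : Type} [Field k] [Field K] [Algebra k K] [CharZero k] [IsAlgClosed k] [CharZero K]
  {X : Surf k K} (G : Geo X)

/-- the trivial valuation -/
private def r5z_triv (k K : Type) [Field k] [Field K] [Algebra k K] : DV k K where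
  v _ := 0
  zero := rfl
  mul := fun _ _ => rfl
  add := fun _ _ _ => le_of_eq (min_self _)
  const _ := rfl

/-- the factor of `r` at the mark `b` -/
private noncomputable def r5z_r (G : Geo X) (e : K) (b : Fin 3) : K :=
  eH e (G.s' b) * psi3 (G.s b) * psi3 (G.s' b) / (eY (G.s' b) - e)

private theorem r5z_eY (G : Geo X) (b : Fin 3) :
    eY ((3 : ℤ) • G.s' b) = G.y b / G.x b ^ 3 := by
  have hc : (G.y b / G.x b ^ 3) ^ 2 = (G.x b)⁻¹ ^ 6 + 1 := by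
    have h := G.x_ne_zero b
    have h1 := G.curve b
    field_simp
    rw [h1]; ring
  have h1 : BPt.swap (BPt.aff (G.x b) (G.y b) (G.curve b)) =
      BPt.aff (G.x b)⁻¹ (G.y b / G.x b ^ 3) hc := dif_neg (G.x_ne_zero b)
  rw [G.s'_eq']
  unfold BPt.pi'
  rw [h1]
  rfl

private theorem r5z_one (G : Geo X) (e : K) (he : e ^ 2 = 1) (b : Fin 3) :
    r5z_r G e b ≠ 0 ∧ ∀ D : DV k K,
      3 * (D.iE (0 - G.s b) + D.iE (mkE 0 e (by rw [he]; ring) - G.s' b)) =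
        2 * D.iB (G.mark b) (.inf e he) + D.iInf (G.mark b) -
          6 * (D.iE (G.s b) + D.iE (G.s' b)) - D.v (r5z_r G e b) := by
  obtain ⟨hs, hs', hY, hY', h3, h3'⟩ := G.s_ne b
  have hx := G.x_ne_zero b
  have hcv := G.curve b
  have hT : G.s' b ≠ mkE 0 e (by rw [he]; ring) := by
    intro h
    apply h3'
    rw [h]
    exact three_mkE e he
  have hyx : G.y b - e * G.x b ^ 3 ≠ 0 := by
    intro h0
    have h1 : (G.y b - e * G.x b ^ 3) * (G.y b + e * G.x b ^ 3) = 1 := by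
      linear_combination hcv - G.x b ^ 6 * he
    rw [h0, zero_mul] at h1
    exact zero_ne_one h1
  have hH : eH e (G.s' b) ^ 3 = (G.y b - e * G.x b ^ 3) / G.x b ^ 3 := by
    rw [← eY_three e he hs' h3', r5z_eY]
    field_simp
  have hH0 : eH e (G.s' b) ≠ 0 := by
    intro h0
    rw [h0, zero_pow (by norm_num)] at hH
    exact div_ne_zero hyx (pow_ne_zero 3 hx) hH.symm
  have hE0 : eY (G.s' b) - e ≠ 0 := ((r5z_triv k K).v_eY_sub he hs' hT).1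
  have hP0 : psi3 (G.s b) ≠ 0 := ((r5z_triv k K).iE_three hs hY h3).1
  have hP0' : psi3 (G.s' b) ≠ 0 := ((r5z_triv k K).iE_three hs' hY' h3').1
  refine ⟨div_ne_zero (mul_ne_zero (mul_ne_zero hH0 hP0) hP0') hE0, fun D => ?_⟩
  have e1 := (D.v_eY_sub he hs' hT).2
  have e2 := (D.iE_three hs hY h3).2
  have e3 := (D.iE_three hs' hY' h3').2
  rw [G.s_eq', D.iE_pi] at e2
  rw [G.s'_eq', D.iE_pi' _ hx] at e3
  have e4 := D.v_y_sub hcv e he
  have e5 := D.iInf_eq hcv e he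
  have e6 : 3 * D.v (eH e (G.s' b)) = D.v (G.y b - e * G.x b ^ 3) - 3 * D.v (G.x b) := by
    have h1 := D.pow hH0 3
    rw [hH, D.div hyx (pow_ne_zero 3 hx), D.pow hx] at h1
    push_cast at h1
    linarith
  have e7 : D.v (r5z_r G e b) = D.v (eH e (G.s' b)) + D.v (psi3 (G.s b)) +
      D.v (psi3 (G.s' b)) - D.v (eY (G.s' b) - e) := by
    unfold r5z_r
    rw [D.div (mul_ne_zero (mul_ne_zero hH0 hP0) hP0') hE0,
      D.mul (mul_ne_zero hH0 hP0) hP0', D.mul hH0 hP0]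
  have e8 : D.iZero (.aff (G.x b) (G.y b) hcv) =
      D.iInf (.aff (G.x b) (G.y b) hcv) + D.v (G.x b) := by
    change max 0 (D.v (G.x b)) = max 0 (-(D.v (G.x b))) + D.v (G.x b)
    omega
  have e9 : D.iE (mkE 0 e (by rw [he]; ring) - G.s' b) =
      D.iE (G.s' b - mkE 0 e (by rw [he]; ring)) := D.iE_sub_comm _ _
  rw [zero_sub, D.iE_neg, e9, e7]
  unfold Geo.mark
  omega

theorem Geo.R5_zero (e : K) (he : e ^ 2 = 1) : ∃ r : K, r ≠ 0 ∧ ∀ D : DV k K,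
    3 * (∑ b, (D.iE (0 - G.s b) + D.iE (mkE 0 e (by rw [he]; ring) - G.s' b))) =
      2 * (∑ b, D.iB (G.mark b) (.inf e he)) +
        (∑ b, D.iInf (G.mark b) - 6 * ∑ b, (D.iE (G.s b) + D.iE (G.s' b))) - D.v r := by
  obtain ⟨h0, k0⟩ := r5z_one G e he 0
  obtain ⟨h1, k1⟩ := r5z_one G e he 1
  obtain ⟨h2, k2⟩ := r5z_one G e he 2
  refine ⟨r5z_r G e 0 * r5z_r G e 1 * r5z_r G e 2, mul_ne_zero (mul_ne_zero h0 h1) h2,
    fun D => ?_⟩
  have m0 := k0 D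
  have m1 := k1 D
  have m2 := k2 D
  rw [D.mul (mul_ne_zero h0 h1) h2, D.mul h0 h1, Fin.sum_univ_three, Fin.sum_univ_three,
    Fin.sum_univ_three, Fin.sum_univ_three]
  omega

end HB
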