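import Pool.Agent.HB.D.R5z
import Pool.Agent.HB.Z.Marks

/-!
# HB-D-Rho: the class relations (assembly)

Plan.  `ρ 0, ρ 1, ρ 2` from `R5_mark` (`(0,1,2)`, `(1,0,2)`, `(2,1,0)`), `ρ 3, ρ 4` from `R5_zero` with `e = 1`,
`e = -1`.  `G.pt a = G.mark a`; `NN` unfolds; `iInf (mark a) = iB (pt a) (pt 3) + iB (pt a) (pt 4)` (`iInf_eq` with
`e = 1`); `iB (mk 0) (mk 2) = 0` (`i02`), `iB_comm`; `G.VV` = the common part (`Fin.sum_univ_three`).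
For `i = 3, 4`: `(inf e).pi = 0`, `(inf e).pi' = mkE 0 e` (`0 ^ 2 = 0`), `iZero (inf e) = 0`, `iB (inf e) (Z.p.map K) = 0`
(`p` is `IsFin`, `inf e` is not).
-/

set_option autoImplicit false

namespace HB

variable {k K : Type} [Field k] [Field K] [Algebra k K] [CharZero k] [IsAlgClosed k] [CharZero K]
  {X : Surf k K} (G : Geo X) (Z : ZPair k)

omit [CharZero k] [IsAlgClosed k] in
private theorem rho_pi' (e : K) (he : e ^ 2 = 1) (h' : e ^ 2 = 0 ^ 3 + 1) :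
    (BPt.inf e he : BPt K).pi' = mkE 0 e h' := by
  have h0 : ∀ (x : K) (hx : x = 0) (h : e ^ 2 = x ^ 3 + 1), mkE x e h = mkE 0 e h' := by
    intro x hx h
    subst hx
    rfl
  exact h0 (0 ^ 2) (by ring) (by rw [he]; ring)

omit [CharZero k] [IsAlgClosed k] [CharZero K] in
private theorem rho_iZero (D : DV k K) (e : K) (he : e ^ 2 = 1) :
    D.iZero (BPt.inf e he) = 0 := by
  change max 0 (D.v 0) = 0
  rw [D.zero]
  rfl

omit [IsAlgClosed k] [CharZero K] in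
private theorem rho_iB (D : DV k K) (e : K) (he : e ^ 2 = 1) (x y : k) (h : y ^ 2 = x ^ 6 + 1) :
    D.iB (BPt.inf e he) ((BPt.aff x y h).map K) = 0 :=
  D.iB_mix2 (p := BPt.inf e he) (q := (BPt.aff x y h).map K) id (D.ge_const x)

omit [IsAlgClosed k] [CharZero K] in
private theorem rho_iInf (D : DV k K) (a : Fin 3) :
    D.iInf (G.mark a) = D.iB (G.mark a) (G.pt 3) + D.iB (G.mark a) (G.pt 4) :=
  D.iInf_eq (G.curve a) 1 (one_pow 2)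

theorem Geo.exists_rho : ∃ ρ : Fin 5 → K, (∀ i, ρ i ≠ 0) ∧ ∀ D : DV k K,
    (3 * G.NN Z D 0 = 3 * (D.iB (G.pt 0) (Z.p.map K) - D.iB (G.pt 0) (Z.q.map K)) +
      D.iB (G.pt 0) (G.pt 3) + D.iB (G.pt 0) (G.pt 4) + 2 * D.iB (G.pt 0) (G.pt 1) + G.VV D
      - D.v (ρ 0)) ∧
    (3 * G.NN Z D 1 = 3 * (D.iB (G.pt 1) (Z.p.map K) - D.iB (G.pt 1) (Z.q.map K)) +
      D.iB (G.pt 1) (G.pt 3) + D.iB (G.pt 1) (G.pt 4) +
      2 * (D.iB (G.pt 0) (G.pt 1) + D.iB (G.pt 2) (G.pt 1)) + G.VV D - D.v (ρ 1)) ∧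
    (3 * G.NN Z D 2 = 3 * (D.iB (G.pt 2) (Z.p.map K) - D.iB (G.pt 2) (Z.q.map K)) +
      D.iB (G.pt 2) (G.pt 3) + D.iB (G.pt 2) (G.pt 4) + 2 * D.iB (G.pt 2) (G.pt 1) + G.VV D
      - D.v (ρ 2)) ∧
    (3 * G.NN Z D 3 = 2 * (D.iB (G.pt 0) (G.pt 3) + D.iB (G.pt 1) (G.pt 3) +
      D.iB (G.pt 2) (G.pt 3)) + G.VV D - D.v (ρ 3)) ∧
    (3 * G.NN Z D 4 = 2 * (D.iB (G.pt 0) (G.pt 4) + D.iB (G.pt 1) (G.pt 4) +
      D.iB (G.pt 2) (G.pt 4)) + G.VV D - D.v (ρ 4)) := by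
  obtain ⟨r0, h0, H0⟩ := G.R5_mark (a := 0) (b := 1) (c := 2) (by decide) (by decide) (by decide)
  obtain ⟨r1, h1, H1⟩ := G.R5_mark (a := 1) (b := 0) (c := 2) (by decide) (by decide) (by decide)
  obtain ⟨r2, h2, H2⟩ := G.R5_mark (a := 2) (b := 1) (c := 0) (by decide) (by decide) (by decide)
  obtain ⟨r3, h3, H3⟩ := G.R5_zero 1 (one_pow 2)
  obtain ⟨r4, h4, H4⟩ := G.R5_zero (-1) neg_one_sq
  refine ⟨![r0, r1, r2, r3, r4], ?_, fun D => ?_⟩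
  · intro i
    fin_cases i
    · exact h0
    · exact h1
    · exact h2
    · exact h3
    · exact h4
  have e0 : G.pt 0 = G.mark 0 := rfl
  have e1 : G.pt 1 = G.mark 1 := rfl
  have e2 : G.pt 2 = G.mark 2 := rfl
  have i02 : D.iB (G.mark 0) (G.mark 2) = 0 := G.i02 D
  have i20 : D.iB (G.mark 2) (G.mark 0) = 0 := by rw [D.iB_comm]; exact i02
  have i10 : D.iB (G.mark 1) (G.mark 0) = D.iB (G.mark 0) (G.mark 1) := D.iB_comm _ _
  have i12 : D.iB (G.mark 1) (G.mark 2) = D.iB (G.mark 2) (G.mark 1) := D.iB_comm _ _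
  have hV : G.VV D = ∑ e, D.iInf (G.mark e) - 6 * ∑ e, (D.iE (G.s e) + D.iE (G.s' e)) := by
    rw [Geo.VV, Fin.sum_univ_three (f := fun e => D.iInf (G.mark e)), e0, e1, e2]
  have K0 := H0 D
  have K1 := H1 D
  have K2 := H2 D
  have K3 := H3 D
  have K4 := H4 D
  rw [← hV] at K0 K1 K2 K3 K4
  rw [rho_iInf G D 0, i02] at K0
  rw [rho_iInf G D 1, i10, i12] at K1
  rw [rho_iInf G D 2, i20] at K2
  have N0 : G.NN Z D 0 = D.iB (G.mark 0) (Z.p.map K) - D.iB (G.mark 0) (Z.q.map K) -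
      4 * D.iZero (G.mark 0) +
      ∑ e, (D.iE ((G.mark 0).pi - G.s e) + D.iE ((G.mark 0).pi' - G.s' e)) := rfl
  have N1 : G.NN Z D 1 = D.iB (G.mark 1) (Z.p.map K) - D.iB (G.mark 1) (Z.q.map K) -
      4 * D.iZero (G.mark 1) +
      ∑ e, (D.iE ((G.mark 1).pi - G.s e) + D.iE ((G.mark 1).pi' - G.s' e)) := rfl
  have N2 : G.NN Z D 2 = D.iB (G.mark 2) (Z.p.map K) - D.iB (G.mark 2) (Z.q.map K) -
      4 * D.iZero (G.mark 2) +
      ∑ e, (D.iE ((G.mark 2).pi - G.s e) + D.iE ((G.mark 2).pi' - G.s' e)) := rfl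
  have N3 : G.NN Z D 3 = ∑ b, (D.iE (0 - G.s b) + D.iE (mkE 0 1 (by ring) - G.s' b)) := by
    have a1 : D.iB (G.pt 3) (Z.p.map K) = 0 := rho_iB D 1 (one_pow 2) _ _ Z.hp
    have a2 : D.iB (G.pt 3) (Z.q.map K) = 0 := rho_iB D 1 (one_pow 2) _ _ Z.hq
    have a3 : D.iZero (G.pt 3) = 0 := rho_iZero D 1 (one_pow 2)
    have a4 : (G.pt 3).pi' = mkE 0 1 (by ring) := rho_pi' 1 (one_pow 2) _
    have a5 : (G.pt 3).pi = 0 := rfl
    simp only [Geo.NN, Geo.f, Geo.f', a1, a2, a3, a4, a5]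
    ring
  have N4 : G.NN Z D 4 = ∑ b, (D.iE (0 - G.s b) + D.iE (mkE 0 (-1) (by ring) - G.s' b)) := by
    have a1 : D.iB (G.pt 4) (Z.p.map K) = 0 := rho_iB D (-1) neg_one_sq _ _ Z.hp
    have a2 : D.iB (G.pt 4) (Z.q.map K) = 0 := rho_iB D (-1) neg_one_sq _ _ Z.hq
    have a3 : D.iZero (G.pt 4) = 0 := rho_iZero D (-1) neg_one_sq
    have a4 : (G.pt 4).pi' = mkE 0 (-1) (by ring) := rho_pi' (-1) neg_one_sq _
    have a5 : (G.pt 4).pi = 0 := rfl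
    simp only [Geo.NN, Geo.f, Geo.f', a1, a2, a3, a4, a5]
    ring
  have S3 : (∑ b, D.iB (G.mark b) (BPt.inf 1 (one_pow 2))) =
      D.iB (G.mark 0) (G.pt 3) + D.iB (G.mark 1) (G.pt 3) + D.iB (G.mark 2) (G.pt 3) :=
    Fin.sum_univ_three _
  have S4 : (∑ b, D.iB (G.mark b) (BPt.inf (-1) neg_one_sq)) =
      D.iB (G.mark 0) (G.pt 4) + D.iB (G.mark 1) (G.pt 4) + D.iB (G.mark 2) (G.pt 4) :=
    Fin.sum_univ_three _
  rw [S3, ← N3] at K3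
  rw [S4, ← N4] at K4
  rw [e0, e1, e2]
  refine ⟨?_, ?_, ?_, ?_, ?_⟩
  · change 3 * G.NN Z D 0 = _ - D.v r0
    rw [N0]
    linarith
  · change 3 * G.NN Z D 1 = _ - D.v r1
    rw [N1]
    linarith
  · change 3 * G.NN Z D 2 = _ - D.v r2
    rw [N2]
    linarith
  · change 3 * G.NN Z D 3 = _ - D.v r3
    linarith
  · change 3 * G.NN Z D 4 = _ - D.v r4
    linarith

end HB
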